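import Pool.Agent.D0H20.DL.Same
import Pool.Agent.D0H20.BK.Chord

/-!
# The bracket with the elements of depth one
-/

set_option autoImplicit false

namespace Pool.Agent.D0H20.DL

open Finset Pool.Agent.D0H20.BK

/-- `f_a` -/
def fa (a : ℕ) : List ℚ → ℚ
  | [x, y] => (x - y) ^ (2 * a)
  | _ => 0

lemma fa_supp (a : ℕ) : Supp 2 (fa a) := by
  intro l hl
  match l, hl with
  | [], _ => rfl
  | [x], _ => rfl
  | x :: y :: z :: l, _ => rfl
  | [x, y], hl => exact absurd rfl hl

/-- cyclic form of the bracket with `f_a` -/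
def adf (a : ℕ) (F : List ℚ → ℚ) (z : List ℚ) : ℚ := D a z.getLast? z (z.headD 0) F

lemma lst_drop (n j : ℕ) : ∀ (y : ℕ → ℚ), (lst (j + n) y).drop j = lst n (fun i => y (i + j)) := by
  induction j with
  | zero => intro y; rw [Nat.zero_add]; rfl
  | succ j ih =>
    intro y
    rw [show j + 1 + n = (j + n) + 1 by omega, lst_succ, List.drop_succ_cons, ih]
    congr 1

lemma lst_take (n j : ℕ) : ∀ (y : ℕ → ℚ), (lst (j + n) y).take j = lst j y := by
  induction j with
  | zero => intro y; rfl
  | succ j ih =>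
    intro y
    rw [show j + 1 + n = (j + n) + 1 by omega, lst_succ, List.take_succ_cons, ih, lst_succ]

lemma lst_getD (z : List ℚ) : lst z.length (fun i => z.getD i 0) = z := by
  apply List.ext_getElem (by simp)
  intro i h1 h2
  simp [lst, List.getD_eq_getElem?_getD, h2]

lemma ihara_fa (a s : ℕ) {F : List ℚ → ℚ} (hF : Supp (s + 1) F) (z : List ℚ) :
    ihara 1 s (fa a) F z = adf a F z := by
  by_cases hz : z.length = s + 2
  · obtain ⟨y, rfl⟩ : ∃ y : ℕ → ℚ, lst (s + 2) y = z := ⟨fun i => z.getD i 0, by rw [← hz]; exact lst_getD z⟩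
    have hk : ∀ j ≤ s, fa a (((lst (s + 2) y).drop j).take 2) = (y j - y (j + 1)) ^ (2 * a) := by
      intro j hj
      obtain ⟨k, hk⟩ : ∃ k, s + 2 = j + (k + 2) := ⟨s - j, by omega⟩
      rw [hk, lst_drop, lst_succ, lst_succ]
      show (y (0 + j) - y (0 + 1 + j)) ^ (2 * a) = _
      rw [Nat.zero_add, show 0 + 1 + j = j + 1 by omega]
    have he : ∀ j, (lst (s + 2) y).take j ++ (lst (s + 2) y).drop (j + 1) = (lst (s + 2) y).eraseIdx j := by
      intro j
      rw [List.eraseIdx_eq_take_drop_succ]
    have h1 : act 1 s (fa a) F (lst (s + 2) y) =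
        ∑ j ∈ range (s + 1), (y j - y (j + 1)) ^ (2 * a) * F ((lst (s + 2) y).eraseIdx j) -
        ∑ j ∈ range s, (y j - y (j + 1)) ^ (2 * a) * F ((lst (s + 2) y).eraseIdx (j + 1)) := by
      unfold act
      congr 1
      · apply sum_congr rfl
        intro j hj
        rw [mem_range] at hj
        rw [hk j (by omega), he]
      · apply sum_congr rfl
        intro j hj
        rw [mem_range] at hj
        rw [hk j (by omega), he]
    have e1 : (lst (s + 2) y).take (s + 1) = lst (s + 1) y := lst_take 1 (s + 1) y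
    have e2 : (lst (s + 2) y).drop s = [y s, y (s + 1)] := by
      rw [lst_drop 2 s y]
      show [y (0 + s), y (1 + s)] = _
      rw [Nat.zero_add, Nat.add_comm 1 s]
    have e3 : (lst (s + 2) y).drop (1 + s) = [y (s + 1)] := by
      rw [show s + 2 = (1 + s) + 1 by omega, lst_drop 1 (1 + s) y]
      show [y (0 + (1 + s))] = _
      rw [Nat.zero_add, Nat.add_comm 1 s]
    have e4 : (lst (s + 2) y).take 1 = [y 0] := by rw [lst_succ]; rfl
    have e5 : ((lst (s + 2) y).drop 1).take (s + 1) = (lst (s + 2) y).eraseIdx 0 := by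
      rw [lst_succ, List.eraseIdx_cons_zero, List.drop_succ_cons, List.drop_zero, List.take_of_length_le (by simp)]
    have h2 : act s 1 F (fa a) (lst (s + 2) y) = F (lst (s + 1) y) * (y s - y (s + 1)) ^ (2 * a) +
        F ((lst (s + 2) y).eraseIdx 0) * (y 0 - y (s + 1)) ^ (2 * a) -
        F (lst (s + 1) y) * (y 0 - y (s + 1)) ^ (2 * a) := by
      unfold act
      rw [sum_range_succ, sum_range_one, sum_range_one, Nat.zero_add, e3, e4, e5, List.drop_zero, List.take_zero,
        e1, e2]
      rfl
    have h3 : adf a F (lst (s + 2) y) = (y (s + 1) - y 0) ^ (2 * a) * F (lst (s + 1) y) +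
        ∑ j ∈ range (s + 1), (y j - y (j + 1)) ^ (2 * a) *
          (F ((lst (s + 2) y).eraseIdx j) - F ((lst (s + 2) y).eraseIdx (j + 1))) -
        (y (s + 1) - y 0) ^ (2 * a) * F ((lst (s + 2) y).eraseIdx 0) := by
      have hl : (lst (s + 2) y).getLast? = some (y (s + 1)) := by
        rw [lst_snoc (s + 1) y]; simp
      have hh : (lst (s + 2) y).headD 0 = y 0 := by rw [lst_succ]; rfl
      unfold adf
      rw [hl, hh, D_ci, ko_some]
    have e6 : (lst (s + 2) y).eraseIdx (s + 1) = lst (s + 1) y := by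
      rw [← he, e1, List.drop_of_length_le (by simp), List.append_nil]
    unfold ihara
    rw [h1, h2, h3]
    simp only [mul_sub, sum_sub_distrib]
    rw [sum_range_succ (fun j => (y j - y (j + 1)) ^ (2 * a) * F ((lst (s + 2) y).eraseIdx (j + 1))) s, e6,
      ksymm a (y 0) (y (s + 1))]
    ring
  · rw [ihara_supp (fa_supp a) hF z (by omega)]
    symm
    unfold adf
    rw [D_congr a z _ _ F (fun _ => 0) (fun l hl _ => hF l (by omega)), D_zero]

lemma adf_aff (a : ℕ) (t c k : ℚ) (F : List ℚ → ℚ) (hF : ∀ l, F (l.map (fun x => t * x + c)) = k * F l)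
    (z : List ℚ) : adf a F (z.map (fun x => t * x + c)) = t ^ (2 * a) * k * adf a F z := by
  cases z with
  | nil => simp [adf]
  | cons x z =>
    have h := D_aff t c a x (x :: z) k (x :: z).getLast? F F hF
    unfold adf
    rw [← List.getLast?_map, List.map_cons] at h
    exact h

lemma adf_poly (a s : ℕ) {F : List ℚ → ℚ} {p : MvPolynomial ℕ ℚ}
    (hp : ∀ z : List ℚ, z.length = s + 1 → F z = MvPolynomial.eval (fun i => z.getD i 0) p) :
    ∃ p' : MvPolynomial ℕ ℚ, ∀ z : List ℚ, z.length = s + 2 → adf a F z =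
      MvPolynomial.eval (fun i => z.getD i 0) p' := by
  refine ⟨D a (some (MvPolynomial.X (s + 1))) ((List.range (s + 2)).map MvPolynomial.X) (MvPolynomial.X 0)
    (fun l => MvPolynomial.aeval (fun i => l.getD i 0) p), ?_⟩
  intro z hz
  set f : MvPolynomial ℕ ℚ →+* ℚ := MvPolynomial.eval (fun i => z.getD i 0) with hf
  rw [D_map f a (MvPolynomial.X 0) ((List.range (s + 2)).map MvPolynomial.X) (some (MvPolynomial.X (s + 1))) _
    (fun l => MvPolynomial.aeval (fun i => l.getD i 0) p) (fun l => by
      rw [MvPolynomial.map_aeval, MvPolynomial.aeval_def, MvPolynomial.coe_eval₂Hom]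
      congr 1
      · exact RingHom.ext_rat _ _
      · funext i
        rw [List.getD_eq_getElem?_getD, List.getD_eq_getElem?_getD, List.getElem?_map]
        cases l[i]? <;> simp)]
  have h1 : (((List.range (s + 2)).map MvPolynomial.X).map f) = z := by
    rw [List.map_map]
    conv_rhs => rw [← lst_getD z, hz]
    unfold lst
    congr 1
    funext i
    simp [hf]
  have h2 : f (MvPolynomial.X 0) = z.headD 0 := by
    rw [hf, MvPolynomial.eval_X]
    cases z <;> rfl
  have h3 : (some (MvPolynomial.X (s + 1)) : Option (MvPolynomial ℕ ℚ)).map f = z.getLast? := by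
    rw [Option.map_some, hf, MvPolynomial.eval_X, List.getLast?_eq_getElem?, hz]
    simp [List.getD_eq_getElem?_getD, hz]
  rw [h1, h2, h3]
  unfold adf
  apply D_congr
  intro l hl _
  rw [hp l (by omega), MvPolynomial.aeval_def]
  rfl

end Pool.Agent.D0H20.DL
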