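import Pool.Agent.D0H20.DL.Words

/-!
# Alternal functions (shuffle relations) of different length do not commute
-/

set_option autoImplicit false

namespace Pool.Agent.D0H20.DL

open Finset

section gen

variable {A M N : Type*} [AddCommMonoid M] [AddCommMonoid N]

/-- sum over the shuffles -/
def shuf : List A → List A → (List A → M) → M
  | [], zs, G => G zs
  | y :: ys, [], G => G (y :: ys)
  | y :: ys, z :: zs, G =>
      shuf ys (z :: zs) (fun l => G (y :: l)) + shuf (y :: ys) zs (fun l => G (z :: l))
termination_by ys zs => ys.length + zs.length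

/-- head and tail -/
def lp : List A → (A → List A → M) → M
  | [], _ => 0
  | y :: ys, F => F y ys

@[simp] lemma shuf_nil_left (zs : List A) (G : List A → M) : shuf [] zs G = G zs := by
  unfold shuf; rfl

@[simp] lemma shuf_nil_right (ys : List A) (G : List A → M) : shuf ys [] G = G ys := by
  cases ys <;> unfold shuf <;> rfl

lemma shuf_cons_cons (y z : A) (ys zs : List A) (G : List A → M) : shuf (y :: ys) (z :: zs) G =
    shuf ys (z :: zs) (fun l => G (y :: l)) + shuf (y :: ys) zs (fun l => G (z :: l)) := by
  conv_lhs => unfold shuf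

@[simp] lemma lp_nil (F : A → List A → M) : lp [] F = 0 := rfl
@[simp] lemma lp_cons (y : A) (ys : List A) (F : A → List A → M) : lp (y :: ys) F = F y ys := rfl

lemma shuf_split (ys zs : List A) (h : ys.length + zs.length ≠ 0) (G : List A → M) : shuf ys zs G =
    lp ys (fun y ys' => shuf ys' zs (fun l => G (y :: l))) +
      lp zs (fun z zs' => shuf ys zs' (fun l => G (z :: l))) := by
  match ys, zs with
  | [], [] => simp at h
  | [], z :: zs => simp
  | y :: ys, [] => simp
  | y :: ys, z :: zs => rw [shuf_cons_cons]; rfl

lemma shuf_map (f : M →+ N) (n : ℕ) : ∀ (ys zs : List A) (_ : ys.length + zs.length = n)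
    (G : List A → M), f (shuf ys zs G) = shuf ys zs (fun l => f (G l)) := by
  induction n using Nat.strong_induction_on with
  | _ n ih =>
  intro ys zs h G
  match ys, zs, h with
  | [], zs, _ => simp
  | y :: ys, [], _ => simp
  | y :: ys, z :: zs, h =>
    simp only [List.length_cons] at h
    rw [shuf_cons_cons, shuf_cons_cons, map_add, ih _ (by simp only [List.length_cons]; omega) ys (z :: zs) rfl,
      ih _ (by simp only [List.length_cons]; omega) (y :: ys) zs rfl]

lemma shuf_congr (n : ℕ) : ∀ (ys zs : List A) (_ : ys.length + zs.length = n)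
    (G H : List A → M) (_ : ∀ l : List A, l.length = n → G l = H l), shuf ys zs G = shuf ys zs H := by
  induction n using Nat.strong_induction_on with
  | _ n ih =>
  intro ys zs h G H hGH
  match ys, zs, h with
  | [], zs, h => simp only [shuf_nil_left]; exact hGH _ (by simpa using h)
  | y :: ys, [], h => simp only [shuf_nil_right]; exact hGH _ (by simpa using h)
  | y :: ys, z :: zs, h =>
    simp only [List.length_cons] at h
    rw [shuf_cons_cons, shuf_cons_cons, ih (n - 1) (by omega) ys (z :: zs) (by simp; omega) _ _ (fun l hl =>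
      hGH (y :: l) (by rw [List.length_cons]; omega)),
      ih (n - 1) (by omega) (y :: ys) zs (by simp; omega) _ _ (fun l hl =>
      hGH (z :: l) (by rw [List.length_cons]; omega))]

lemma shuf_zero (n : ℕ) : ∀ (ys zs : List A) (_ : ys.length + zs.length = n),
    shuf ys zs (fun _ => (0 : M)) = 0 := by
  intro ys zs h
  have := shuf_map (0 : M →+ M) n ys zs h (fun _ => (0 : M))
  simpa using this.symm

lemma shuf_zero' (n : ℕ) (ys zs : List A) (h : ys.length + zs.length = n) (G : List A → M)
    (hG : ∀ l : List A, l.length = n → G l = 0) : shuf ys zs G = 0 := by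
  rw [shuf_congr n ys zs h G (fun _ => 0) hG, shuf_zero n ys zs h]

end gen

lemma shuf_mul {A : Type*} (c : ℚ) (ys zs : List A) (G : List A → ℚ) :
    shuf ys zs (fun l => c * G l) = c * shuf ys zs G := by
  have := shuf_map (AddMonoidHom.mulLeft c) _ ys zs rfl G
  simpa using this.symm

/-- a function on the lists of length `r`, continued by zero -/
def Supp (r : ℕ) (u : List ℚ → ℚ) : Prop := ∀ l : List ℚ, l.length ≠ r → u l = 0

/-- the shuffle relations -/
def Alt (r : ℕ) (u : List ℚ → ℚ) : Prop :=
  ∀ ys zs : List ℚ, ys ≠ [] → zs ≠ [] → ys.length + zs.length = r → shuf ys zs u = 0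

lemma sum_lp_left (r : ℕ) (ys : List ℚ) (F : ℕ × ℕ → ℚ → List ℚ → ℚ) (C : ℕ × ℕ → ℚ) :
    ∑ p ∈ antidiagonal (r + 1), lp (ys.take p.1) (F p) * C p =
      lp ys (fun y ys' => ∑ p ∈ antidiagonal r, F (p.1 + 1, p.2) y (ys'.take p.1) * C (p.1 + 1, p.2)) := by
  rw [Finset.Nat.sum_antidiagonal_succ]
  cases ys with
  | nil => simp
  | cons y ys => simp

lemma sum_lp_right (r : ℕ) (zs : List ℚ) (F : ℕ × ℕ → ℚ → List ℚ → ℚ) (C : ℕ × ℕ → ℚ) :
    ∑ p ∈ antidiagonal (r + 1), lp (zs.take p.2) (F p) * C p =
      lp zs (fun y zs' => ∑ p ∈ antidiagonal r, F (p.1, p.2 + 1) y (zs'.take p.2) * C (p.1, p.2 + 1)) := by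
  rw [Finset.Nat.sum_antidiagonal_succ']
  cases zs with
  | nil => simp
  | cons y zs => simp

/-- the shuffles of a product -/
lemma shuf_dec (v : List ℚ → ℚ) (r : ℕ) : ∀ (u : List ℚ → ℚ) (_ : Supp r u) (ys zs : List ℚ)
    (_ : r ≤ ys.length + zs.length),
    shuf ys zs (fun l => u (l.take r) * v (l.drop r)) =
      ∑ p ∈ antidiagonal r, shuf (ys.take p.1) (zs.take p.2) u * shuf (ys.drop p.1) (zs.drop p.2) v := by
  induction r with
  | zero =>
    intro u _ ys zs _
    simp [shuf_mul]
  | succ r ih =>
    intro u hu ys zs h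
    have h1 : ∀ p ∈ antidiagonal (r + 1), shuf (ys.take p.1) (zs.take p.2) u *
        shuf (ys.drop p.1) (zs.drop p.2) v =
        lp (ys.take p.1) (fun y ys' => shuf ys' (zs.take p.2) (fun l => u (y :: l))) *
          shuf (ys.drop p.1) (zs.drop p.2) v +
        lp (zs.take p.2) (fun z zs' => shuf (ys.take p.1) zs' (fun l => u (z :: l))) *
          shuf (ys.drop p.1) (zs.drop p.2) v := by
      intro p _
      rw [← add_mul]
      congr 1
      by_cases hp : (ys.take p.1).length + (zs.take p.2).length = 0
      · have h2 : ys.take p.1 = [] := List.length_eq_zero_iff.1 (by omega)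
        have h3 : zs.take p.2 = [] := List.length_eq_zero_iff.1 (by omega)
        rw [h2, h3]
        simp only [shuf_nil_left, lp_nil, add_zero]
        exact hu [] (by simp)
      · exact shuf_split _ _ hp u
    rw [Finset.sum_congr rfl h1, Finset.sum_add_distrib,
      sum_lp_left r ys (fun p y ys' => shuf ys' (zs.take p.2) (fun l => u (y :: l)))
        (fun p => shuf (ys.drop p.1) (zs.drop p.2) v),
      sum_lp_right r zs (fun p z zs' => shuf (ys.take p.1) zs' (fun l => u (z :: l)))
        (fun p => shuf (ys.drop p.1) (zs.drop p.2) v), shuf_split ys zs (by omega)]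
    have hs : ∀ y : ℚ, Supp r (fun l => u (y :: l)) := by
      intro y l hl
      exact hu _ (by rw [List.length_cons]; omega)
    congr 1
    · cases ys with
      | nil => rfl
      | cons y ys =>
        rw [lp_cons, lp_cons]
        exact ih _ (hs y) ys zs (by simp only [List.length_cons] at h; omega)
    · cases zs with
      | nil => rfl
      | cons z zs =>
        rw [lp_cons, lp_cons]
        exact ih _ (hs z) ys zs (by simp only [List.length_cons] at h; omega)

/-- the shuffles of a product with an alternal function -/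
lemma shuf_alt {r : ℕ} (hr : 1 ≤ r) {u : List ℚ → ℚ} (hs : Supp r u) (ha : Alt r u) (v : List ℚ → ℚ)
    (ys zs : List ℚ) (h : r ≤ ys.length + zs.length) :
    shuf ys zs (fun l => u (l.take r) * v (l.drop r)) =
      u (ys.take r) * shuf (ys.drop r) zs v + u (zs.take r) * shuf ys (zs.drop r) v := by
  rw [shuf_dec v r u hs ys zs h]
  have hsub : ({(r, 0), (0, r)} : Finset (ℕ × ℕ)) ⊆ antidiagonal r := by
    intro p hp
    simp only [Finset.mem_insert, Finset.mem_singleton] at hp
    rw [Finset.HasAntidiagonal.mem_antidiagonal]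
    rcases hp with rfl | rfl <;> simp
  rw [← Finset.sum_subset hsub]
  · rw [Finset.sum_pair (by intro h; rw [Prod.mk.injEq] at h; omega)]
    simp
  · intro p hp hp'
    rw [Finset.HasAntidiagonal.mem_antidiagonal] at hp
    simp only [Finset.mem_insert, Finset.mem_singleton, not_or] at hp'
    have h1 : p.1 ≠ 0 := by
      intro h1
      apply hp'.2
      rw [Prod.ext_iff]
      exact ⟨h1, by simpa using (by omega : p.2 = r)⟩
    have h2 : p.2 ≠ 0 := by
      intro h2
      apply hp'.1
      rw [Prod.ext_iff]
      exact ⟨by simpa using (by omega : p.1 = r), h2⟩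
    have h3 : shuf (ys.take p.1) (zs.take p.2) u = 0 := by
      by_cases hlen : (ys.take p.1).length + (zs.take p.2).length = r
      · rw [List.length_take, List.length_take] at hlen
        apply ha
        · intro h4
          have := congrArg List.length h4
          rw [List.length_take, List.length_nil] at this
          omega
        · intro h4
          have := congrArg List.length h4
          rw [List.length_take, List.length_nil] at this
          omega
        · rw [List.length_take, List.length_take]
          exact hlen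
      · apply shuf_zero' _ _ _ rfl
        intro l hl
        exact hs l (by rw [hl]; exact hlen)
    rw [h3, zero_mul]

/-- commuting functions -/
def Comm (r s : ℕ) (u v : List ℚ → ℚ) : Prop :=
  ∀ l : List ℚ, l.length = r + s → u (l.take r) * v (l.drop r) = v (l.take s) * u (l.drop s)

/-- division -/
lemma div_comm' {r s : ℕ} (hrs : r ≤ s) {u v : List ℚ → ℚ} (hv : Supp s v) (h : Comm r s u v) (l0 : List ℚ)
    (hl0 : l0.length = r) (hu0 : u l0 ≠ 0) : ∃ v' : List ℚ → ℚ, Supp (s - r) v' ∧ Comm r (s - r) u v' ∧
      ∀ l : List ℚ, l.length = s → v l = u (l.take r) * v' (l.drop r) := by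
  set v' : List ℚ → ℚ := fun m => v (m ++ l0) / u l0 with hv'
  have hdiv : ∀ l : List ℚ, l.length = s → v l = u (l.take r) * v' (l.drop r) := by
    intro l hl
    have h1 := h (l ++ l0) (by rw [List.length_append]; omega)
    rw [List.take_left' hl, List.drop_left' hl, List.take_append_of_le_length (by omega),
      List.drop_append_of_le_length (by omega)] at h1
    rw [hv']
    simp only
    field_simp
    linarith
  refine ⟨v', ?_, ?_, hdiv⟩
  · intro m hm
    rw [hv']
    simp only
    rw [hv _ (by rw [List.length_append]; omega), zero_div]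
  · intro m hm
    have h1 := h (l0 ++ m) (by rw [List.length_append]; omega)
    have e1 : (l0 ++ m).take r = l0 := by
      rw [List.take_append_of_le_length (by omega), List.take_of_length_le (by omega)]
    have e2 : (l0 ++ m).drop r = m := by
      rw [List.drop_append_of_le_length (by omega), List.drop_of_length_le (by omega), List.nil_append]
    rw [e1, e2, hdiv m (by omega), hdiv ((l0 ++ m).take s) (by rw [List.length_take, List.length_append]; omega),
      List.take_take, min_eq_left hrs, e1] at h1
    have e3 : ((l0 ++ m).take s).drop r = m.take (s - r) := by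
      rw [List.drop_take, e2]
    have e4 : (l0 ++ m).drop s = m.drop (s - r) := by
      rw [← e2, List.drop_drop, e2, show r + (s - r) = s by omega]
    rw [e3, e4] at h1
    have h2 : u l0 * (u (m.take r) * v' (m.drop r)) = u l0 * (v' (m.take (s - r)) * u (m.drop (s - r))) := by
      rw [h1]; ring
    exact mul_left_cancel₀ hu0 h2

/-- the main step -/
lemma shuf_comm {r t : ℕ} (ht : 1 ≤ t) (htr : t ≤ r) {u : List ℚ → ℚ} (hs : Supp r u) (ha : Alt r u)
    (l0 : List ℚ) (hl0 : l0.length = r) (hu0 : u l0 ≠ 0) (k : ℕ) : ∀ (v : List ℚ → ℚ)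
    (_ : Supp (k * r + t) v) (_ : Comm r (k * r + t) u v) (ys zs : List ℚ) (_ : ys.length = k * r)
    (_ : zs.length = t), ∃ N : ℚ, 0 < N ∧ shuf ys zs v = N * v (ys ++ zs) := by
  induction k with
  | zero =>
    intro v _ _ ys zs hys _
    have : ys = [] := List.length_eq_zero_iff.1 (by simpa using hys)
    exact ⟨1, one_pos, by rw [this]; simp⟩
  | succ k ih =>
    intro v hv hc ys zs hys hzs
    have hk : (k + 1) * r = k * r + r := by ring
    have hk2 : (k + 1) * r + t - r = k * r + t := by omega
    obtain ⟨v', hv', hc', hdiv⟩ := div_comm' (by omega) hv hc l0 hl0 hu0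
    rw [hk2] at hv' hc'
    rw [hk] at hys
    have hlen : ys.length + zs.length = (k + 1) * r + t := by omega
    rw [shuf_congr _ ys zs hlen v _ hdiv, shuf_alt (by omega) hs ha v' ys zs (by omega)]
    obtain ⟨N, hN, h1⟩ := ih v' hv' hc' (ys.drop r) zs (by rw [List.length_drop]; omega) hzs
    have h2 : v (ys ++ zs) = u (ys.take r) * v' (ys.drop r ++ zs) := by
      rw [hdiv _ (by rw [List.length_append, hlen]), List.take_append_of_le_length (by omega),
        List.drop_append_of_le_length (by omega)]
    rcases Nat.lt_or_eq_of_le htr with hlt | heq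
    · refine ⟨N, hN, ?_⟩
      rw [hs (zs.take r) (by rw [List.length_take]; omega), h1, h2]
      ring
    · refine ⟨N + 1, by linarith, ?_⟩
      have h3 := hc' (ys ++ zs) (by rw [List.length_append]; omega)
      rw [List.take_left' (by omega : ys.length = k * r + t), List.drop_left' (by omega : ys.length = k * r + t),
        List.take_append_of_le_length (by omega), List.drop_append_of_le_length (by omega)] at h3
      rw [h1, h2, List.take_of_length_le (by omega : zs.length ≤ r), List.drop_of_length_le (by omega : zs.length ≤ r),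
        shuf_nil_right]
      linarith

lemma NC_of_lt {r s : ℕ} (hr : 1 ≤ r) (hrs : r < s) {u v : List ℚ → ℚ} (hu : Supp r u) (hv : Supp s v)
    (hua : Alt r u) (hva : Alt s v) (hu0 : ∃ l, u l ≠ 0) (hv0 : ∃ l, v l ≠ 0) : NC r s u v := by
  by_contra hcon
  have hc : Comm r s u v := by
    intro l hl
    by_contra h
    exact hcon ⟨l, hl, h⟩
  obtain ⟨l0, hl0⟩ := hu0
  have hl0' : l0.length = r := by
    by_contra h
    exact hl0 (hu l0 h)
  obtain ⟨l1, hl1⟩ := hv0
  have hl1' : l1.length = s := by
    by_contra h
    exact hl1 (hv l1 h)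
  obtain ⟨k, t, ht, htr, hk⟩ : ∃ k t, 1 ≤ t ∧ t ≤ r ∧ s = k * r + t := by
    refine ⟨(s - 1) / r, (s - 1) % r + 1, by omega, by have := Nat.mod_lt (s - 1) (by omega : 0 < r); omega, ?_⟩
    have := Nat.div_add_mod (s - 1) r
    rw [mul_comm] at this
    omega
  have hk1 : 1 ≤ k := by
    by_contra h
    have : k = 0 := by omega
    rw [this] at hk
    omega
  have hkr : r ≤ k * r := by nlinarith
  obtain ⟨N, hN, h1⟩ := shuf_comm ht htr hu hua l0 hl0' hl0 k v (by rw [← hk]; exact hv) (by rw [← hk]; exact hc)
    (l1.take (k * r)) (l1.drop (k * r)) (by rw [List.length_take]; omega) (by rw [List.length_drop]; omega)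
  rw [List.take_append_drop, hva] at h1
  · have : N * v l1 ≠ 0 := mul_ne_zero hN.ne' hl1
    exact this h1.symm
  · intro h
    have := congrArg List.length h
    rw [List.length_take, List.length_nil] at this
    omega
  · intro h
    have := congrArg List.length h
    rw [List.length_drop, List.length_nil] at this
    omega
  · rw [List.length_take, List.length_drop]
    omega

/-- **Nonzero alternal functions of different length do not commute.** -/
theorem NC_of_alt {r s : ℕ} (hr : 1 ≤ r) (hs : 1 ≤ s) (hrs : r ≠ s) {u v : List ℚ → ℚ} (hu : Supp r u)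
    (hv : Supp s v) (hua : Alt r u) (hva : Alt s v) (hu0 : ∃ l, u l ≠ 0) (hv0 : ∃ l, v l ≠ 0) : NC r s u v := by
  rcases Nat.lt_or_gt_of_ne hrs with h | h
  · exact NC_of_lt hr h hu hv hua hva hu0 hv0
  · exact (NC_of_lt hs h hv hu hva hua hv0 hu0).symm

/-- commuting functions of the same length are proportional -/
lemma prop_of_comm {r : ℕ} {u v : List ℚ → ℚ} (hu : Supp r u) (hv : Supp r v) (hc : Comm r r u v)
    (hu0 : ∃ l, u l ≠ 0) : ∃ c : ℚ, ∀ l, v l = c * u l := by
  obtain ⟨l0, hl0⟩ := hu0
  have hl0' : l0.length = r := by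
    by_contra h
    exact hl0 (hu l0 h)
  refine ⟨v l0 / u l0, fun l => ?_⟩
  by_cases hl : l.length = r
  · have h1 := hc (l0 ++ l) (by rw [List.length_append]; omega)
    rw [List.take_append_of_le_length (by omega), List.take_of_length_le (by omega),
      List.drop_append_of_le_length (by omega), List.drop_of_length_le (by omega), List.nil_append] at h1
    field_simp
    linarith
  · rw [hv l hl, hu l hl, mul_zero]

end Pool.Agent.D0H20.DL
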