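import Pool.Agent.D0H20.DL.Dih

/-!
# Centralizers
-/

set_option autoImplicit false

namespace Pool.Agent.D0H20.DL

open Finset Polynomial

lemma act_lin (r s : ℕ) (G H K : List ℚ → ℚ) (c : ℚ) (z : List ℚ) :
    act r s G (fun z => H z + c * K z) z = act r s G H z + c * act r s G K z := by
  unfold act
  simp only [mul_add, mul_sub, sum_add_distrib, mul_sum]
  have h1 : ∀ j, G ((z.drop j).take (r + 1)) * (c * K (z.take j ++ z.drop (j + r))) =
    c * (G ((z.drop j).take (r + 1)) * K (z.take j ++ z.drop (j + r))) := fun j => by ring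
  have h2 : ∀ j, G ((z.drop j).take (r + 1)) * (c * K (z.take (j + 1) ++ z.drop (j + 1 + r))) =
    c * (G ((z.drop j).take (r + 1)) * K (z.take (j + 1) ++ z.drop (j + 1 + r))) := fun j => by ring
  simp only [h1, h2]
  ring

lemma act_lin' (r s : ℕ) (G H K : List ℚ → ℚ) (c : ℚ) (z : List ℚ) :
    act s r (fun z => H z + c * K z) G z = act s r H G z + c * act s r K G z := by
  unfold act
  simp only [add_mul, mul_sub, sum_add_distrib, mul_sum, mul_assoc]
  ring

lemma ihara_lin (r s : ℕ) (G H K : List ℚ → ℚ) (c : ℚ) (z : List ℚ) :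
    ihara r s G (fun z => H z + c * K z) z = ihara r s G H z + c * ihara r s G K z := by
  unfold ihara
  rw [act_lin, act_lin']
  ring

lemma ihara_self (r : ℕ) (G : List ℚ → ℚ) (z : List ℚ) : ihara r r G G z = 0 := sub_self _

/-- the main step for elements of the same depth -/
lemma same_depth {r D E d e : ℕ} (hr : 1 ≤ r) {G H : List ℚ → ℚ} (hG : Dih r D G) (hH : Dih r E H)
    {P Q : List ℚ → ℚ[X]} (hd : 1 ≤ d) (he : 1 ≤ e) (hP : DL.LD r (d + 1) G P) (hQ : DL.LD r (e + 1) H Q)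
    (hP0 : ∃ l, (P l).coeff (d + 1) ≠ 0) (hQ0 : ∃ l, (Q l).coeff (e + 1) ≠ 0)
    (h : ∀ z, ihara r r G H z = 0) :
    d = e ∧ D = E ∧ ∃ c : ℚ, ∀ l, (Q l).coeff (e + 1) = c * (P l).coeff (d + 1) := by
  obtain ⟨c, hc⟩ := prop_of_comm (LD.supp' hP (d + 1)) (LD.supp' hQ (e + 1))
    (comm_lead hr hr (by omega) (by omega) hP hQ hG.supp hH.supp h) hP0
  have hc : ∀ l, (Q l).coeff (e + 1) = c * (P l).coeff (d + 1) := hc
  obtain ⟨l0, hl0⟩ := hP0
  have hc0 : c ≠ 0 := by
    obtain ⟨l1, hl1⟩ := hQ0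
    intro h0
    rw [hc, h0, zero_mul] at hl1
    exact hl1 rfl
  -- homogeneity
  have hG1 := hG.coeff_hom hP 2 l0 (d + 1)
  have hH1 := hH.coeff_hom hQ 2 l0 (e + 1)
  have hDE : D + (e + 1) = E + (d + 1) := by
    set a := (P (l0.map (fun x => 2 * x))).coeff (d + 1) with ha
    have h1 : (Q (l0.map (fun x => 2 * x))).coeff (e + 1) = c * a := hc _
    rw [h1, hc l0] at hH1
    have h2 : a * 2 ^ (e + 1) = 2 ^ E * (P l0).coeff (d + 1) := by
      apply mul_left_cancel₀ hc0
      linear_combination hH1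
    have h3 : ((2 : ℚ) ^ (D + (e + 1))) = 2 ^ (E + (d + 1)) := by
      apply mul_left_cancel₀ hl0
      rw [pow_add, pow_add]
      linear_combination (-(2 : ℚ) ^ (e + 1)) * hG1 + (2 : ℚ) ^ (d + 1) * h2
    exact Nat.pow_right_injective le_rfl (by exact_mod_cast h3)
  -- the second coefficients
  have hsec := comm_second hr hr hd he hP hQ hG.supp hH.supp h
  obtain ⟨c', hc'⟩ := prop_of_comm (r := r) (u := fun l => (P l).coeff (d + 1))
    (v := fun l => c * (P l).coeff d - (Q l).coeff e) (LD.supp' hP (d + 1)) (by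
      intro l hl
      show c * (P l).coeff d - (Q l).coeff e = 0
      rw [show (P l).coeff d = 0 from LD.supp' hP d l hl, show (Q l).coeff e = 0 from LD.supp' hQ e l hl,
        mul_zero, sub_zero]) (by
      intro l _
      have h1 := hsec l
      simp only [hc] at h1
      show (P (l.take r)).coeff (d + 1) * (c * (P (l.drop r)).coeff d - (Q (l.drop r)).coeff e) =
        (c * (P (l.take r)).coeff d - (Q (l.take r)).coeff e) * (P (l.drop r)).coeff (d + 1)
      linear_combination h1) ⟨l0, hl0⟩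
  have hc' : ∀ l, c * (P l).coeff d - (Q l).coeff e = c' * (P l).coeff (d + 1) := hc'
  have hc'0 : c' = 0 := by
    have h1 := hG.coeff_hom hP 2 l0 d
    have h2 := hH.coeff_hom hQ 2 l0 e
    have h3 := hc' (l0.map (fun x => 2 * x))
    have h4 := hc' l0
    set a := (P (l0.map (fun x => 2 * x))).coeff (d + 1) with ha
    set a' := (P (l0.map (fun x => 2 * x))).coeff d with ha'
    set b' := (Q (l0.map (fun x => 2 * x))).coeff e with hb'
    -- c a' - b' = c' a; a' 2^d = 2^D P_d, b' 2^e = 2^E Q_e, a 2^(d+1) = 2^D P_(d+1)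
    have h5 : (2 : ℚ) ^ (D + e) = 2 ^ (E + d) := by
      rw [show D + e = E + d by omega]
    rw [pow_add, pow_add] at h5
    have h6 : c' * a * 2 ^ d * 2 ^ e * 2 = 2 * (c' * a * 2 ^ d * 2 ^ e) := by ring
    have h7 : (2 : ℚ) ^ e * 2 ^ D * (c' * (P l0).coeff (d + 1)) = 0 := by
      have e1 : c' * a * (2 ^ d * 2 ^ e) = 2 ^ D * 2 ^ e * (c' * (P l0).coeff (d + 1)) := by
        rw [← h3, ← h4]
        linear_combination c * 2 ^ e * h1 - 2 ^ d * h2 + (Q l0).coeff e * h5
      rw [pow_succ] at hG1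
      linear_combination (c' * 2 ^ e) * hG1 - 2 * e1 
    have h8 : c' * (P l0).coeff (d + 1) = 0 := by
      rcases mul_eq_zero.1 h7 with h | h
      · exact absurd h (mul_ne_zero (pow_ne_zero _ two_ne_zero) (pow_ne_zero _ two_ne_zero))
      · exact h
    rcases mul_eq_zero.1 h8 with h | h
    · exact h
    · exact absurd h hl0
  have hv1 : ∀ l, (Q l).coeff e = c * (P l).coeff d := by
    intro l
    have := hc' l
    rw [hc'0, zero_mul] at this
    linarith
  -- translations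
  obtain ⟨h1, h2⟩ := hG.coeff_trans hP 1 l0
  obtain ⟨h3, h4⟩ := hH.coeff_trans hQ 1 l0
  rw [hv1, hv1, hc, ← h1] at h4
  rw [← h1] at h2
  have h5 : (d : ℚ) = e := by
    have h6 : c * (P l0).coeff (d + 1) * ((d : ℚ) - e) = 0 := by
      linear_combination h4 - c * h2
    rcases mul_eq_zero.1 h6 with h | h
    · exact absurd h (mul_ne_zero hc0 hl0)
    · linarith
  have h6 : d = e := by exact_mod_cast h5
  exact ⟨h6, by omega, c, hc⟩

/-- **Commuting elements are proportional.** -/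
theorem centralizer {r s D E : ℕ} (hr : 1 ≤ r) (hs : 1 ≤ s) (hD : r < D) (hE : s < E) {G H : List ℚ → ℚ}
    (hG : Dih r D G) (hH : Dih s E H) (hG0 : ∃ z, G z ≠ 0) (hH0 : ∃ z, H z ≠ 0)
    (h : ∀ z, ihara r s G H z = 0) : r = s ∧ D = E ∧ ∃ c : ℚ, ∀ z, H z = c * G z := by
  obtain ⟨d, P, hd, hP, hP0⟩ := hG.lead (by omega) hG0
  obtain ⟨e, Q, he, hQ, hQ0⟩ := hH.lead (by omega) hH0
  have hrs : r = s := by
    by_contra hne
    have hNC := NC_of_alt hr hs hne (LD.supp' hP d) (LD.supp' hQ e) (hG.alt hP d) (hH.alt hQ e) hP0 hQ0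
    obtain ⟨l, hl, hne'⟩ := hNC
    exact hne' (comm_lead hr hs hd he hP hQ hG.supp hH.supp h l hl)
  subst hrs
  obtain ⟨d, rfl⟩ : ∃ d', d = d' + 1 := ⟨d - 1, by omega⟩
  obtain ⟨e, rfl⟩ : ∃ e', e = e' + 1 := ⟨e - 1, by omega⟩
  have hd2 := hG.two_le hD hG0 hP
  have he2 := hH.two_le hE hH0 hQ
  obtain ⟨hde, hDE, c, hc⟩ := same_depth hr hG hH (by omega) (by omega) hP hQ hP0 hQ0 h
  refine ⟨rfl, hDE, c, ?_⟩
  subst hde
  subst hDE
  by_contra hcon
  push Not at hcon
  obtain ⟨z0, hz0⟩ := hcon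
  -- the difference
  have hK : Dih r D (fun z => H z + (-c) * G z) := hH.lin hG (-c)
  have hK0 : ∃ z, (fun z => H z + (-c) * G z) z ≠ 0 := by
    refine ⟨z0, ?_⟩
    intro h0
    apply hz0
    have h0 : H z0 + (-c) * G z0 = 0 := h0
    linarith
  obtain ⟨f, T, hf, hT, hT0⟩ := hK.lead (by omega) hK0
  obtain ⟨f, rfl⟩ : ∃ f', f = f' + 1 := ⟨f - 1, by omega⟩
  have hf2 := hK.two_le hD hK0 hT
  have hKc : ∀ z, ihara r r G (fun z => H z + (-c) * G z) z = 0 := by
    intro z
    rw [ihara_lin, h, ihara_self, mul_zero, add_zero]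
  obtain ⟨hdf, -, -⟩ := same_depth hr hG hK (by omega) (by omega) hP hT hP0 hT0 hKc
  subst hdf
  obtain ⟨l, hl⟩ := hT0
  apply hl
  have h1 : T l = Q l + C (-c) * P l := by
    apply Polynomial.funext
    intro x
    rw [hT.ev, eval_add, eval_mul, eval_C, hQ.ev, hP.ev]
  rw [h1, coeff_add, coeff_C_mul, hc]
  ring

/-- **Free pairs.** -/
theorem free_of_depth (len D : Bool → ℕ) (hlen : ∀ c, 1 ≤ len c) (hD : ∀ c, 1 ≤ D c) (f : Bool → List ℚ → ℚ)
    (hf : ∀ c, Dih (len c) (D c) (f c)) (hf0 : ∀ c, ∃ z, f c z ≠ 0) (hne : len true ≠ len false)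
    (S : Set (Tree Bool)) (hS : LinearIndependent ℚ (fun T : S => com T.1)) :
    LinearIndependent ℚ (fun T : S => tev len f T.1) := by
  have h1 := fun c => (hf c).lead (hD c) (hf0 c)
  choose d P hd hP hP0 using h1
  have hNC := NC_of_alt (hlen true) (hlen false) hne (LD.supp' (hP true) _) (LD.supp' (hP false) _)
      ((hf true).alt (hP true) _) ((hf false).alt (hP false) _) (hP0 true) (hP0 false)
  exact free_core len d hlen hd f P hP (fun c => (hf c).supp)
    (fun R S lam h1 h2 => free2 _ len (fun c l => (P c l).coeff (d c)) rfl hlen hNC R S lam h1 h2) S hS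

end Pool.Agent.D0H20.DL
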