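import Pool.Agent.D0H20.DL.Rep

/-!
# The Lie algebra generated in depth one
-/

set_option autoImplicit false

namespace Pool.Agent.D0H20.DL

open Finset Pool.Agent.D0H20.BK

lemma Dih.zero (r D : ℕ) : Dih r D (0 : List ℚ → ℚ) := by
  constructor
  · intro z _; rfl
  · exact ⟨0, fun z _ => by simp⟩
  · intro a z; rfl
  · intro t z; simp
  · intro x l; rfl
  · intro x ys zs _ _ _
    exact shuf_zero _ ys zs rfl

/-- the space of the cyclic polynomials with the shuffle relations -/
def DihS (r D : ℕ) : Submodule ℚ (List ℚ → ℚ) where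
  carrier := {G | Dih r D G}
  zero_mem' := Dih.zero r D
  add_mem' := by
    intro G H hG hH
    have h := hG.lin hH 1
    simp only [one_mul] at h
    exact h
  smul_mem' := by
    intro c G hG
    have h := (Dih.zero r D).lin hG c
    simp only [Pi.zero_apply, zero_add] at h
    exact h

lemma mem_DihS (r D : ℕ) (G : List ℚ → ℚ) : G ∈ DihS r D ↔ Dih r D G := Iff.rfl

/-- the iterated bracket -/
def itb : List ℕ → List ℚ → ℚ
  | [] => 0
  | [b] => fa b
  | b :: b' :: u => ihara 1 (b' :: u).length (fa b) (itb (b' :: u))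

lemma itb_one (b : ℕ) : itb [b] = fa b := rfl

lemma itb_cons (b : ℕ) (u : List ℕ) (hu : u ≠ []) : itb (b :: u) = ihara 1 u.length (fa b) (itb u) := by
  match u, hu with
  | _ :: _, _ => rfl

lemma itb_Dih (u : List ℕ) (hu : u ≠ []) : Dih u.length (2 * u.sum) (itb u) := by
  induction u with
  | nil => exact absurd rfl hu
  | cons b u ih =>
    by_cases h : u = []
    · subst h
      have := Dih.one b
      simpa [itb_one] using this
    · have h1 := ih h
      have h2 : itb (b :: u) = adf b (itb u) := by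
        rw [itb_cons b u h]
        exact funext fun z => ihara_fa b u.length h1.supp z
      rw [h2]
      have h3 := h1.ad b
      rw [List.length_cons, List.sum_cons, show 2 * (b + u.sum) = 2 * u.sum + 2 * b by ring]
      exact h3

/-- `L_(r,n)` -/
def Ls (r n : ℕ) : Submodule ℚ (List ℚ → ℚ) :=
  Submodule.span ℚ {g | ∃ b : List ℕ, b.length = r ∧ b.sum = n ∧ (∀ x ∈ b, 1 ≤ x) ∧ g = itb b}

lemma Ls_le (r n : ℕ) (hr : 1 ≤ r) : Ls r n ≤ DihS r (2 * n) := by
  unfold Ls
  rw [Submodule.span_le]
  rintro g ⟨b, rfl, rfl, -, rfl⟩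
  exact itb_Dih b (by intro h; rw [h] at hr; simp at hr)

lemma act_add_right (r s : ℕ) (G H K : List ℚ → ℚ) : act r s G (H + K) = act r s G H + act r s G K := by
  have h := act_sub_right r s G (H + K) K
  rw [add_sub_cancel_right] at h
  rw [h]
  abel

lemma act_add_left (r s : ℕ) (G H K : List ℚ → ℚ) : act r s (G + H) K = act r s G K + act r s H K := by
  have h := act_sub_left r s (G + H) H K
  rw [add_sub_cancel_right] at h
  rw [h]
  abel

lemma act_zero_right (r s : ℕ) (G : List ℚ → ℚ) : act r s G 0 = 0 := by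
  have h := act_sub_right r s G 0 0
  simpa using h

lemma act_zero_left (r s : ℕ) (K : List ℚ → ℚ) : act r s 0 K = 0 := by
  have h := act_sub_left r s 0 0 K
  simpa using h

lemma act_smul_right (r s : ℕ) (c : ℚ) (G H : List ℚ → ℚ) : act r s G (c • H) = c • act r s G H := by
  funext z
  have h := act_lin r s G 0 H c z
  rw [act_zero_right] at h
  have h1 : (fun z => (0 : List ℚ → ℚ) z + c * H z) = c • H := by
    funext z
    simp
  rw [h1] at h
  simpa using h

lemma act_smul_left (r s : ℕ) (c : ℚ) (G H : List ℚ → ℚ) : act r s (c • G) H = c • act r s G H := by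
  funext z
  have h := act_lin' s r H 0 G c z
  rw [act_zero_left] at h
  have h1 : (fun z => (0 : List ℚ → ℚ) z + c * G z) = c • G := by
    funext z
    simp
  rw [h1] at h
  simpa using h

/-- the action as a linear map -/
def actR (r s : ℕ) (G : List ℚ → ℚ) : (List ℚ → ℚ) →ₗ[ℚ] (List ℚ → ℚ) where
  toFun H := act r s G H
  map_add' := act_add_right r s G
  map_smul' := fun c H => act_smul_right r s c G H

/-- the action as a linear map -/
def actL (r s : ℕ) (H : List ℚ → ℚ) : (List ℚ → ℚ) →ₗ[ℚ] (List ℚ → ℚ) where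
  toFun G := act r s G H
  map_add' := fun G G' => act_add_left r s G G' H
  map_smul' := fun c G => act_smul_left r s c G H

/-- the bracket as a linear map -/
def ihR (r s : ℕ) (G : List ℚ → ℚ) : (List ℚ → ℚ) →ₗ[ℚ] (List ℚ → ℚ) := actR r s G - actL s r G

/-- the bracket as a linear map -/
def ihL (r s : ℕ) (H : List ℚ → ℚ) : (List ℚ → ℚ) →ₗ[ℚ] (List ℚ → ℚ) := actL r s H - actR s r H

lemma ihR_apply (r s : ℕ) (G H : List ℚ → ℚ) : ihR r s G H = ihara r s G H := rfl
lemma ihL_apply (r s : ℕ) (G H : List ℚ → ℚ) : ihL r s H G = ihara r s G H := rfl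

lemma Ls_supp {r n : ℕ} (hr : 1 ≤ r) {g : List ℚ → ℚ} (hg : g ∈ Ls r n) : Supp (r + 1) g :=
  ((mem_DihS _ _ _).1 (Ls_le r n hr hg)).supp

lemma Ls_fa {a s m : ℕ} (ha : 1 ≤ a) (hs : 1 ≤ s) {h : List ℚ → ℚ} (hh : h ∈ Ls s m) :
    ihara 1 s (fa a) h ∈ Ls (1 + s) (a + m) := by
  have h1 : Ls s m ≤ (Ls (1 + s) (a + m)).comap (ihR 1 s (fa a)) := by
    unfold Ls
    rw [Submodule.span_le]
    rintro g ⟨b, rfl, rfl, hb, rfl⟩
    have hb0 : b ≠ [] := by intro h; rw [h] at hs; simp at hs
    show ihR 1 b.length (fa a) (itb b) ∈ Ls (1 + b.length) (a + b.sum)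
    rw [ihR_apply, ← itb_cons a b hb0]
    apply Submodule.subset_span
    refine ⟨a :: b, by rw [List.length_cons, add_comm], by rw [List.sum_cons], ?_, rfl⟩
    intro x hx
    rcases List.mem_cons.1 hx with rfl | hx
    · exact ha
    · exact hb x hx
  exact h1 hh

lemma rep_itb (u : List ℕ) (hu : u ≠ []) : RepAt u.length (itb u) := by
  induction u with
  | nil => exact absurd rfl hu
  | cons b u ih =>
    by_cases h : u = []
    · subst h
      exact rep_fa b
    · rw [itb_cons b u h, List.length_cons, add_comm]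
      exact RepAt.step b (List.length_pos_iff.2 h) (itb_Dih u h).supp (ih h)

/-- **closure under the bracket** -/
theorem Ls_bracket (u : List ℕ) (hu : u ≠ []) (hu1 : ∀ x ∈ u, 1 ≤ x) : ∀ (s m : ℕ) (_ : 1 ≤ s) (h : List ℚ → ℚ)
    (_ : h ∈ Ls s m), ihara u.length s (itb u) h ∈ Ls (u.length + s) (u.sum + m) := by
  induction u with
  | nil => exact absurd rfl hu
  | cons a u ih =>
    intro s m hs h hh
    by_cases hu0 : u = []
    · subst hu0
      have h1 := Ls_fa (a := a) (hu1 a (by simp)) hs hh
      simpa [itb_one] using h1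
    · have hpos : 1 ≤ u.length := List.length_pos_iff.2 hu0
      have ha : 1 ≤ a := hu1 a (by simp)
      have hu' : ∀ x ∈ u, 1 ≤ x := fun x hx => hu1 x (by simp [hx])
      have hih := ih hu0 hu'
      rw [itb_cons a u hu0, List.length_cons, List.sum_cons, show u.length + 1 = 1 + u.length by omega,
        jacobi a hpos hs (itb_Dih u hu0).supp (rep_itb u hu0) (Ls_supp hs hh)]
      apply Submodule.sub_mem
      · have h1 := Ls_fa (a := a) ha (by omega) (hih s m hs h hh)
        rw [← add_assoc, ← add_assoc] at h1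
        exact h1
      · have h1 := hih (1 + s) (a + m) (by omega) _ (Ls_fa ha hs hh)
        have e1 : u.length + (1 + s) = 1 + u.length + s := by omega
        have e2 : u.sum + (a + m) = a + u.sum + m := by omega
        rw [e1, e2] at h1
        exact h1

theorem Ls_closed {r n s m : ℕ} (hr : 1 ≤ r) (hs : 1 ≤ s) {g h : List ℚ → ℚ} (hg : g ∈ Ls r n) (hh : h ∈ Ls s m) :
    ihara r s g h ∈ Ls (r + s) (n + m) := by
  have h1 : Ls r n ≤ (Ls (r + s) (n + m)).comap (ihL r s h) := by
    conv_lhs => unfold Ls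
    rw [Submodule.span_le]
    rintro g ⟨b, rfl, rfl, hb, rfl⟩
    exact Ls_bracket b (by intro h; rw [h] at hr; simp at hr) hb s m hs h hh
  exact h1 hg

/-- the constant function in depth zero -/
def one0 : List ℚ → ℚ
  | [_] => 1
  | _ => 0

lemma one0_supp : Supp 1 one0 := by
  intro l hl
  match l, hl with
  | [], _ => rfl
  | _ :: _ :: _, _ => rfl
  | [x], hl => exact absurd rfl hl

/-- the iterated product -/
def prd : List ℕ → List ℚ → ℚ
  | [] => one0
  | b :: u => act 1 u.length (fa b) (prd u)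

lemma prd_supp (u : List ℕ) : Supp (u.length + 1) (prd u) := by
  induction u with
  | nil => exact one0_supp
  | cons b u ih =>
    have := act_supp (fa_supp b) ih
    rw [List.length_cons, add_comm u.length 1]
    exact this

/-- `U_(s,m)` -/
def Us (s m : ℕ) : Submodule ℚ (List ℚ → ℚ) :=
  Submodule.span ℚ {g | ∃ b : List ℕ, b.length = s ∧ b.sum = m ∧ (∀ x ∈ b, 1 ≤ x) ∧ g = prd b}

lemma Us_supp {s m : ℕ} {K : List ℚ → ℚ} (hK : K ∈ Us s m) : Supp (s + 1) K := by
  have h1 : ∀ K ∈ Us s m, Supp (s + 1) K := by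
    intro K hK
    unfold Us at hK
    induction hK using Submodule.span_induction with
    | mem x hx =>
      obtain ⟨b, rfl, -, -, rfl⟩ := hx
      exact prd_supp b
    | zero => intro z _; rfl
    | add x y _ _ hx hy => intro z hz; rw [Pi.add_apply, hx z hz, hy z hz, add_zero]
    | smul c x _ hx => intro z hz; rw [Pi.smul_apply, hx z hz, smul_zero]
  exact h1 K hK

lemma Us_fa {a s m : ℕ} (ha : 1 ≤ a) {K : List ℚ → ℚ} (hK : K ∈ Us s m) :
    act 1 s (fa a) K ∈ Us (1 + s) (a + m) := by
  have h1 : Us s m ≤ (Us (1 + s) (a + m)).comap (actR 1 s (fa a)) := by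
    unfold Us
    rw [Submodule.span_le]
    rintro g ⟨b, rfl, rfl, hb, rfl⟩
    show act 1 b.length (fa a) (prd b) ∈ Us (1 + b.length) (a + b.sum)
    apply Submodule.subset_span
    refine ⟨a :: b, by rw [List.length_cons, add_comm], by rw [List.sum_cons], ?_, rfl⟩
    intro x hx
    rcases List.mem_cons.1 hx with rfl | hx
    · exact ha
    · exact hb x hx
  exact h1 hK

theorem Us_act (u : List ℕ) (hu : u ≠ []) (hu1 : ∀ x ∈ u, 1 ≤ x) : ∀ (s m : ℕ) (K : List ℚ → ℚ)
    (_ : K ∈ Us s m), act u.length s (itb u) K ∈ Us (u.length + s) (u.sum + m) := by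
  induction u with
  | nil => exact absurd rfl hu
  | cons a u ih =>
    intro s m K hK
    by_cases hu0 : u = []
    · subst hu0
      have h1 := Us_fa (a := a) (hu1 a (by simp)) hK
      simpa [itb_one] using h1
    · have hpos : 1 ≤ u.length := List.length_pos_iff.2 hu0
      have ha : 1 ≤ a := hu1 a (by simp)
      have hu' : ∀ x ∈ u, 1 ≤ x := fun x hx => hu1 x (by simp [hx])
      have hih := ih hu0 hu'
      rw [itb_cons a u hu0, List.length_cons, List.sum_cons, show u.length + 1 = 1 + u.length by omega,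
        (rep_fa a).eq hpos (itb_Dih u hu0).supp (Us_supp hK)]
      apply Submodule.sub_mem
      · have h1 := Us_fa (a := a) ha (hih s m K hK)
        rw [← add_assoc, ← add_assoc] at h1
        exact h1
      · have h1 := hih (1 + s) (a + m) _ (Us_fa ha hK)
        have e1 : u.length + (1 + s) = 1 + u.length + s := by omega
        have e2 : u.sum + (a + m) = a + u.sum + m := by omega
        rw [e1, e2] at h1
        exact h1

theorem Us_closed {r n s m : ℕ} (hr : 1 ≤ r) {g K : List ℚ → ℚ} (hg : g ∈ Ls r n) (hK : K ∈ Us s m) :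
    act r s g K ∈ Us (r + s) (n + m) := by
  have h1 : Ls r n ≤ (Us (r + s) (n + m)).comap (actL r s K) := by
    conv_lhs => unfold Ls
    rw [Submodule.span_le]
    rintro g ⟨b, rfl, rfl, hb, rfl⟩
    exact Us_act b (by intro h; rw [h] at hr; simp at hr) hb s m K hK
  exact h1 hg

lemma words_finite (r n : ℕ) : {b : List ℕ | b.length = r ∧ b.sum = n}.Finite := by
  have h1 : {b : List ℕ | b.length = r ∧ b.sum = n} ⊆
      Set.range (fun f : Fin r → Fin (n + 1) => (List.ofFn f).map Fin.val) := by
    rintro b ⟨h1, h2⟩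
    have h3 : ∀ x ∈ b, x < n + 1 := fun x hx => by
      have := List.single_le_sum (l := b) (fun _ _ => Nat.zero_le _) x hx
      omega
    refine ⟨fun i => ⟨b[i.1]'(by rw [h1]; exact i.2), h3 _ (List.getElem_mem _)⟩, ?_⟩
    apply List.ext_getElem
    · simp [h1]
    · intro i h4 h5
      simp
  exact (Set.finite_range _).subset h1

instance Ls_finite (r n : ℕ) : Module.Finite ℚ (Ls r n) := by
  unfold Ls
  apply Module.Finite.span_of_finite
  apply Set.Finite.subset ((words_finite r n).image itb)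
  rintro g ⟨b, h1, h2, -, rfl⟩
  exact ⟨b, ⟨h1, h2⟩, rfl⟩

instance Us_finite (r n : ℕ) : Module.Finite ℚ (Us r n) := by
  unfold Us
  apply Module.Finite.span_of_finite
  apply Set.Finite.subset ((words_finite r n).image prd)
  rintro g ⟨b, h1, h2, -, rfl⟩
  exact ⟨b, ⟨h1, h2⟩, rfl⟩

end Pool.Agent.D0H20.DL
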