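import Pool.Agent.D0H20.DL.Clo

/-!
# Free operators
-/

set_option autoImplicit false

namespace Pool.Agent.D0H20.DL

open Finset Polynomial

/-- **The criterion.** -/
theorem abs_core {I J : Type*} (len : I → ℕ) (u : I → List ℚ → ℚ) (hfree : FreeFam len u) (R m : J → ℕ)
    (F : J → List ℚ → ℚ) (W : J → List ℚ → ℚ[X]) (hW : ∀ j, LD (R j) (m j) (F j) (W j)) (ep : J → ℚ)
    (hep : ∀ j, ep j ≠ 0) (p : J → (List I →₀ ℚ)) (hp : ∀ j, ∀ w ∈ (p j).support, wl len w = R j)
    (hlead : ∀ j (l : List ℚ), l.length = R j →
      (W j l).coeff (m j) = ep j * Finsupp.linearCombination ℚ (fun w => ew len u w l) (p j))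
    (hind : LinearIndependent ℚ p) : LinearIndependent ℚ F := by
  classical
  rw [linearIndependent_iff'] at hind ⊢
  intro s g hg
  by_contra hcon
  push Not at hcon
  obtain ⟨T0, hT0, hgT0⟩ := hcon
  set B : Finset J := s.filter (fun T => g T ≠ 0 ∧ R T = R T0) with hB
  have hBne : B.Nonempty := ⟨T0, by rw [hB, mem_filter]; exact ⟨hT0, hgT0, rfl⟩⟩
  obtain ⟨T1, hT1, hmax⟩ := B.exists_max_image m hBne
  have hT1' := hT1
  rw [hB, mem_filter] at hT1'
  have hpoly : ∀ l : List ℚ, ∑ T ∈ s, C (g T) * W T l = 0 := by
    intro l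
    apply Polynomial.funext
    intro x
    rw [eval_finsetSum, eval_zero]
    have h6 := congrFun hg (x :: l)
    rw [Finset.sum_apply] at h6
    refine Eq.trans ?_ h6
    apply sum_congr rfl
    intro T _
    rw [eval_mul, eval_C, (hW T).ev]
    rfl
  set G : Finset J := B.filter (fun T => m T = m T1) with hG
  have hGmem : ∀ T ∈ G, g T ≠ 0 ∧ R T = R T0 ∧ m T = m T1 ∧ T ∈ s := by
    intro T hT
    rw [hG, mem_filter, hB, mem_filter] at hT
    exact ⟨hT.1.2.1, hT.1.2.2, hT.2, hT.1.1⟩
  have hrel : ∀ l : List ℚ, l.length = R T0 → ∑ T ∈ G, (g T * ep T) *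
      Finsupp.linearCombination ℚ (fun w => ew len u w l) (p T) = 0 := by
    intro l hl
    have h6 := congrArg (fun p : ℚ[X] => p.coeff (m T1)) (hpoly l)
    simp only [finsetSum_coeff, coeff_C_mul, coeff_zero] at h6
    rw [← h6]
    have hGs : G ⊆ s := (filter_subset _ _).trans (filter_subset _ _)
    symm
    rw [← sum_subset hGs]
    · apply sum_congr rfl
      intro T hT
      obtain ⟨h1, h2, h3, h4⟩ := hGmem T hT
      rw [← h3, hlead T l (by rw [h2, hl])]
      ring
    · intro T hT hT'
      rw [hG, mem_filter, hB, mem_filter] at hT'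
      by_cases hgT : g T = 0
      · rw [hgT, zero_mul]
      · by_cases hlT : R T = R T0
        · have hlt : m T < m T1 := by
            have hTF : T ∈ B := by rw [hB, mem_filter]; exact ⟨hT, hgT, hlT⟩
            rcases lt_or_eq_of_le (hmax T hTF) with h | h
            · exact h
            · exact absurd ⟨⟨hT, hgT, hlT⟩, h⟩ hT'
          rw [coeff_eq_zero_of_natDegree_lt (lt_of_le_of_lt ((hW T).deg l) hlt), mul_zero]
        · rw [(hW T).supp l (by rw [hl]; exact fun h => hlT h.symm), coeff_zero, mul_zero]
  set q : List I →₀ ℚ := ∑ T ∈ G, (g T * ep T) • p T with hqdef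
  have hq0 : q = 0 := by
    have hsupp : ∀ w ∈ q.support, wl len w = R T0 := by
      intro w hw
      by_contra hne
      rw [Finsupp.mem_support_iff] at hw
      apply hw
      rw [hqdef, Finsupp.finsetSum_apply]
      apply sum_eq_zero
      intro T hT
      rw [Finsupp.smul_apply]
      have h7 : p T w = 0 := by
        by_contra h8
        apply hne
        rw [hp T w (by rw [Finsupp.mem_support_iff]; exact h8)]
        exact (hGmem T hT).2.1
      rw [h7, smul_zero]
    have hfree' := hfree (R T0) q.support q hsupp (by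
      intro l hl
      have h8 : Finsupp.linearCombination ℚ (fun w => ew len u w l) q = 0 := by
        rw [hqdef, map_sum, ← hrel l hl]
        apply sum_congr rfl
        intro T hT
        rw [map_smul, smul_eq_mul]
      rw [lc_sum] at h8
      simpa only [smul_eq_mul] using h8)
    ext w
    by_contra h9
    exact h9 (hfree' w (by rw [Finsupp.mem_support_iff]; exact h9))
  have hfin := hind G (fun T => g T * ep T) hq0 T1 (by rw [hG, mem_filter]; exact ⟨hT1, rfl⟩)
  exact (mul_ne_zero hT1'.2.1 (hep _)) hfin

/-- the product of a word, applied to `K` in depth `t` -/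
def wop {I : Type*} (len : I → ℕ) (f : I → List ℚ → ℚ) (t : ℕ) (K : List ℚ → ℚ) : List I → List ℚ → ℚ
  | [] => K
  | i :: w => act (len i) (wl len w + t) (f i) (wop len f t K w)

lemma wop_cons {I : Type*} (len : I → ℕ) (f : I → List ℚ → ℚ) (t : ℕ) (K : List ℚ → ℚ) (i : I) (w : List I) :
    wop len f t K (i :: w) = act (len i) (wl len w + t) (f i) (wop len f t K w) := rfl

lemma act_one (r : ℕ) {G : List ℚ → ℚ} (hG : Supp (r + 1) G) : act r 0 G one0 = G := by
  funext z
  unfold act
  rw [sum_range_one, sum_range_zero, sub_zero, List.drop_zero, List.take_zero, List.nil_append, Nat.zero_add]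
  by_cases hz : z.length = r + 1
  · obtain ⟨x, hx⟩ : ∃ x, z.drop r = [x] := by
      apply List.length_eq_one_iff.1
      rw [List.length_drop]
      omega
    rw [hx, List.take_of_length_le (by omega)]
    show G z * 1 = G z
    rw [mul_one]
  · rw [hG z hz, one0_supp (z.drop r) (by rw [List.length_drop]; omega), mul_zero]

lemma wop_supp {I : Type*} (len : I → ℕ) (f : I → List ℚ → ℚ) (hf : ∀ i, Supp (len i + 1) (f i)) (t : ℕ)
    {K : List ℚ → ℚ} (hK : Supp (t + 1) K) (w : List I) : Supp (wl len w + t + 1) (wop len f t K w) := by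
  induction w with
  | nil => rw [wl_nil, Nat.zero_add]; exact hK
  | cons i w ih =>
    rw [wl_cons, wop_cons, add_assoc (len i)]
    exact act_supp (hf i) ih

/-- the sign of a product -/
def sw (n : ℕ) : ℚ := (-1) ^ n

/-- the leading coefficient of the product of a word -/
lemma wop_lead {I : Type*} (len d : I → ℕ) (hlen : ∀ c, 1 ≤ len c) (hd : ∀ c, 1 ≤ d c) (f : I → List ℚ → ℚ)
    (P : I → List ℚ → ℚ[X]) (hP : ∀ c, LD (len c) (d c) (f c) (P c)) (hf : ∀ c, Supp (len c + 1) (f c))
    (w : List I) (hw : w ≠ []) : 1 ≤ wl len w ∧ 1 ≤ wl d w ∧ ∃ W : List ℚ → ℚ[X],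
      LD (wl len w) (wl d w) (wop len f 0 one0 w) W ∧ ∀ l : List ℚ, l.length = wl len w →
        (W l).coeff (wl d w) = (-1) ^ (w.length + 1) * ew len (fun c l => (P c l).coeff (d c)) w l := by
  induction w with
  | nil => exact absurd rfl hw
  | cons i w ih =>
    by_cases hw0 : w = []
    · subst hw0
      refine ⟨by rw [wl_cons, wl_nil]; exact hlen i, by rw [wl_cons, wl_nil]; exact hd i, P i, ?_, ?_⟩
      · rw [wl_cons, wl_nil, wl_cons, wl_nil, wop_cons, wl_nil]
        have h1 : act (len i) (0 + 0) (f i) (wop len f 0 one0 []) = f i := act_one (len i) (hf i)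
        rw [h1]
        exact hP i
      · intro l hl
        rw [wl_cons, wl_nil, add_zero] at hl ⊢
        rw [ew_cons, List.take_of_length_le (by omega)]
        simp [ew]
    · obtain ⟨h1, h2, Q, h3, h4⟩ := ih hw0
      obtain ⟨W, hW1, hW2⟩ := act_LD (hlen i) h1 (hP i) h3
      have hdi := hd i
      have hmax : max (d i) (wl d w) < d i + wl d w := by omega
      refine ⟨by rw [wl_cons]; omega, by rw [wl_cons]; omega, W, ⟨?_, ?_, ?_⟩, ?_⟩
      · intro l
        rw [wl_cons]
        have e1 : W l = (W l + P i (l.take (len i)) * Q (l.drop (len i))) -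
            P i (l.take (len i)) * Q (l.drop (len i)) := by ring
        rw [e1]
        refine (natDegree_sub_le _ _).trans (max_le ((hW2 l).trans hmax.le) ?_)
        exact natDegree_mul_le.trans (add_le_add ((hP i).deg _) (h3.deg _))
      · intro x l
        rw [hW1, wop_cons, add_zero]
      · intro l hl
        apply Polynomial.funext
        intro x
        rw [hW1, eval_zero]
        have h5 := wop_supp len f hf 0 one0_supp w
        rw [add_zero] at h5
        apply act_supp (hf i) h5
        rw [wl_cons] at hl
        rw [List.length_cons]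
        omega
      · intro l hl
        rw [wl_cons] at hl ⊢
        have h5 : (W l + P i (l.take (len i)) * Q (l.drop (len i))).coeff (d i + wl d w) = 0 :=
          coeff_eq_zero_of_natDegree_lt (lt_of_le_of_lt (hW2 l) hmax)
        rw [coeff_add, coeff_mul_add_eq_of_natDegree_le ((hP i).deg _) (h3.deg _),
          h4 _ (by rw [List.length_drop]; omega)] at h5
        rw [ew_cons, List.length_cons, pow_succ]
        linarith

/-- **Free operators.** All products of words are linearly independent. -/
theorem free_words {I : Type*} (len d : I → ℕ) (hlen : ∀ c, 1 ≤ len c) (hd : ∀ c, 1 ≤ d c) (f : I → List ℚ → ℚ)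
    (P : I → List ℚ → ℚ[X]) (hP : ∀ c, LD (len c) (d c) (f c) (P c)) (hf : ∀ c, Supp (len c + 1) (f c))
    (hfree : FreeFam len (fun c l => (P c l).coeff (d c))) :
    LinearIndependent ℚ (fun w : List I => wop len f 0 one0 w) := by
  classical
  have h1 := fun w : {w : List I // w ≠ []} => wop_lead len d hlen hd f P hP hf w.1 w.2
  choose h2 h3 W hW hlead using h1
  have hne : LinearIndependent ℚ (fun w : {w : List I // w ≠ []} => wop len f 0 one0 w.1) := by
    apply abs_core len (fun c l => (P c l).coeff (d c)) hfree (fun w : {w : List I // w ≠ []} => wl len w.1)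
      (fun w => wl d w.1) _ W hW (fun w => (-1) ^ (w.1.length + 1)) (fun w => pow_ne_zero _ (by norm_num))
      (fun w => Finsupp.single w.1 1)
    · intro w v hv
      have := Finsupp.support_single_subset hv
      rw [mem_singleton] at this
      rw [this]
    · intro w l hl
      rw [hlead w l hl, Finsupp.linearCombination_single, one_smul]
    · have h4 : LinearIndependent ℚ (fun w : List I => (Finsupp.single w (1 : ℚ) : List I →₀ ℚ)) :=
        Finsupp.linearIndependent_single_one ℚ (List I)
      exact h4.comp Subtype.val Subtype.val_injective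
  -- the empty word
  rw [linearIndependent_iff'] at hne ⊢
  intro s g hg
  have hnil : [] ∈ s → g [] = 0 := by
    intro h5
    have h6 := congrFun hg [0]
    rw [Finset.sum_apply, sum_eq_single_of_mem [] h5] at h6
    · simpa [wop, one0] using h6
    · intro w _ hw
      rw [Pi.smul_apply, wop_supp len f hf 0 one0_supp w [0], smul_zero]
      have := (wop_lead len d hlen hd f P hP hf w hw).1
      simp only [List.length_cons, List.length_nil]
      omega
  intro w hw
  by_cases hw0 : w = []
  · rw [hw0] at hw ⊢
    exact hnil hw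
  · have h7 := hne (s.subtype (fun w => w ≠ [])) (fun w => g w.1) (by
      have h8 : ∑ w ∈ s.subtype (fun w => w ≠ []), g w.1 • wop len f 0 one0 w.1 =
          ∑ w ∈ s with w ≠ [], g w • wop len f 0 one0 w := by
        rw [← Finset.sum_subtype_eq_sum_filter]
      rw [h8]
      refine Eq.trans ?_ hg
      apply sum_subset (filter_subset _ _)
      intro v hv hv'
      rw [mem_filter, not_and, not_not] at hv'
      have := hv' hv
      rw [this] at hv ⊢
      rw [hnil hv, zero_smul])
    exact h7 ⟨w, hw0⟩ (by rw [mem_subtype]; exact hw)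

end Pool.Agent.D0H20.DL
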