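import Pool.Agent.D0H20.DL.Tree

/-!
# Cyclic polynomials with the shuffle relations: centralizers and free pairs
-/

set_option autoImplicit false

namespace Pool.Agent.D0H20.DL

open Finset Polynomial

/-- homogeneous translation invariant cyclic polynomials of degree `D` in `r + 1` points which satisfy the shuffle
relations -/
structure Dih (r D : ℕ) (G : List ℚ → ℚ) : Prop where
  supp : Supp (r + 1) G
  poly : ∃ p : MvPolynomial ℕ ℚ, ∀ z : List ℚ, z.length = r + 1 → G z = MvPolynomial.eval (fun i => z.getD i 0) p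
  trans : ∀ (a : ℚ) (z : List ℚ), G (z.map (fun x => x + a)) = G z
  hom : ∀ (t : ℚ) (z : List ℚ), G (z.map (fun x => t * x)) = t ^ D * G z
  cyc : ∀ (x : ℚ) (l : List ℚ), G (l ++ [x]) = G (x :: l)
  shuf : ∀ (x : ℚ) (ys zs : List ℚ), ys ≠ [] → zs ≠ [] → ys.length + zs.length = r →
    shuf ys zs (fun l => G (x :: l)) = 0

lemma shuf_lin {A : Type*} (c : ℚ) (n : ℕ) (ys zs : List A) (_ : ys.length + zs.length = n) (G H : List A → ℚ) :
    shuf ys zs (fun l => G l + c * H l) = shuf ys zs G + c * shuf ys zs H := by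
  rw [← shuf_mul]
  have key : ∀ (n : ℕ) (ys zs : List A) (_ : ys.length + zs.length = n) (G H : List A → ℚ),
      shuf ys zs (fun l => G l + H l) = shuf ys zs G + shuf ys zs H := by
    intro n
    induction n using Nat.strong_induction_on with
    | _ n ih =>
    intro ys zs h G H
    match ys, zs, h with
    | [], zs, _ => simp
    | y :: ys, [], _ => simp
    | y :: ys, z :: zs, h =>
      simp only [List.length_cons] at h
      rw [shuf_cons_cons, shuf_cons_cons, shuf_cons_cons,
        ih (n - 1) (by omega) ys (z :: zs) (by simp; omega) (fun l => G (y :: l)) (fun l => H (y :: l)),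
        ih (n - 1) (by omega) (y :: ys) zs (by simp; omega) (fun l => G (z :: l)) (fun l => H (z :: l))]
      ring
  exact key _ ys zs rfl G (fun l => c * H l)

lemma Dih.lin {r D : ℕ} {G H : List ℚ → ℚ} (hG : Dih r D G) (hH : Dih r D H) (c : ℚ) :
    Dih r D (fun z => G z + c * H z) := by
  constructor
  · intro z hz
    show G z + c * H z = 0
    rw [hG.supp z hz, hH.supp z hz, mul_zero, add_zero]
  · obtain ⟨p, hp⟩ := hG.poly
    obtain ⟨q, hq⟩ := hH.poly
    refine ⟨p + MvPolynomial.C c * q, fun z hz => ?_⟩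
    rw [hp z hz, hq z hz, map_add, map_mul, MvPolynomial.eval_C]
  · intro a z
    rw [hG.trans, hH.trans]
  · intro t z
    rw [hG.hom, hH.hom]
    ring
  · intro x l
    rw [hG.cyc, hH.cyc]
  · intro x ys zs h1 h2 h3
    rw [shuf_lin c _ ys zs h3 (fun l => G (x :: l)) (fun l => H (x :: l)), hG.shuf x ys zs h1 h2 h3,
      hH.shuf x ys zs h1 h2 h3, mul_zero, add_zero]

/-- polynomial in the first point -/
lemma Dih.LD {r D : ℕ} {G : List ℚ → ℚ} (hG : Dih r D G) : ∃ (N : ℕ) (P : List ℚ → ℚ[X]), DL.LD r N G P := by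
  classical
  obtain ⟨p, hp⟩ := hG.poly
  refine ⟨p.totalDegree, fun l => if l.length = r then
    MvPolynomial.aeval (fun i : ℕ => if i = 0 then (X : ℚ[X]) else C (l.getD (i - 1) 0)) p else 0, ?_, ?_, ?_⟩
  · intro l
    split_ifs
    · have := MvPolynomial.aeval_natDegree_le (n := 1) p le_rfl
        (fun i : ℕ => if i = 0 then (X : ℚ[X]) else C (l.getD (i - 1) 0)) (by
          intro i
          split_ifs
          · exact natDegree_X_le
          · rw [natDegree_C]; omega)
      rwa [mul_one] at this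
    · simp
  · intro x l
    split_ifs with hl
    · rw [hp (x :: l) (by rw [List.length_cons, hl]), ← Polynomial.coe_aeval_eq_eval,
        MvPolynomial.comp_aeval_apply]
      have h9 : ∀ f : ℕ → ℚ, MvPolynomial.aeval f p = MvPolynomial.eval f p := fun f => by
        rw [MvPolynomial.aeval_def]
        rfl
      rw [h9]
      congr 1
      congr 1
      funext i
      cases i with
      | zero => simp
      | succ i => simp
    · rw [eval_zero, hG.supp]
      rw [List.length_cons]
      omega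
  · intro l hl
    rw [if_neg hl]

/-- a function which does not depend on the first point -/
lemma Dih.const {r D : ℕ} {G : List ℚ → ℚ} (hG : Dih r D G) (hD : 1 ≤ D)
    (h : ∀ x l, G (x :: l) = G (0 :: l)) (z : List ℚ) : G z = 0 := by
  have key : ∀ k, ∀ z : List ℚ, k ≤ z.length → G z = G (z.drop k ++ List.replicate k 0) := by
    intro k
    induction k with
    | zero => intro z _; simp
    | succ k ih =>
      intro z hz
      rw [ih z (by omega)]
      have h1 : z.drop k = z[k] :: z.drop (k + 1) := List.drop_eq_getElem_cons (by omega)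
      rw [h1, List.cons_append, h, ← hG.cyc, List.append_assoc]
      congr 2
      rw [List.replicate_succ']
  have h1 := hG.hom 0 (List.replicate z.length (0 : ℚ))
  rw [zero_pow (by omega), zero_mul, List.map_replicate, mul_zero] at h1
  rw [key z.length z le_rfl, List.drop_length, List.nil_append, h1]

/-- **the leading coefficient** -/
lemma Dih.lead {r D : ℕ} {G : List ℚ → ℚ} (hG : Dih r D G) (hD : 1 ≤ D) (h0 : ∃ z, G z ≠ 0) :
    ∃ (d : ℕ) (P : List ℚ → ℚ[X]), 1 ≤ d ∧ DL.LD r d G P ∧ ∃ l, (P l).coeff d ≠ 0 := by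
  classical
  obtain ⟨N, P, hP⟩ := hG.LD
  have hex : ∃ n, ∀ l, (P l).natDegree ≤ n := ⟨N, hP.deg⟩
  set d := Nat.find hex with hd
  have hd1 : ∀ l, (P l).natDegree ≤ d := Nat.find_spec hex
  have hd0 : d ≠ 0 := by
    intro h
    obtain ⟨z, hz⟩ := h0
    apply hz
    apply hG.const hD
    intro x l
    have h1 := eq_C_of_natDegree_le_zero (by have := hd1 l; rwa [h] at this)
    rw [← hP.ev, ← hP.ev, h1, eval_C, eval_C]
  refine ⟨d, P, by omega, ⟨hd1, hP.ev, hP.supp⟩, ?_⟩
  have h1 := Nat.find_min hex (m := d - 1) (by omega)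
  push Not at h1
  obtain ⟨l, hl⟩ := h1
  have h2 : (P l).natDegree = d := by
    have := hd1 l
    omega
  refine ⟨l, ?_⟩
  rw [← h2]
  intro h3
  have h4 : P l = 0 := leadingCoeff_eq_zero.1 h3
  rw [h4, natDegree_zero] at h2
  omega

lemma LD.supp' {r d : ℕ} {G : List ℚ → ℚ} {P : List ℚ → ℚ[X]} (hP : DL.LD r d G P) (k : ℕ) :
    Supp r (fun l => (P l).coeff k) := by
  intro l hl
  show (P l).coeff k = 0
  rw [hP.supp l hl, coeff_zero]

lemma Dih.alt {r D : ℕ} {G : List ℚ → ℚ} (hG : Dih r D G) {d : ℕ} {P : List ℚ → ℚ[X]} (hP : DL.LD r d G P) (k : ℕ) :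
    Alt r (fun l => (P l).coeff k) := by
  intro ys zs h1 h2 h3
  have h4 : DL.shuf ys zs P = 0 := by
    apply Polynomial.funext
    intro x
    have h5 := shuf_map (Polynomial.evalRingHom x).toAddMonoidHom _ ys zs rfl P
    have h6 : (Polynomial.evalRingHom x).toAddMonoidHom (DL.shuf ys zs P) = (DL.shuf ys zs P).eval x := rfl
    rw [← h6, h5, eval_zero, ← hG.shuf x ys zs h1 h2 h3]
    congr 1
    funext l
    exact hP.ev x l
  have h5 := shuf_map (Polynomial.lcoeff ℚ k).toAddMonoidHom _ ys zs rfl P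
  have h6 : (Polynomial.lcoeff ℚ k).toAddMonoidHom (DL.shuf ys zs P) = (DL.shuf ys zs P).coeff k := rfl
  rw [h6, h4, coeff_zero] at h5
  exact h5.symm

lemma Dih.coeff_hom {r D : ℕ} {G : List ℚ → ℚ} (hG : Dih r D G) {d : ℕ} {P : List ℚ → ℚ[X]} (hP : DL.LD r d G P)
    (t : ℚ) (l : List ℚ) (k : ℕ) :
    (P (l.map (fun x => t * x))).coeff k * t ^ k = t ^ D * (P l).coeff k := by
  have h1 : (P (l.map (fun x => t * x))).comp (C t * X) = C (t ^ D) * P l := by
    apply Polynomial.funext
    intro x
    rw [eval_comp, eval_mul, eval_mul, eval_C, eval_X, eval_C, hP.ev, hP.ev, ← hG.hom, List.map_cons]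
  have h2 := congrArg (fun p : ℚ[X] => p.coeff k) h1
  simp only [comp_C_mul_X_coeff, coeff_C_mul] at h2
  exact h2

lemma coeff_shift (a : ℚ) (d : ℕ) (p : ℚ[X]) (hp : p.natDegree ≤ d + 1) :
    (p.comp (X + C a)).coeff (d + 1) = p.coeff (d + 1) ∧
    (p.comp (X + C a)).coeff d = p.coeff d + (d + 1) * a * p.coeff (d + 1) := by
  have h1 : p.comp (X + C a) = ∑ i ∈ range (d + 2), C (p.coeff i) * (X + C a) ^ i := by
    conv_lhs => rw [p.as_sum_range_C_mul_X_pow' (by omega : p.natDegree < d + 2)]
    rw [← Polynomial.coe_compRingHom_apply, map_sum]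
    apply sum_congr rfl
    intro i _
    rw [Polynomial.coe_compRingHom_apply, mul_comp, C_comp, X_pow_comp]
  constructor
  · rw [h1, finsetSum_coeff, sum_range_succ, sum_eq_zero, zero_add, coeff_C_mul, coeff_X_add_C_pow]
    · simp
    · intro i hi
      rw [mem_range] at hi
      rw [coeff_C_mul, coeff_X_add_C_pow, Nat.choose_eq_zero_of_lt (by omega), Nat.cast_zero, mul_zero, mul_zero]
  · rw [h1, finsetSum_coeff, sum_range_succ, sum_range_succ, sum_eq_zero, zero_add, coeff_C_mul, coeff_C_mul,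
      coeff_X_add_C_pow, coeff_X_add_C_pow]
    · simp
      ring
    · intro i hi
      rw [mem_range] at hi
      rw [coeff_C_mul, coeff_X_add_C_pow, Nat.choose_eq_zero_of_lt (by omega), Nat.cast_zero, mul_zero, mul_zero]

lemma Dih.coeff_trans {r D : ℕ} {G : List ℚ → ℚ} (hG : Dih r D G) {d : ℕ} {P : List ℚ → ℚ[X]}
    (hP : DL.LD r (d + 1) G P) (a : ℚ) (l : List ℚ) :
    (P l).coeff (d + 1) = (P (l.map (fun x => x + a))).coeff (d + 1) ∧
    (P l).coeff d = (P (l.map (fun x => x + a))).coeff d +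
      (d + 1) * a * (P (l.map (fun x => x + a))).coeff (d + 1) := by
  have h1 : (P (l.map (fun x => x + a))).comp (X + C a) = P l := by
    apply Polynomial.funext
    intro x
    rw [eval_comp, eval_add, eval_X, eval_C, hP.ev, hP.ev, ← hG.trans a (x :: l), List.map_cons]
  have h2 := coeff_shift a d _ (hP.deg (l.map (fun x => x + a)))
  rw [h1] at h2
  exact h2

/-- degree one in the first point is impossible for large degree -/
lemma Dih.two_le {r D : ℕ} {G : List ℚ → ℚ} (hG : Dih r D G) (hD : r < D) (h0 : ∃ z, G z ≠ 0) {d : ℕ}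
    {P : List ℚ → ℚ[X]} (hP : DL.LD r d G P) : 2 ≤ d := by
  by_contra hcon
  have hd : d ≤ 1 := by omega
  have haff : ∀ x l, G (x :: l) = (1 - x) * G (0 :: l) + x * G (1 :: l) := by
    intro x l
    have h1 : (P l).natDegree ≤ 1 := (hP.deg l).trans hd
    have h2 := exists_eq_X_add_C_of_natDegree_le_one h1
    obtain ⟨a, b, h3⟩ := h2
    rw [← hP.ev, ← hP.ev, ← hP.ev, h3]
    simp only [eval_add, eval_mul, eval_C, eval_X]
    ring
  have key : ∀ A B : List ℚ, ∃ p : ℚ[X], p.natDegree ≤ A.length ∧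
      ∀ t : ℚ, G (A.map (fun x => t * x) ++ B) = p.eval t := by
    intro A
    induction A with
    | nil => intro B; exact ⟨C (G B), by rw [natDegree_C]; simp, fun t => by simp⟩
    | cons a A ih =>
      intro B
      obtain ⟨p0, h1, h2⟩ := ih (B ++ [0])
      obtain ⟨p1, h3, h4⟩ := ih (B ++ [1])
      refine ⟨(1 - C a * X) * p0 + C a * X * p1, ?_, ?_⟩
      · rw [List.length_cons]
        have hCX : (C a * X : ℚ[X]).natDegree ≤ 1 := (natDegree_C_mul_le _ _).trans natDegree_X_le
        have e1 : (1 - C a * X : ℚ[X]).natDegree ≤ 1 :=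
          (natDegree_sub_le _ _).trans (max_le (by simp) hCX)
        have e2 : (C a * X : ℚ[X]).natDegree ≤ 1 := hCX
        refine (natDegree_add_le _ _).trans (max_le (natDegree_mul_le.trans ?_) (natDegree_mul_le.trans ?_))
        · omega
        · omega
      · intro t
        rw [List.map_cons, List.cons_append, haff, ← hG.cyc, ← hG.cyc, List.append_assoc, List.append_assoc, h2, h4]
        simp only [eval_add, eval_mul, eval_sub, eval_one, eval_C, eval_X]
        ring
  have hz : ∀ A : List ℚ, G (A ++ [0]) = 0 := by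
    intro A
    by_cases hA : A.length = r
    · obtain ⟨p, h1, h2⟩ := key A [0]
      have h3 : p = C (G (A ++ [0])) * X ^ D := by
        apply Polynomial.funext
        intro t
        rw [← h2, eval_mul, eval_C, eval_pow, eval_X, mul_comm, ← hG.hom, List.map_append]
        simp
      by_contra h4
      rw [h3, natDegree_C_mul_X_pow _ _ h4] at h1
      omega
    · exact hG.supp _ (by rw [List.length_append]; simpa using hA)
  obtain ⟨z, hz'⟩ := h0
  apply hz'
  rcases List.eq_nil_or_concat z with rfl | ⟨A, x, rfl⟩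
  · exact hG.supp _ (by simp)
  · rw [List.concat_eq_append, ← hG.trans (-x), List.map_append]
    have := hz (A.map (fun y => y + -x))
    simpa using this

/-- the leading coefficients of commuting elements commute -/
lemma comm_lead {r s d e : ℕ} (hr : 1 ≤ r) (hs : 1 ≤ s) (hd : 1 ≤ d) (he : 1 ≤ e) {G H : List ℚ → ℚ}
    {P Q : List ℚ → ℚ[X]} (hP : DL.LD r d G P) (hQ : DL.LD s e H Q) (sG : Supp (r + 1) G) (sH : Supp (s + 1) H)
    (h : ∀ z, ihara r s G H z = 0) : Comm r s (fun l => (P l).coeff d) (fun l => (Q l).coeff e) := by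
  obtain ⟨W, hW, hW2⟩ := ihara_LD hr hs hd he hP hQ sG sH
  intro l _
  have h1 := ihara_coeff hd he hP.deg hQ.deg hW2 l
  have h2 : W l = 0 := by
    apply Polynomial.funext
    intro x
    rw [hW.ev, h, eval_zero]
  rw [h2, coeff_zero] at h1
  show (P (l.take r)).coeff d * (Q (l.drop r)).coeff e = (Q (l.take s)).coeff e * (P (l.drop s)).coeff d
  linarith

lemma comm_second {r s d e : ℕ} (hr : 1 ≤ r) (hs : 1 ≤ s) (hd : 1 ≤ d) (he : 1 ≤ e) {G H : List ℚ → ℚ}
    {P Q : List ℚ → ℚ[X]} (hP : DL.LD r (d + 1) G P) (hQ : DL.LD s (e + 1) H Q) (sG : Supp (r + 1) G)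
    (sH : Supp (s + 1) H) (h : ∀ z, ihara r s G H z = 0) (l : List ℚ) :
    (Q (l.take s)).coeff (e + 1) * (P (l.drop s)).coeff d + (Q (l.take s)).coeff e * (P (l.drop s)).coeff (d + 1) =
    (P (l.take r)).coeff (d + 1) * (Q (l.drop r)).coeff e + (P (l.take r)).coeff d * (Q (l.drop r)).coeff (e + 1) := by
  obtain ⟨W, hW, hW2⟩ := ihara_LD hr hs (by omega) (by omega) hP hQ sG sH
  have h1 := ihara_coeff' hd he hP.deg hQ.deg hW2 l
  have h2 : W l = 0 := by
    apply Polynomial.funext
    intro x
    rw [hW.ev, h, eval_zero]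
  rw [h2, coeff_zero] at h1
  linarith

end Pool.Agent.D0H20.DL
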