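import Pool.Agent.D0H20.DL.Fam

/-!
# Dimensions
-/

set_option autoImplicit false

namespace Pool.Agent.D0H20.DL

open Finset Polynomial

/-! ### the nested brackets -/

/-- the nested monomial -/
def nest {I : Type*} (c : I) : List I → Tree I
  | [] => .leaf c
  | i :: w => .node (.leaf i) (nest c w)

lemma mulM_left {I : Type*} [DecidableEq I] (i : I) (q : List I →₀ ℚ) (x : List I) :
    mulM (Finsupp.single [i] 1) q x = match x with
      | [] => 0
      | j :: x' => if i = j then q x' else 0 := by
  classical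
  unfold mulM
  rw [Finsupp.sum_single_index (by simp)]
  unfold Finsupp.sum
  rw [Finsupp.finsetSum_apply]
  match x with
  | [] =>
    apply sum_eq_zero
    intro w _
    rw [Finsupp.single_apply, if_neg (by simp)]
  | j :: x' =>
    by_cases hij : i = j
    · subst hij
      simp only [if_true, one_mul]
      by_cases hx : x' ∈ q.support
      · rw [sum_eq_single_of_mem x' hx]
        · rw [Finsupp.single_apply, if_pos (by simp)]
        · intro w _ hw
          rw [Finsupp.single_apply, if_neg (by simpa using hw)]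
      · rw [Finsupp.mem_support_iff, not_not] at hx
        rw [hx]
        apply sum_eq_zero
        intro w hw
        rw [Finsupp.single_apply, if_neg]
        intro h
        have h1 : w = x' := by simpa using h
        rw [h1, Finsupp.mem_support_iff] at hw
        exact hw hx
    · show _ = if i = j then q x' else 0
      rw [if_neg hij]
      apply sum_eq_zero
      intro w _
      rw [Finsupp.single_apply, if_neg]
      intro h
      have : i = j ∧ w = x' := by simpa using h
      exact hij this.1

lemma mulM_right {I : Type*} [DecidableEq I] (i : I) (q : List I →₀ ℚ) (x : List I) (j : I) :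
    mulM q (Finsupp.single [i] 1) (x ++ [j]) = if i = j then q x else 0 := by
  classical
  unfold mulM
  have h1 : ∀ (v : List I) (c : ℚ), ((Finsupp.single [i] (1 : ℚ)).sum fun w d => Finsupp.single (v ++ w) (c * d)) =
      Finsupp.single (v ++ [i]) c := by
    intro v c
    rw [Finsupp.sum_single_index (by simp), mul_one]
  simp only [h1]
  unfold Finsupp.sum
  rw [Finsupp.finsetSum_apply]
  by_cases hij : i = j
  · subst hij
    rw [if_pos rfl]
    by_cases hx : x ∈ q.support
    · rw [sum_eq_single_of_mem x hx]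
      · rw [Finsupp.single_apply, if_pos rfl]
      · intro w _ hw
        rw [Finsupp.single_apply, if_neg]
        intro h
        exact hw (List.append_cancel_right h)
    · rw [Finsupp.mem_support_iff, not_not] at hx
      rw [hx]
      apply sum_eq_zero
      intro w hw
      rw [Finsupp.single_apply, if_neg]
      intro h
      have h1 : w = x := List.append_cancel_right h
      rw [h1, Finsupp.mem_support_iff] at hw
      exact hw hx
  · rw [if_neg hij]
    apply sum_eq_zero
    intro w _
    rw [Finsupp.single_apply, if_neg]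
    intro h
    have h2 := List.append_inj' h rfl
    exact hij (by simpa using h2.2)

lemma nest_mem {I : Type*} (c : I) (w : List I) : ∀ x ∈ (cf (nest c w)).support, c ∈ x := by
  classical
  induction w with
  | nil =>
    intro x hx
    have := Finsupp.support_single_subset hx
    rw [mem_singleton] at this
    rw [this]
    simp
  | cons i w ih =>
    intro x hx
    have hx' := Finsupp.support_sub hx
    rw [mem_union] at hx'
    rcases hx' with h | h
    · obtain ⟨v, _, v', hv', rfl⟩ := mulM_supp _ _ x h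
      exact List.mem_append_right _ (ih v' hv')
    · obtain ⟨v, hv, v', _, rfl⟩ := mulM_supp _ _ x h
      exact List.mem_append_left _ (ih v hv)

lemma nest_coeff {I : Type*} [LinearOrder I] (c : I) (w : List I) : (∀ i ∈ w, i < c) → ∀ (c' : I) (w' : List I),
    (∀ i ∈ w', i < c') → cf (nest c w) (w' ++ [c']) = if w = w' ∧ c = c' then 1 else 0 := by
  classical
  induction w with
  | nil =>
    intro _ c' w' _
    show Finsupp.single [c] (1 : ℚ) (w' ++ [c']) = _
    rw [Finsupp.single_apply]
    cases w' with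
    | nil => simp
    | cons j w' =>
      rw [if_neg, if_neg]
      · simp
      · intro h
        have := congrArg List.length h
        simp at this
  | cons i w ih =>
    intro hw c' w' hw'
    have hwc : ∀ j ∈ w, j < c := fun j hj => hw j (by simp [hj])
    have hic : i < c := hw i (by simp)
    show (mulM (Finsupp.single [i] 1) (cf (nest c w)) - mulM (cf (nest c w)) (Finsupp.single [i] 1)) (w' ++ [c']) = _
    rw [Finsupp.sub_apply, mulM_right]
    have h1 : (if i = c' then cf (nest c w) w' else 0) = 0 := by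
      by_cases h : i = c'
      · rw [if_pos h]
        by_contra hne
        have h2 := nest_mem c w w' (by rw [Finsupp.mem_support_iff]; exact hne)
        have h3 := hw' c h2
        rw [← h] at h3
        exact absurd h3 (not_lt.2 hic.le)
      · rw [if_neg h]
    rw [h1, sub_zero]
    cases w' with
    | nil =>
      rw [List.nil_append, mulM_left]
      simp only
      rw [if_neg (by simp : ¬(i :: w = [] ∧ c = c'))]
      by_cases h : i = c'
      · rw [if_pos h]
        by_contra hne
        have h2 := nest_mem c w [] (by rw [Finsupp.mem_support_iff]; exact hne)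
        simp at h2
      · rw [if_neg h]
    | cons j w' =>
      rw [List.cons_append, mulM_left]
      simp only
      by_cases h : i = j
      · rw [if_pos h, ih hwc c' w' (fun k hk => hw' k (by simp [hk])), h]
        simp
      · rw [if_neg h, if_neg]
        intro h2
        have := h2.1
        simp only [List.cons.injEq] at this
        exact h this.1

/-- the index set of the nested brackets -/
abbrev NI (N k : ℕ) := Σ c : Fin N, (Fin k → Fin c.1)

/-- the letters -/
def niw {N k : ℕ} (j : NI N k) : List (Fin N) := List.ofFn (fun i => (j.2 i).castLE j.1.2.le)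

lemma niw_lt {N k : ℕ} (j : NI N k) : ∀ i ∈ niw j, i < j.1 := by
  intro i hi
  unfold niw at hi
  rw [List.mem_ofFn] at hi
  obtain ⟨t, rfl⟩ := hi
  rw [Fin.lt_def]
  exact (j.2 t).2

lemma niw_inj {N k : ℕ} (j j' : NI N k) (h1 : j.1 = j'.1) (h2 : niw j = niw j') : j = j' := by
  obtain ⟨c, f⟩ := j
  obtain ⟨c', f'⟩ := j'
  simp only at h1
  subst h1
  unfold niw at h2
  have h3 := List.ofFn_injective h2
  congr 1
  funext i
  have h4 := congrFun h3 i
  simpa using h4

lemma nest_ind (N k : ℕ) : LinearIndependent ℚ (fun j : NI N k => cf (nest j.1 (niw j))) := by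
  classical
  rw [linearIndependent_iff']
  intro s g hg j hj
  have h1 := DFunLike.congr_fun hg (niw j ++ [j.1])
  rw [Finsupp.finsetSum_apply, sum_eq_single_of_mem j hj] at h1
  · rw [Finsupp.smul_apply, nest_coeff j.1 (niw j) (niw_lt j) j.1 (niw j) (niw_lt j), if_pos ⟨rfl, rfl⟩] at h1
    simpa using h1
  · intro j' _ hne
    rw [Finsupp.smul_apply, nest_coeff j'.1 (niw j') (niw_lt j') j.1 (niw j) (niw_lt j), if_neg, smul_zero]
    intro h2
    exact hne (niw_inj j' j h2.2 h2.1)

lemma card_NI (N k : ℕ) : Fintype.card (NI N k) = ∑ c ∈ range N, c ^ k := by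
  rw [Fintype.card_sigma, ← Fin.sum_univ_eq_sum_range]
  apply sum_congr rfl
  intro c _
  rw [Fintype.card_fun, Fintype.card_fin, Fintype.card_fin]

lemma tw_nest {I : Type*} (r : ℕ) (c : I) (w : List I) : tw (fun _ : I => r) (nest c w) = (w.length + 1) * r := by
  induction w with
  | nil => show r = _; simp
  | cons i w ih =>
    show r + tw (fun _ : I => r) (nest c w) = _
    rw [ih, List.length_cons]
    ring

/-- a basis of `L_(r,n)` -/
lemma Ls_basis (r n : ℕ) : ∃ g : Fin (Module.finrank ℚ (Ls r n)) → List ℚ → ℚ, (∀ i, g i ∈ Ls r n) ∧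
    LinearIndependent ℚ g := by
  refine ⟨fun i => (Module.finBasis ℚ (Ls r n) i : List ℚ → ℚ), fun i => (Module.finBasis ℚ (Ls r n) i).2, ?_⟩
  exact (Module.finBasis ℚ (Ls r n)).linearIndependent.map' (Submodule.subtype _) (Submodule.ker_subtype _)

lemma Ls_bot {r n : ℕ} (h : n < r) : Ls r n = ⊥ := by
  unfold Ls
  rw [Submodule.span_eq_bot]
  rintro g ⟨b, h1, h2, h3, -⟩
  exfalso
  have h4 : ∀ b : List ℕ, (∀ x ∈ b, 1 ≤ x) → b.length ≤ b.sum := by
    intro b
    induction b with
    | nil => intro _; simp
    | cons x b ih =>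
      intro hb
      rw [List.length_cons, List.sum_cons]
      have := hb x (by simp)
      have := ih (fun y hy => hb y (by simp [hy]))
      omega
  have := h4 b h3
  omega

lemma Ls_le_of_ne {r n : ℕ} {g : List ℚ → ℚ} (hg : g ∈ Ls r n) (h0 : g ≠ 0) : r ≤ n := by
  by_contra h
  rw [Ls_bot (by omega), Submodule.mem_bot] at hg
  exact h0 hg

/-- **Free component**: the bracket monomials of a linearly independent family in `L_(r,n)` -/
theorem lie_component {I J : Type*} [Fintype I] {r n : ℕ} (hr : 1 ≤ r) (g : I → List ℚ → ℚ)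
    (hg : ∀ i, g i ∈ Ls r n) (hind : LinearIndependent ℚ g) (T : J → Tree I)
    (hT : LinearIndependent ℚ (fun j => cf (T j))) : LinearIndependent ℚ (fun j => tev (fun _ => r) g (T j)) := by
  by_cases hn : 1 ≤ n
  · exact lie_of_words (fun _ => r) (fun _ => n) (fun _ => hr) g hg
      (words_component hr (by omega) g (fun i => (mem_DihS _ _ _).1 (Ls_le r n hr (hg i))) hind) T hT
  · -- no letters
    have hI : IsEmpty I := by
      by_contra hne
      rw [not_isEmpty_iff] at hne
      obtain ⟨i⟩ := hne
      have h1 := hind.ne_zero i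
      have := Ls_le_of_ne (hg i) h1
      omega
    have hTr : ∀ T : Tree I, False := by
      intro T
      induction T with
      | leaf c => exact hI.false c
      | node a b iha _ => exact iha
    have hJ : IsEmpty J := ⟨fun j => hTr (T j)⟩
    exact linearIndependent_empty_type

/-- **Dimension of `L`.** -/
theorem dim_L (r n k : ℕ) (hr : 1 ≤ r) : ∑ c ∈ range (Module.finrank ℚ (Ls r n)), c ^ k ≤
    Module.finrank ℚ (Ls ((k + 1) * r) ((k + 1) * n)) := by
  obtain ⟨g, hg, hind⟩ := Ls_basis r n
  have h1 := lie_component hr g hg hind _ (nest_ind (Module.finrank ℚ (Ls r n)) k)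
  rw [← card_NI]
  have hlen : ∀ j : NI (Module.finrank ℚ (Ls r n)) k, (niw j).length = k := fun j => by
    unfold niw
    rw [List.length_ofFn]
  have hmem : ∀ j : NI (Module.finrank ℚ (Ls r n)) k,
      tev (fun _ => r) g (nest j.1 (niw j)) ∈ Ls ((k + 1) * r) ((k + 1) * n) := by
    intro j
    have h2 := (tev_mem (fun _ => r) (fun _ => n) (fun _ => hr) g hg (nest j.1 (niw j))).2
    rw [tw_nest, tw_nest, hlen] at h2
    exact h2
  have h3 : LinearIndependent ℚ (fun j : NI (Module.finrank ℚ (Ls r n)) k =>
      (⟨tev (fun _ => r) g (nest j.1 (niw j)), hmem j⟩ : Ls ((k + 1) * r) ((k + 1) * n))) := by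
    apply LinearIndependent.of_comp (Submodule.subtype _)
    exact h1
  exact h3.fintype_card_le_finrank

/-- commuting elements of `L` -/
theorem L_commute {r n s m : ℕ} (hr : 1 ≤ r) (hs : 1 ≤ s) {g h : List ℚ → ℚ} (hg : g ∈ Ls r n) (hh : h ∈ Ls s m)
    (hg0 : g ≠ 0) (hh0 : h ≠ 0) (hc : ihara r s g h = 0) : r = s ∧ n = m ∧ ∃ c : ℚ, h = c • g := by
  have h1 := Ls_le_of_ne hg hg0
  have h2 := Ls_le_of_ne hh hh0
  obtain ⟨h3, h4, c, h5⟩ := centralizer hr hs (by omega : r < 2 * n) (by omega : s < 2 * m)
    ((mem_DihS _ _ _).1 (Ls_le r n hr hg)) ((mem_DihS _ _ _).1 (Ls_le s m hs hh))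
    (Function.ne_iff.1 hg0) (Function.ne_iff.1 hh0) (fun z => congrFun hc z)
  exact ⟨h3, by omega, c, funext h5⟩

/-- **The dimensions grow.** -/
theorem dim_mono {r n s m : ℕ} (hr : 1 ≤ r) (hs : 1 ≤ s) (hne : Ls r n ≠ ⊥) (h : (r, n) ≠ (s, m)) :
    Module.finrank ℚ (Ls s m) ≤ Module.finrank ℚ (Ls (r + s) (n + m)) := by
  obtain ⟨g, hg, hg0⟩ := (Submodule.ne_bot_iff _).1 hne
  set f : Ls s m →ₗ[ℚ] Ls (r + s) (n + m) := (ihR r s g).restrict (fun x hx => Ls_closed hr hs hg hx) with hf
  apply LinearMap.finrank_le_finrank_of_injective (f := f)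
  rw [injective_iff_map_eq_zero]
  intro x hx
  by_contra hx0
  have h1 : ihara r s g x.1 = 0 := congrArg Subtype.val hx
  have h2 := L_commute hr hs hg x.2 hg0 (fun h => hx0 (Subtype.ext h)) h1
  apply h
  rw [h2.1, h2.2.1]

/-! ### the enveloping algebra -/

/-- leading coefficients of a family -/
theorem lead_ind {J : Type*} (R m : J → ℕ) (F : J → List ℚ → ℚ) (W : J → List ℚ → ℚ[X])
    (hW : ∀ j, LD (R j) (m j) (F j) (W j)) (hind : LinearIndependent ℚ (fun j (l : List ℚ) => (W j l).coeff (m j))) :
    LinearIndependent ℚ F := by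
  classical
  rw [linearIndependent_iff'] at hind ⊢
  intro s g hg
  by_contra hcon
  push Not at hcon
  obtain ⟨T0, hT0, hgT0⟩ := hcon
  set B : Finset J := s.filter (fun T => g T ≠ 0) with hB
  have hBne : B.Nonempty := ⟨T0, by rw [hB, mem_filter]; exact ⟨hT0, hgT0⟩⟩
  obtain ⟨T1, hT1, hmax⟩ := B.exists_max_image m hBne
  have hT1' := hT1
  rw [hB, mem_filter] at hT1'
  have hpoly : ∀ l : List ℚ, ∑ T ∈ s, C (g T) * W T l = 0 := by
    intro l
    apply Polynomial.funext
    intro x
    rw [eval_finsetSum, eval_zero]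
    have h6 := congrFun hg (x :: l)
    rw [Finset.sum_apply] at h6
    refine Eq.trans ?_ h6
    apply sum_congr rfl
    intro T _
    rw [eval_mul, eval_C, (hW T).ev]
    rfl
  have hrel : ∑ T ∈ s with g T ≠ 0 ∧ m T = m T1, g T • (fun l : List ℚ => (W T l).coeff (m T)) = 0 := by
    funext l
    rw [Finset.sum_apply]
    have h6 := congrArg (fun p : ℚ[X] => p.coeff (m T1)) (hpoly l)
    simp only [finsetSum_coeff, coeff_C_mul, coeff_zero] at h6
    refine Eq.trans ?_ h6
    rw [sum_filter]
    apply sum_congr rfl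
    intro T hT
    by_cases h1 : g T ≠ 0 ∧ m T = m T1
    · rw [if_pos h1, Pi.smul_apply, smul_eq_mul, h1.2]
    · rw [if_neg h1]
      by_cases h2 : g T = 0
      · rw [h2, zero_mul]
      · have h3 : m T < m T1 := by
          rcases lt_or_eq_of_le (hmax T (by rw [hB, mem_filter]; exact ⟨hT, h2⟩)) with h | h
          · exact h
          · exact absurd ⟨h2, h⟩ h1
        rw [coeff_eq_zero_of_natDegree_lt (lt_of_le_of_lt ((hW T).deg l) h3), mul_zero]
  exact hT1'.2 (hind _ g hrel T1 (by rw [mem_filter]; exact ⟨hT1'.1, hT1'.2, rfl⟩))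

/-- the leading coefficient of a word applied to `K` -/
lemma wop_lead' {I : Type*} (len d : I → ℕ) (hlen : ∀ c, 1 ≤ len c) (hd : ∀ c, 1 ≤ d c) (f : I → List ℚ → ℚ)
    (P : I → List ℚ → ℚ[X]) (hP : ∀ c, LD (len c) (d c) (f c) (P c)) (hf : ∀ c, Supp (len c + 1) (f c))
    {s e : ℕ} (hs : 1 ≤ s) (he : 1 ≤ e) {K : List ℚ → ℚ} {Q : List ℚ → ℚ[X]} (hQ : LD s e K Q)
    (hK : Supp (s + 1) K) (w : List I) : ∃ W : List ℚ → ℚ[X],
      LD (wl len w + s) (wl d w + e) (wop len f s K w) W ∧ ∀ l : List ℚ, l.length = wl len w + s →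
        (W l).coeff (wl d w + e) = (-1) ^ w.length *
          (ew len (fun c l => (P c l).coeff (d c)) w (l.take (wl len w)) * (Q (l.drop (wl len w))).coeff e) := by
  induction w with
  | nil =>
    refine ⟨Q, by rw [wl_nil, wl_nil, Nat.zero_add, Nat.zero_add]; exact hQ, ?_⟩
    intro l _
    simp [ew]
  | cons i w ih =>
    obtain ⟨Q', h3, h4⟩ := ih
    obtain ⟨W, hW1, hW2⟩ := act_LD (hlen i) (by omega : 1 ≤ wl len w + s) (hP i) h3
    have hdi := hd i
    have hmax : max (d i) (wl d w + e) < d i + (wl d w + e) := by omega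
    have hsw := wop_supp len f hf s hK w
    refine ⟨W, ⟨?_, ?_, ?_⟩, ?_⟩
    · intro l
      rw [wl_cons, add_assoc]
      have e1 : W l = (W l + P i (l.take (len i)) * Q' (l.drop (len i))) -
          P i (l.take (len i)) * Q' (l.drop (len i)) := by ring
      rw [e1]
      refine (natDegree_sub_le _ _).trans (max_le ((hW2 l).trans hmax.le) ?_)
      exact natDegree_mul_le.trans (add_le_add ((hP i).deg _) (h3.deg _))
    · intro x l
      rw [hW1, wop_cons]
    · intro l hl
      apply Polynomial.funext
      intro x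
      rw [hW1, eval_zero]
      apply act_supp (hf i) hsw
      rw [wl_cons] at hl
      rw [List.length_cons]
      omega
    · intro l hl
      rw [wl_cons] at hl ⊢
      rw [wl_cons, add_assoc]
      have h5 : (W l + P i (l.take (len i)) * Q' (l.drop (len i))).coeff (d i + (wl d w + e)) = 0 :=
        coeff_eq_zero_of_natDegree_lt (lt_of_le_of_lt (hW2 l) hmax)
      rw [coeff_add, coeff_mul_add_eq_of_natDegree_le ((hP i).deg _) (h3.deg _),
        h4 _ (by rw [List.length_drop]; omega)] at h5
      rw [ew_cons, List.length_cons, pow_succ, List.take_take, min_eq_left (by omega), List.drop_take,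
        Nat.add_sub_cancel_left]
      rw [List.drop_drop] at h5
      linarith

/-- products of independent functions -/
lemma tensor_ind {A B : Type*} (a b : ℕ) (u : A → List ℚ → ℚ) (v : B → List ℚ → ℚ) (hu : ∀ i, Supp a (u i))
    (hv : ∀ i, Supp b (v i)) (hui : LinearIndependent ℚ u) (hvi : LinearIndependent ℚ v)
    (F : A × B → List ℚ → ℚ)
    (hF : ∀ p l, l.length = a + b → F p l = u p.1 (l.take a) * v p.2 (l.drop a)) : LinearIndependent ℚ F := by
  classical
  rw [linearIndependent_iff'] at hui hvi ⊢
  intro s g hg p hp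
  set SA := s.image Prod.fst with hSA
  set SB := s.image Prod.snd with hSB
  set G : A × B → ℚ := fun p => if p ∈ s then g p else 0 with hG
  have hrel : ∀ (l m : List ℚ), l.length = a → m.length = b →
      ∑ x ∈ SA, (∑ y ∈ SB, G (x, y) * v y m) * u x l = 0 := by
    intro l m hl hm
    have h1 := congrFun hg (l ++ m)
    rw [Finset.sum_apply] at h1
    refine Eq.trans ?_ h1
    have h2 : ∑ p ∈ s, (g p • F p) (l ++ m) = ∑ p ∈ SA ×ˢ SB, G p * (u p.1 l * v p.2 m) := by
      have hsub : s ⊆ SA ×ˢ SB := by
        intro p hp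
        rw [mem_product]
        exact ⟨mem_image_of_mem _ hp, mem_image_of_mem _ hp⟩
      rw [← sum_subset hsub]
      · apply sum_congr rfl
        intro p hp
        rw [Pi.smul_apply, smul_eq_mul, hF p _ (by rw [List.length_append, hl, hm]), List.take_left' hl,
          List.drop_left' hl, hG]
        simp only
        rw [if_pos hp]
      · intro p _ hp
        rw [hG]
        simp only
        rw [if_neg hp, zero_mul]
    rw [h2, sum_product]
    apply sum_congr rfl
    intro x _
    rw [sum_mul]
    apply sum_congr rfl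
    intro y _
    ring
  have h3 : ∀ (m : List ℚ), m.length = b → ∀ x ∈ SA, ∑ y ∈ SB, G (x, y) * v y m = 0 := by
    intro m hm
    apply hui SA (fun x => ∑ y ∈ SB, G (x, y) * v y m)
    funext l
    rw [Finset.sum_apply]
    by_cases hl : l.length = a
    · exact hrel l m hl hm
    · apply sum_eq_zero
      intro x _
      rw [Pi.smul_apply, hu x l hl, smul_zero]
  have h4 : ∀ x ∈ SA, ∀ y ∈ SB, G (x, y) = 0 := by
    intro x hx
    apply hvi SB (fun y => G (x, y))
    funext m
    rw [Finset.sum_apply]
    by_cases hm : m.length = b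
    · exact h3 m hm x hx
    · apply sum_eq_zero
      intro y _
      rw [Pi.smul_apply, hv y m hm, smul_zero]
  have h5 := h4 p.1 (mem_image_of_mem _ hp) p.2 (mem_image_of_mem _ hp)
  rw [hG] at h5
  simp only at h5
  rwa [if_pos hp] at h5

/-- the words of length `k` -/
lemma words_ind {I : Type*} {r : ℕ} (hr : 1 ≤ r) (u : I → List ℚ → ℚ) (hs : ∀ i, Supp r (u i))
    (hind : LinearIndependent ℚ u) (k : ℕ) : LinearIndependent ℚ (fun (w : Fin k → I) (l : List ℚ) =>
      if l.length = k * r then ew (fun _ => r) u (List.ofFn w) l else 0) := by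
  classical
  have hfree := free_same hr u hs hind
  rw [linearIndependent_iff']
  intro s g hg w hw
  have h1 := hfree (k * r) (s.image List.ofFn) (fun v => ∑ w ∈ s with List.ofFn w = v, g w) (by
    intro v hv
    rw [mem_image] at hv
    obtain ⟨w', _, rfl⟩ := hv
    rw [wl_const, List.length_ofFn]) (by
    intro l hl
    rw [sum_image (fun _ _ _ _ h => List.ofFn_injective h)]
    have h2 := congrFun hg l
    rw [Finset.sum_apply] at h2
    refine Eq.trans ?_ h2
    apply sum_congr rfl
    intro w' hw'
    rw [Pi.smul_apply, smul_eq_mul, if_pos hl]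
    congr 1
    rw [sum_filter, sum_eq_single_of_mem w' hw']
    · rw [if_pos rfl]
    · intro v _ hv
      exact if_neg (fun h => hv (List.ofFn_injective h))) (List.ofFn w) (mem_image_of_mem _ hw)
  rw [sum_filter, sum_eq_single_of_mem w hw] at h1
  · simpa using h1
  · intro v _ hv
    exact if_neg (fun h => hv (List.ofFn_injective h))

/-- an adapted basis with a finite index set -/
lemma Ls_adapted (r n : ℕ) (hr : 1 ≤ r) (hn : 1 ≤ n) : ∃ (g : Fin (Module.finrank ℚ (Ls r n)) → List ℚ → ℚ)
    (d : Fin (Module.finrank ℚ (Ls r n)) → ℕ) (P : Fin (Module.finrank ℚ (Ls r n)) → List ℚ → ℚ[X]),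
      (∀ i, g i ∈ Ls r n) ∧ (∀ i, 1 ≤ d i) ∧ (∀ i, LD r (d i) (g i) (P i)) ∧
      LinearIndependent ℚ (fun i (l : List ℚ) => (P i l).coeff (d i)) := by
  classical
  obtain ⟨b, h, d, P, h1, h2, h3, h4, h5, h6, h7⟩ := adapted (by omega : 1 ≤ 2 * n) (Ls r n)
    (fun G hG => (mem_DihS _ _ _).1 (Ls_le r n hr hG))
  have hbf : Finite b := by
    have h8 : LinearIndependent ℚ (fun i : b => (⟨h i, h1 i⟩ : Ls r n)) := by
      apply LinearIndependent.of_comp (Submodule.subtype _)
      exact h6
    exact h8.finite
  have : Fintype b := Fintype.ofFinite b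
  have hcard : Fintype.card b = Module.finrank ℚ (Ls r n) := by
    rw [← finrank_span_eq_card h6, h7]
  set e : Fin (Module.finrank ℚ (Ls r n)) ≃ b := (Fintype.equivFinOfCardEq hcard).symm
  refine ⟨fun i => h (e i), fun i => d (e i), fun i => P (e i), fun i => h1 _, fun i => h2 _, fun i => h3 _, ?_⟩
  have h8 : (fun (i : Fin (Module.finrank ℚ (Ls r n))) (l : List ℚ) => (P (e i) l).coeff (d (e i))) =
      (fun i : b => i.1) ∘ e := by
    funext i l
    exact h4 (e i) l
  rw [h8]
  exact h5.comp e e.injective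

lemma Ls_le_Us (s m : ℕ) (hs : 1 ≤ s) {g : List ℚ → ℚ} (hg : g ∈ Ls s m) : g ∈ Us s m := by
  have h1 : one0 ∈ Us 0 0 := Submodule.subset_span ⟨[], rfl, rfl, by simp, rfl⟩
  have h2 := Us_closed hs hg h1
  rw [act_one s (Ls_supp hs hg), add_zero, add_zero] at h2
  exact h2

lemma wop_mem_Us {I : Type*} {r n s m : ℕ} (hr : 1 ≤ r) (g : I → List ℚ → ℚ) (hg : ∀ i, g i ∈ Ls r n)
    {K : List ℚ → ℚ} (hK : K ∈ Us s m) (w : List I) :
    wop (fun _ => r) g s K w ∈ Us (w.length * r + s) (w.length * n + m) := by
  induction w with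
  | nil => simpa [wop] using hK
  | cons i w ih =>
    have h1 := Us_closed hr (hg i) ih
    rw [wop_cons, wl_const, List.length_cons]
    have e1 : (w.length + 1) * r + s = r + (w.length * r + s) := by ring
    have e2 : (w.length + 1) * n + m = n + (w.length * n + m) := by ring
    rw [e1, e2]
    exact h1

/-- **Dimension of `U`.** -/
theorem dim_U (r n s m k : ℕ) (hr : 1 ≤ r) (hs : 1 ≤ s) :
    Module.finrank ℚ (Ls r n) ^ k * Module.finrank ℚ (Ls s m) ≤
      Module.finrank ℚ (Us (k * r + s) (k * n + m)) := by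
  classical
  by_cases hm : 1 ≤ m
  swap
  · rw [Ls_bot (by omega : m < s), finrank_bot, mul_zero]
    exact Nat.zero_le _
  by_cases hn : 1 ≤ n
  swap
  · rw [Ls_bot (by omega : n < r), finrank_bot]
    rcases Nat.eq_zero_or_pos k with rfl | hk
    · rw [pow_zero, one_mul, Nat.zero_mul, Nat.zero_mul, Nat.zero_add, Nat.zero_add]
      exact Submodule.finrank_mono (fun g hg => Ls_le_Us s m hs hg)
    · rw [zero_pow (by omega), zero_mul]
      exact Nat.zero_le _
  obtain ⟨g, d, P, h1, h2, h3, h4⟩ := Ls_adapted r n hr hn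
  obtain ⟨h, e, Q, k1, k2, k3, k4⟩ := Ls_adapted s m hs hm
  have hlead := fun p : (Fin k → Fin (Module.finrank ℚ (Ls r n))) × Fin (Module.finrank ℚ (Ls s m)) =>
    wop_lead' (fun _ => r) d (fun _ => hr) h2 g P h3 (fun i => Ls_supp hr (h1 i)) hs (k2 p.2) (k3 p.2)
      (Ls_supp hs (k1 p.2)) (List.ofFn p.1)
  choose W hW1 hW2 using hlead
  have hind : LinearIndependent ℚ (fun p : (Fin k → Fin (Module.finrank ℚ (Ls r n))) ×
      Fin (Module.finrank ℚ (Ls s m)) => wop (fun _ => r) g s (h p.2) (List.ofFn p.1)) := by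
    apply lead_ind _ _ _ W hW1
    have hT := tensor_ind (k * r) s _ _ (fun w l hl => if_neg hl) (fun i => LD.supp' (k3 i) (e i))
      (words_ind hr (fun c l => (P c l).coeff (d c)) (fun i => LD.supp' (h3 i) (d i)) h4 k) k4
      (fun p l => (-1) ^ k * (W p l).coeff (wl d (List.ofFn p.1) + e p.2)) (by
        intro p l hl
        have e0 : wl (fun _ : Fin (Module.finrank ℚ (Ls r n)) => r) (List.ofFn p.1) = k * r := by
          rw [wl_const, List.length_ofFn]
        have e1 := hW2 p l (by rw [e0]; exact hl)
        rw [e0, List.length_ofFn] at e1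
        rw [e1, ← mul_assoc, ← mul_pow]
        simp only [mul_neg, mul_one, neg_neg, one_pow, one_mul]
        rw [if_pos (by rw [List.length_take]; omega)])
    rw [linearIndependent_iff'] at hT ⊢
    intro t c hc p hp
    apply hT t c _ p hp
    funext l
    have h5 := congrFun hc l
    rw [Finset.sum_apply] at h5 ⊢
    have h6 : ∑ x ∈ t, (c x • fun l : List ℚ => (-1 : ℚ) ^ k * (W x l).coeff (wl d (List.ofFn x.1) + e x.2)) l =
        (-1) ^ k * ∑ x ∈ t, (c x • fun l : List ℚ => (W x l).coeff (wl d (List.ofFn x.1) + e x.2)) l := by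
      rw [mul_sum]
      apply sum_congr rfl
      intro x _
      simp only [Pi.smul_apply, smul_eq_mul]
      ring
    rw [h6, h5]
    simp
  have hmem : ∀ p : (Fin k → Fin (Module.finrank ℚ (Ls r n))) × Fin (Module.finrank ℚ (Ls s m)),
      wop (fun _ => r) g s (h p.2) (List.ofFn p.1) ∈ Us (k * r + s) (k * n + m) := by
    intro p
    have h5 := wop_mem_Us hr g h1 (Ls_le_Us s m hs (k1 p.2)) (List.ofFn p.1)
    rwa [List.length_ofFn] at h5
  have h7 : LinearIndependent ℚ (fun p : (Fin k → Fin (Module.finrank ℚ (Ls r n))) ×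
      Fin (Module.finrank ℚ (Ls s m)) => (⟨_, hmem p⟩ : Us (k * r + s) (k * n + m))) := by
    apply LinearIndependent.of_comp (Submodule.subtype _)
    exact hind
  have h8 := h7.fintype_card_le_finrank
  rw [Fintype.card_prod, Fintype.card_fun, Fintype.card_fin, Fintype.card_fin, Fintype.card_fin] at h8
  exact h8

end Pool.Agent.D0H20.DL
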