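import Pool.Agent.D0H20.DL.Core

/-!
# Families of elements of the same depth and weight
-/

set_option autoImplicit false

namespace Pool.Agent.D0H20.DL

open Finset Polynomial

/-- the words of the commutator monomial -/
noncomputable def cf {I : Type*} : Tree I → (List I →₀ ℚ)
  | .leaf c => Finsupp.single [c] 1
  | .node a b => mulM (cf a) (cf b) - mulM (cf b) (cf a)

lemma cf_supp {I : Type*} (len : I → ℕ) (T : Tree I) : ∀ w ∈ (cf T).support, wl len w = tw len T := by
  classical
  induction T with
  | leaf c =>
    intro w hw
    have := Finsupp.support_single_subset hw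
    rw [mem_singleton] at this
    rw [this, wl_cons, wl_nil, add_zero]
    rfl
  | node a b iha ihb =>
    intro w hw
    have hw' := Finsupp.support_sub hw
    rw [mem_union] at hw'
    show wl len w = tw len a + tw len b
    rcases hw' with h | h
    · obtain ⟨v, hv, v', hv', rfl⟩ := mulM_supp _ _ w h
      rw [wl_append, iha v hv, ihb v' hv']
    · obtain ⟨v, hv, v', hv', rfl⟩ := mulM_supp _ _ w h
      rw [wl_append, ihb v hv, iha v' hv', add_comm]

lemma cf_mon {I : Type*} (T : Tree I) : Finsupp.linearCombination ℚ mon (cf T) = com T := by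
  have hmon : ∀ p q : List I →₀ ℚ, Finsupp.linearCombination ℚ mon (mulM p q) =
      Finsupp.linearCombination ℚ mon p * Finsupp.linearCombination ℚ mon q := by
    intro p q
    rw [mulM_lin, lc_sum, lc_sum, sum_mul_sum]
    apply sum_congr rfl
    intro v _
    apply sum_congr rfl
    intro w _
    rw [mon_append, smul_mul_smul_comm]
  induction T with
  | leaf c =>
    show Finsupp.linearCombination ℚ mon (Finsupp.single [c] 1) = FreeAlgebra.ι ℚ c
    rw [Finsupp.linearCombination_single, one_smul]
    unfold mon
    simp
  | node a b iha ihb =>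
    show Finsupp.linearCombination ℚ mon (mulM (cf a) (cf b) - mulM (cf b) (cf a)) = com a * com b - com b * com a
    rw [map_sub, hmon, hmon, iha, ihb]

lemma cf_ind {I J : Type*} (T : J → Tree I) (h : LinearIndependent ℚ (fun j => com (T j))) :
    LinearIndependent ℚ (fun j => cf (T j)) := by
  apply LinearIndependent.of_comp (Finsupp.linearCombination ℚ (mon (I := I)))
  have h1 : (⇑(Finsupp.linearCombination ℚ (mon (I := I))) ∘ fun j => cf (T j)) = fun j => com (T j) := by
    funext j
    exact cf_mon (T j)
  rw [h1]
  exact h

/-- the elements whose action is a representation -/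
def RepS (r : ℕ) : Submodule ℚ (List ℚ → ℚ) where
  carrier := {G | RepAt r G}
  zero_mem' := by
    intro s t H K _ _ _ z
    rw [act_zero_left, act_zero_left, act_zero_right]
    have h1 : ihara r s 0 H = 0 := by rw [ihara_eq, act_zero_left, act_zero_right, sub_zero]
    rw [h1, act_zero_left]
    simp
  add_mem' := by
    intro G G' hG hG' s t H K hs hH hK z
    have h1 : ihara r s (G + G') H = ihara r s G H + ihara r s G' H := by
      rw [ihara_eq, ihara_eq, ihara_eq, act_add_left, act_add_right]
      abel
    rw [h1, act_add_left, act_add_left, act_add_left, act_add_right]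
    have e1 := hG s t H K hs hH hK z
    have e2 := hG' s t H K hs hH hK z
    simp only [Pi.add_apply]
    rw [e1, e2]
    ring
  smul_mem' := by
    intro c G hG s t H K hs hH hK z
    have h1 : ihara r s (c • G) H = c • ihara r s G H := by
      rw [ihara_eq, ihara_eq, act_smul_left, act_smul_right, smul_sub]
    rw [h1, act_smul_left, act_smul_left, act_smul_left, act_smul_right]
    have e1 := hG s t H K hs hH hK z
    simp only [Pi.smul_apply, smul_eq_mul]
    rw [e1]
    ring

lemma Ls_rep {r n : ℕ} (hr : 1 ≤ r) {g : List ℚ → ℚ} (hg : g ∈ Ls r n) : RepAt r g := by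
  have h1 : Ls r n ≤ RepS r := by
    unfold Ls
    rw [Submodule.span_le]
    rintro g ⟨b, rfl, -, -, rfl⟩
    exact rep_itb b (by intro h; rw [h] at hr; simp at hr)
  exact h1 hg

lemma tev_mem {I : Type*} (len nn : I → ℕ) (hlen : ∀ i, 1 ≤ len i) (g : I → List ℚ → ℚ)
    (hg : ∀ i, g i ∈ Ls (len i) (nn i)) (T : Tree I) : 1 ≤ tw len T ∧ tev len g T ∈ Ls (tw len T) (tw nn T) := by
  induction T with
  | leaf i => exact ⟨hlen i, hg i⟩
  | node a b iha ihb =>
    refine ⟨?_, Ls_closed iha.1 ihb.1 iha.2 ihb.2⟩
    show 1 ≤ tw len a + tw len b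
    omega

/-- the action of a word as a linear map -/
def wopL {I : Type*} (len : I → ℕ) (g : I → List ℚ → ℚ) (t : ℕ) : List I → ((List ℚ → ℚ) →ₗ[ℚ] (List ℚ → ℚ))
  | [] => LinearMap.id
  | i :: w => (actR (len i) (wl len w + t) (g i)).comp (wopL len g t w)

lemma wopL_apply {I : Type*} (len : I → ℕ) (g : I → List ℚ → ℚ) (t : ℕ) (w : List I) (K : List ℚ → ℚ) :
    wopL len g t w K = wop len g t K w := by
  induction w with
  | nil => rfl
  | cons i w ih =>
    show act (len i) (wl len w + t) (g i) (wopL len g t w K) = _
    rw [ih]
    rfl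

lemma wop_append {I : Type*} (len : I → ℕ) (g : I → List ℚ → ℚ) (t : ℕ) (K : List ℚ → ℚ) (v : List I) (w : List I) :
    wop len g (wl len v + t) (wop len g t K v) w = wop len g t K (w ++ v) := by
  induction w with
  | nil => rfl
  | cons i w ih =>
    rw [List.cons_append, wop_cons, wop_cons, ih, wl_append, add_assoc]

/-- the action of a bracket monomial -/
lemma tev_words {I : Type*} (len nn : I → ℕ) (hlen : ∀ i, 1 ≤ len i) (g : I → List ℚ → ℚ)
    (hg : ∀ i, g i ∈ Ls (len i) (nn i)) (T : Tree I) : ∀ (t : ℕ) (K : List ℚ → ℚ) (_ : Supp (t + 1) K),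
    act (tw len T) t (tev len g T) K = Finsupp.linearCombination ℚ (wop len g t K) (cf T) := by
  induction T with
  | leaf i =>
    intro t K hK
    show act (len i) t (g i) K = Finsupp.linearCombination ℚ (wop len g t K) (Finsupp.single [i] 1)
    rw [Finsupp.linearCombination_single, one_smul, wop_cons, wl_nil, Nat.zero_add]
    rfl
  | node a b iha ihb =>
    intro t K hK
    obtain ⟨ha1, ha2⟩ := tev_mem len nn hlen g hg a
    obtain ⟨hb1, hb2⟩ := tev_mem len nn hlen g hg b
    have hsa := Ls_supp ha1 ha2
    have hsb := Ls_supp hb1 hb2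
    have h1 := (Ls_rep ha1 ha2).eq hb1 hsb hK
    have hprod : ∀ (a b : Tree I) (_ : ∀ (t : ℕ) (K : List ℚ → ℚ) (_ : Supp (t + 1) K),
        act (tw len a) t (tev len g a) K = Finsupp.linearCombination ℚ (wop len g t K) (cf a))
        (_ : ∀ (t : ℕ) (K : List ℚ → ℚ) (_ : Supp (t + 1) K),
        act (tw len b) t (tev len g b) K = Finsupp.linearCombination ℚ (wop len g t K) (cf b))
        (_ : Supp (tw len b + 1) (tev len g b)),
        act (tw len a) (tw len b + t) (tev len g a) (act (tw len b) t (tev len g b) K) =
          Finsupp.linearCombination ℚ (wop len g t K) (mulM (cf a) (cf b)) := by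
      intro a b iha ihb hsb
      rw [iha (tw len b + t) _ (act_supp hsb hK), ihb t K hK, mulM_lin, lc_sum]
      apply sum_congr rfl
      intro v hv
      rw [← wopL_apply, lc_sum, map_sum, smul_sum]
      apply sum_congr rfl
      intro w hw
      rw [map_smul, wopL_apply, smul_smul, ← cf_supp len b w hw, wop_append]
    show act (tw len a + tw len b) t (ihara (tw len a) (tw len b) (tev len g a) (tev len g b)) K =
      Finsupp.linearCombination ℚ (wop len g t K) (mulM (cf a) (cf b) - mulM (cf b) (cf a))
    rw [h1, map_sub, hprod a b iha ihb hsb, hprod b a ihb iha hsa]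

lemma tev_eq {I : Type*} (len nn : I → ℕ) (hlen : ∀ i, 1 ≤ len i) (g : I → List ℚ → ℚ)
    (hg : ∀ i, g i ∈ Ls (len i) (nn i)) (T : Tree I) :
    tev len g T = Finsupp.linearCombination ℚ (wop len g 0 one0) (cf T) := by
  obtain ⟨h1, h2⟩ := tev_mem len nn hlen g hg T
  rw [← tev_words len nn hlen g hg T 0 one0 one0_supp, act_one _ (Ls_supp h1 h2)]

/-- free operators give a free Lie algebra -/
theorem lie_of_words {I : Type*} (len nn : I → ℕ) (hlen : ∀ i, 1 ≤ len i) (g : I → List ℚ → ℚ)
    (hg : ∀ i, g i ∈ Ls (len i) (nn i)) (hw : LinearIndependent ℚ (fun w : List I => wop len g 0 one0 w))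
    {J : Type*} (T : J → Tree I) (hT : LinearIndependent ℚ (fun j => cf (T j))) :
    LinearIndependent ℚ (fun j => tev len g (T j)) := by
  have h1 : (fun j => tev len g (T j)) = ⇑(Finsupp.linearCombination ℚ (wop len g 0 one0)) ∘ fun j => cf (T j) := by
    funext j
    exact tev_eq len nn hlen g hg (T j)
  rw [h1]
  apply hT.map'
  rw [LinearMap.ker_eq_bot]
  exact hw

lemma wl_const {J : Type*} (r : ℕ) (w : List J) : wl (fun _ : J => r) w = w.length * r := by
  induction w with
  | nil => simp
  | cons i w ih => rw [wl_cons, ih, List.length_cons]; ring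

/-- **The operators of a linearly independent family of elements of the same depth and degree are free.** -/
theorem words_component {I : Type*} [Fintype I] {r D : ℕ} (hr : 1 ≤ r) (hD : 1 ≤ D) (g : I → List ℚ → ℚ)
    (hg : ∀ i, Dih r D (g i)) (hind : LinearIndependent ℚ g) :
    LinearIndependent ℚ (fun w : List I => wop (fun _ => r) g 0 one0 w) := by
  classical
  set W : Submodule ℚ (List ℚ → ℚ) := Submodule.span ℚ (Set.range g) with hW
  have hWD : ∀ G ∈ W, Dih r D G := by
    intro G hG
    have h1 : W ≤ DihS r D := by
      rw [hW, Submodule.span_le]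
      rintro _ ⟨i, rfl⟩
      exact hg i
    exact h1 hG
  obtain ⟨b, h, d, P, h1, h2, h3, h4, h5, h6, h7⟩ := adapted hD W hWD
  have : Module.Finite ℚ W := Module.Finite.span_of_finite ℚ (Set.finite_range g)
  have hbf : Finite b := by
    have h8 : LinearIndependent ℚ (fun i : b => (⟨h i, h1 i⟩ : W)) := by
      apply LinearIndependent.of_comp W.subtype
      exact h6
    exact h8.finite
  have : Fintype b := Fintype.ofFinite b
  have hcard : Fintype.card b = Fintype.card I := by
    rw [← finrank_span_eq_card h6, ← finrank_span_eq_card hind, h7]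
  have hu : (fun (c : b) (l : List ℚ) => (P c l).coeff (d c)) = fun c : b => c.1 := by
    funext c l
    exact h4 c l
  have hfree : FreeFam (fun _ : b => r) (fun c l => (P c l).coeff (d c)) := by
    apply free_same hr
    · intro i
      exact LD.supp' (h3 i) (d i)
    · rw [hu]
      exact h5
  have hh : LinearIndependent ℚ (fun w : List b => wop (fun _ => r) h 0 one0 w) :=
    free_words (fun _ => r) d (fun _ => hr) h2 h P h3 (fun i => (hWD _ (h1 i)).supp) hfree
  -- fixed length
  have hspan : ∀ (k : ℕ) (w : List b), w.length = k → wop (fun _ => r) h 0 one0 w ∈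
      Submodule.span ℚ (Set.range (fun v : Fin k → I => wop (fun _ => r) g 0 one0 (List.ofFn v))) := by
    intro k
    induction k with
    | zero =>
      intro w hw
      have hw0 : w = [] := List.length_eq_zero_iff.1 hw
      subst hw0
      apply Submodule.subset_span
      refine ⟨fun i => i.elim0, ?_⟩
      show wop (fun _ => r) g 0 one0 (List.ofFn (fun i : Fin 0 => i.elim0)) = _
      rw [List.ofFn_zero]
      rfl
    | succ k ih =>
      intro w hw
      match w, hw with
      | i :: w, hw =>
        have hw' : w.length = k := by simpa using hw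
        have e1 := ih w hw'
        rw [wop_cons, wl_const, hw']
        set Sk := Submodule.span ℚ (Set.range (fun v : Fin (k + 1) → I => wop (fun _ => r) g 0 one0 (List.ofFn v)))
        have e2 : ∀ j : I, ∀ K ∈ Submodule.span ℚ (Set.range (fun v : Fin k → I =>
            wop (fun _ => r) g 0 one0 (List.ofFn v))), act r (k * r + 0) (g j) K ∈ Sk := by
          intro j
          have : Submodule.span ℚ (Set.range (fun v : Fin k → I =>
            wop (fun _ => r) g 0 one0 (List.ofFn v))) ≤ Sk.comap (actR r (k * r + 0) (g j)) := by
            rw [Submodule.span_le]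
            rintro _ ⟨v, rfl⟩
            apply Submodule.subset_span
            refine ⟨Fin.cons j v, ?_⟩
            show wop (fun _ => r) g 0 one0 (List.ofFn (Fin.cons j v : Fin (k + 1) → I)) =
              act r (k * r + 0) (g j) (wop (fun _ => r) g 0 one0 (List.ofFn v))
            rw [List.ofFn_succ]
            simp only [Fin.cons_zero, Fin.cons_succ]
            rw [wop_cons, wl_const, List.length_ofFn]
          exact this
        have e3 : h i ∈ W := h1 i
        have e4 : W ≤ Sk.comap (actL r (k * r + 0) (wop (fun _ => r) h 0 one0 w)) := by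
          rw [hW, Submodule.span_le]
          rintro _ ⟨j, rfl⟩
          exact e2 j _ e1
        exact e4 e3
  have hk : ∀ k : ℕ, LinearIndependent ℚ (fun v : Fin k → I => wop (fun _ => r) g 0 one0 (List.ofFn v)) := by
    intro k
    rw [linearIndependent_iff_card_le_finrank_span]
    have e1 : LinearIndependent ℚ (fun v : Fin k → b => wop (fun _ => r) h 0 one0 (List.ofFn v)) :=
      hh.comp List.ofFn List.ofFn_injective
    have e2 := finrank_span_eq_card e1
    rw [Fintype.card_fun, hcard, ← Fintype.card_fun] at e2
    rw [← e2]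
    unfold Set.finrank
    have : Module.Finite ℚ (Submodule.span ℚ (Set.range (fun v : Fin k → I =>
      wop (fun _ => r) g 0 one0 (List.ofFn v)))) := Module.Finite.span_of_finite ℚ (Set.finite_range _)
    apply Submodule.finrank_mono
    rw [Submodule.span_le]
    rintro _ ⟨v, rfl⟩
    exact hspan k (List.ofFn v) (List.length_ofFn)
  -- all lengths
  rw [linearIndependent_iff']
  intro s c hc w hw
  have hk' := hk w.length
  rw [linearIndependent_iff'] at hk'
  have e5 := hk' (univ.filter (fun v : Fin w.length → I => List.ofFn v ∈ s)) (fun v => c (List.ofFn v)) (by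
    funext z
    by_cases hz : z.length = w.length * r + 1
    · have e6 := congrFun hc z
      rw [Finset.sum_apply] at e6 ⊢
      refine Eq.trans ?_ e6
      have e7 : ∑ v ∈ univ.filter (fun v : Fin w.length → I => List.ofFn v ∈ s),
          (c (List.ofFn v) • wop (fun _ => r) g 0 one0 (List.ofFn v)) z =
          ∑ v ∈ (univ.filter (fun v : Fin w.length → I => List.ofFn v ∈ s)).image List.ofFn,
            (c v • wop (fun _ => r) g 0 one0 v) z := by
        rw [sum_image (fun _ _ _ _ h => List.ofFn_injective h)]
      rw [e7]
      apply sum_subset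
      · intro v hv
        rw [mem_image] at hv
        obtain ⟨v', hv', rfl⟩ := hv
        rw [mem_filter] at hv'
        exact hv'.2
      · intro v hv hv'
        have hvl : v.length ≠ w.length := by
          intro hvl
          apply hv'
          rw [mem_image]
          have hv2 : List.ofFn (fun i : Fin w.length => v.get (Fin.cast hvl.symm i)) = v := by
            apply List.ext_getElem
            · simp [hvl]
            · intro i h8 h9
              simp
          exact ⟨fun i => v.get (Fin.cast hvl.symm i), by rw [mem_filter, hv2]; exact ⟨mem_univ _, hv⟩, hv2⟩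
        rw [Pi.smul_apply, wop_supp (fun _ => r) g (fun i => (hg i).supp) 0 one0_supp v z, smul_zero]
        rw [hz, wl_const, add_zero]
        intro h8
        apply hvl
        have h9 : w.length * r = v.length * r := by omega
        exact (Nat.eq_of_mul_eq_mul_right (by omega) h9).symm
    · rw [Finset.sum_apply]
      apply sum_eq_zero
      intro v _
      rw [Pi.smul_apply, wop_supp (fun _ => r) g (fun i => (hg i).supp) 0 one0_supp (List.ofFn v) z, smul_zero]
      rw [wl_const, add_zero, List.length_ofFn]
      exact hz)
  have h10 := e5 w.get (by rw [mem_filter, List.ofFn_get]; exact ⟨mem_univ _, hw⟩)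
  rwa [List.ofFn_get] at h10

end Pool.Agent.D0H20.DL
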