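import Pool.Agent.D0H20.DL.Fam

/-!
# The action of every function is a representation of the bracket
-/

set_option autoImplicit false

namespace Pool.Agent.D0H20.DL

open Finset Pool.Agent.D0H20.BK

lemma dec_assoc (l : List ℚ) : ∀ F : List ℚ → ℚ → List ℚ → ℚ → List ℚ → ℚ,
    dec l (fun M y C => dec C (fun A c R => F M y A c R)) = dec l (fun L c R => dec L (fun M y A => F M y A c R)) := by
  induction l with
  | nil => intro F; rfl
  | cons x l ih =>
    intro F
    rw [dec_cons, dec_cons, dec_nil, zero_add]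
    simp only [dec_cons]
    rw [dec_add, ih (fun M y A c R => F (x :: M) y A c R)]

/-- the intervals which begin at the point `x` -/
def sh (G : List ℚ → ℚ) (x q : ℚ) (K : List ℚ → ℚ) (l : List ℚ) : ℚ :=
  dec l (fun M y C => G (x :: (M ++ [y])) * (K (y :: C) - K (x :: C))) + G (x :: (l ++ [q])) * K []

lemma bl_nil (G : List ℚ → ℚ) (q : ℚ) (K : List ℚ → ℚ) : bl G [] q K = 0 := rfl

lemma bl_cons (G : List ℚ → ℚ) (x : ℚ) (l : List ℚ) (q : ℚ) (K : List ℚ → ℚ) :
    bl G (x :: l) q K = sh G x q K l + bl G l q (fun l' => K (x :: l')) := by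
  unfold bl sh
  rw [dec_cons]
  rfl

lemma sh_add (G : List ℚ → ℚ) (x q : ℚ) (K K' : List ℚ → ℚ) (l : List ℚ) :
    sh G x q (fun l' => K l' + K' l') l = sh G x q K l + sh G x q K' l := by
  unfold sh
  have h : dec l (fun M y C => G (x :: (M ++ [y])) * (K (y :: C) + K' (y :: C) - (K (x :: C) + K' (x :: C)))) =
      dec l (fun M y C => G (x :: (M ++ [y])) * (K (y :: C) - K (x :: C))) +
      dec l (fun M y C => G (x :: (M ++ [y])) * (K' (y :: C) - K' (x :: C))) := by
    rw [← dec_add]
    apply dec_congr
    intro M y C _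
    ring
  rw [h]
  ring

lemma sh_mul (G : List ℚ → ℚ) (x q c : ℚ) (K : List ℚ → ℚ) (l : List ℚ) :
    sh G x q (fun l' => c * K l') l = c * sh G x q K l := by
  unfold sh
  rw [mul_add, ← dec_mul]
  congr 1
  · apply dec_congr
    intro M y C _
    ring
  · ring

lemma bl_add (G : List ℚ → ℚ) (l : List ℚ) (q : ℚ) : ∀ (K K' : List ℚ → ℚ),
    bl G l q (fun l' => K l' + K' l') = bl G l q K + bl G l q K' := by
  induction l with
  | nil => intro K K'; simp [bl_nil]
  | cons x l ih =>
    intro K K'
    rw [bl_cons, bl_cons, bl_cons, sh_add, ih]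
    ring

lemma bl_mul (G : List ℚ → ℚ) (l : List ℚ) (q c : ℚ) : ∀ (K : List ℚ → ℚ),
    bl G l q (fun l' => c * K l') = c * bl G l q K := by
  induction l with
  | nil => intro K; simp [bl_nil]
  | cons x l ih =>
    intro K
    rw [bl_cons, bl_cons, sh_mul, ih]
    ring

lemma bl_mul' (G : List ℚ → ℚ) (l : List ℚ) (q c : ℚ) (K : List ℚ → ℚ) :
    bl G l q (fun l' => K l' * c) = bl G l q K * c := by
  rw [mul_comm, ← bl_mul]
  simp only [mul_comm]

lemma bl_sub (G : List ℚ → ℚ) (l : List ℚ) (q : ℚ) (K K' : List ℚ → ℚ) :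
    bl G l q (fun l' => K l' - K' l') = bl G l q K - bl G l q K' := by
  have h1 : (fun l' => K l' - K' l') = fun l' => K l' + (-1) * K' l' := by
    funext l'; ring
  rw [h1, bl_add, bl_mul]
  ring

/-- an interval and a marked point -/
lemma bl_dec (G : List ℚ → ℚ) (l : List ℚ) : ∀ (q : ℚ) (Φ : List ℚ → ℚ → List ℚ → ℚ),
    bl G l q (fun l' => dec l' Φ) = dec l (fun M y C => bl G C q (fun l' => Φ M y l')) +
      dec l (fun M y C => bl G M y (fun l' => Φ l' y C)) -
      dec l (fun A a R => dec R (fun B b C => G (a :: (B ++ [b])) * Φ A a C)) := by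
  induction l with
  | nil => intro q Φ; simp [bl_nil]
  | cons x l ih =>
    intro q Φ
    rw [bl_cons]
    simp only [dec_cons]
    rw [bl_add, ih q (fun A c R => Φ (x :: A) c R), bl_nil, zero_add]
    have h1 : sh G x q (fun l' => dec l' Φ) l =
        dec l (fun M y C => G (x :: (M ++ [y])) * Φ [] y C) - dec l (fun M y C => G (x :: (M ++ [y])) * Φ [] x C) +
        dec l (fun M y C => dec C (fun A c R => G (x :: (M ++ [y])) * (Φ (y :: A) c R - Φ (x :: A) c R))) := by
      unfold sh
      beta_reduce
      rw [dec_nil, mul_zero, add_zero, ← dec_sub, ← dec_add]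
      apply dec_congr
      intro M y C _
      rw [dec_cons, dec_cons, dec_mul, dec_sub]
      show _ = _ + G _ * (dec C (fun A c R => Φ (y :: A) c R) - dec C (fun A c R => Φ (x :: A) c R))
      ring
    have h2 : dec l (fun M y C => bl G (x :: M) y (fun l' => Φ l' y C)) =
        dec l (fun M y C => dec M (fun B b C' => G (x :: (B ++ [b])) * (Φ (b :: C') y C - Φ (x :: C') y C))) +
        dec l (fun M y C => G (x :: (M ++ [y])) * Φ [] y C) +
        dec l (fun M y C => bl G M y (fun l' => Φ (x :: l') y C)) := by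
      rw [← dec_add, ← dec_add]
      apply dec_congr
      intro M y C _
      rw [bl_cons]
      rfl
    rw [h1, h2, dec_assoc]
    ring

/-- intervals in `G ∘ (H ∘ K)` where the interval of `H` begins at the first point -/
lemma bl_sh (G H : List ℚ → ℚ) (x q : ℚ) (K : List ℚ → ℚ) (l : List ℚ) :
    bl G l q (fun l' => sh H x q K l') =
      dec l (fun M y C => H (x :: (M ++ [y])) * (bl G C q (fun l' => K (y :: l')) - bl G C q (fun l' => K (x :: l')))) +
      dec l (fun M y C => bl G M y (fun l' => H (x :: (l' ++ [y]))) * (K (y :: C) - K (x :: C))) -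
      dec l (fun A a R => dec R (fun B b C => G (a :: (B ++ [b])) * (H (x :: (A ++ [a])) * (K (a :: C) - K (x :: C))))) +
      bl G l q (fun l' => H (x :: (l' ++ [q]))) * K [] := by
  have h1 : bl G l q (fun l' => sh H x q K l') =
      bl G l q (fun l' => dec l' (fun M y C => H (x :: (M ++ [y])) * (K (y :: C) - K (x :: C)))) +
      bl G l q (fun l' => H (x :: (l' ++ [q])) * K []) := by
    rw [← bl_add]
    rfl
  rw [h1, bl_dec, bl_mul']
  have h2 : dec l (fun M y C => bl G C q (fun l' => H (x :: (M ++ [y])) * (K (y :: l') - K (x :: l')))) =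
      dec l (fun M y C => H (x :: (M ++ [y])) *
        (bl G C q (fun l' => K (y :: l')) - bl G C q (fun l' => K (x :: l')))) := by
    apply dec_congr
    intro M y C _
    rw [bl_mul, bl_sub]
  have h3 : dec l (fun M y C => bl G M y (fun l' => H (x :: (l' ++ [y])) * (K (y :: C) - K (x :: C)))) =
      dec l (fun M y C => bl G M y (fun l' => H (x :: (l' ++ [y]))) * (K (y :: C) - K (x :: C))) := by
    apply dec_congr
    intro M y C _
    rw [bl_mul']
  rw [h2, h3]

/-- intervals in `G ∘ (H ∘ K)` where the interval of `G` begins at the first point -/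
lemma sh_bl (G H : List ℚ → ℚ) (hH : ∀ y, H [y] = 0) (x q : ℚ) (K : List ℚ → ℚ) (l : List ℚ) :
    sh G x q (fun l' => bl H l' q K) l =
      dec l (fun M y C => G (x :: (M ++ [y])) * (bl H C q (fun l' => K (y :: l')) - bl H C q (fun l' => K (x :: l')))) +
      dec l (fun M y C => sh G x y (fun l' => H (l' ++ [y])) M * (K (y :: C) - K (x :: C))) +
      sh G x q (fun l' => H (l' ++ [q])) l * K [] -
      dec l (fun A a R => dec R (fun B b C => H (a :: (B ++ [b])) * (G (x :: (A ++ [a])) * (K (a :: C) - K (x :: C))))) := by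
  have h1 : sh G x q (fun l' => bl H l' q K) l =
      dec l (fun M y C => G (x :: (M ++ [y])) * (bl H C q (fun l' => K (y :: l')) - bl H C q (fun l' => K (x :: l')))) +
      dec l (fun M y C => G (x :: (M ++ [y])) * (sh H y q K C - sh H x q K C)) := by
    rw [← dec_add]
    unfold sh
    beta_reduce
    rw [bl_nil, mul_zero, add_zero]
    apply dec_congr
    intro M y C _
    rw [bl_cons, bl_cons]
    unfold sh
    ring
  have h2 : dec l (fun M y C => sh G x y (fun l' => H (l' ++ [y])) M * (K (y :: C) - K (x :: C))) =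
      dec l (fun M y C => dec C (fun A c R => G (x :: (M ++ [y])) * (H (y :: (A ++ [c])) - H (x :: (A ++ [c]))) *
        (K (c :: R) - K (x :: R)))) := by
    rw [dec_assoc]
    apply dec_congr
    intro M y C _
    unfold sh
    beta_reduce
    rw [List.nil_append, hH, mul_zero, add_zero, mul_comm, ← dec_mul]
    apply dec_congr
    intro B b C' _
    simp only [List.cons_append]
    ring
  have h3 : sh G x q (fun l' => H (l' ++ [q])) l * K [] =
      dec l (fun M y C => G (x :: (M ++ [y])) * (H (y :: (C ++ [q])) - H (x :: (C ++ [q]))) * K []) := by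
    unfold sh
    beta_reduce
    rw [List.nil_append, hH, mul_zero, add_zero, mul_comm, ← dec_mul]
    apply dec_congr
    intro B b C' _
    simp only [List.cons_append]
    ring
  have h4 : dec l (fun M y C => G (x :: (M ++ [y])) * (sh H y q K C - sh H x q K C)) =
      dec l (fun M y C => sh G x y (fun l' => H (l' ++ [y])) M * (K (y :: C) - K (x :: C))) +
      sh G x q (fun l' => H (l' ++ [q])) l * K [] -
      dec l (fun A a R => dec R (fun B b C => H (a :: (B ++ [b])) * (G (x :: (A ++ [a])) * (K (a :: C) - K (x :: C))))) := by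
    rw [h2, h3, ← dec_add, ← dec_sub]
    apply dec_congr
    intro M y C _
    unfold sh
    have h5 : dec C (fun A c R => G (x :: (M ++ [y])) * (H (y :: (A ++ [c])) - H (x :: (A ++ [c]))) *
          (K (c :: R) - K (x :: R))) +
        G (x :: (M ++ [y])) * (H (y :: (C ++ [q])) - H (x :: (C ++ [q]))) * K [] -
        dec C (fun B b C => H (y :: (B ++ [b])) * (G (x :: (M ++ [y])) * (K (y :: C) - K (x :: C)))) =
        dec C (fun A c R => G (x :: (M ++ [y])) * (H (y :: (A ++ [c])) * (K (c :: R) - K (y :: R)) -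
          H (x :: (A ++ [c])) * (K (c :: R) - K (x :: R)))) +
        G (x :: (M ++ [y])) * (H (y :: (C ++ [q])) - H (x :: (C ++ [q]))) * K [] := by
      rw [add_sub_right_comm, ← dec_sub]
      congr 1
      apply dec_congr
      intro A c R _
      ring
    rw [h5, dec_mul, dec_sub]
    ring
  rw [h1, h4]
  ring

/-- **The representation property** for marked points -/
theorem rep_bl {G H J : List ℚ → ℚ} (hG : ∀ y, G [y] = 0) (hH : ∀ y, H [y] = 0)
    (hJ : ∀ l y, J (l ++ [y]) = bl G l y (fun l' => H (l' ++ [y])) - bl H l y (fun l' => G (l' ++ [y])))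
    (l : List ℚ) : ∀ (q : ℚ) (K : List ℚ → ℚ),
    bl J l q K = bl G l q (fun l' => bl H l' q K) - bl H l q (fun l' => bl G l' q K) := by
  induction l with
  | nil => intro q K; simp [bl_nil]
  | cons x l ih =>
    intro q K
    have hJx : ∀ (M : List ℚ) (y : ℚ), J (x :: (M ++ [y])) =
        sh G x y (fun l' => H (l' ++ [y])) M + bl G M y (fun l' => H (x :: (l' ++ [y]))) -
        (sh H x y (fun l' => G (l' ++ [y])) M + bl H M y (fun l' => G (x :: (l' ++ [y])))) := by
      intro M y
      have h := hJ (x :: M) y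
      rw [bl_cons, bl_cons, List.cons_append] at h
      exact h
    rw [bl_cons, bl_cons, bl_cons, ih]
    simp only [bl_cons]
    rw [bl_add, bl_add, bl_sh, bl_sh, sh_bl G H hH, sh_bl H G hG]
    have h1 : sh J x q K l =
        dec l (fun M y C => sh G x y (fun l' => H (l' ++ [y])) M * (K (y :: C) - K (x :: C))) +
        dec l (fun M y C => bl G M y (fun l' => H (x :: (l' ++ [y]))) * (K (y :: C) - K (x :: C))) -
        (dec l (fun M y C => sh H x y (fun l' => G (l' ++ [y])) M * (K (y :: C) - K (x :: C))) +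
        dec l (fun M y C => bl H M y (fun l' => G (x :: (l' ++ [y]))) * (K (y :: C) - K (x :: C)))) +
        (sh G x q (fun l' => H (l' ++ [q])) l + bl G l q (fun l' => H (x :: (l' ++ [q]))) -
        (sh H x q (fun l' => G (l' ++ [q])) l + bl H l q (fun l' => G (x :: (l' ++ [q]))))) * K [] := by
      rw [← dec_add, ← dec_add, ← dec_sub, ← hJx l q]
      have h2 : sh J x q K l = dec l (fun M y C => J (x :: (M ++ [y])) * (K (y :: C) - K (x :: C))) +
        J (x :: (l ++ [q])) * K [] := rfl
      rw [h2]
      congr 1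
      apply dec_congr
      intro M y C _
      rw [hJx]
      ring
    rw [h1]
    ring

/-- **The action of every function is a representation of the bracket.** -/
theorem rep_all {r : ℕ} (hr : 1 ≤ r) {G : List ℚ → ℚ} (hG : Supp (r + 1) G) : RepAt r G := by
  intro s t H K hs hH hK z
  rcases nil_or_concat z with rfl | ⟨ys, q, rfl⟩
  · rw [act_supp (ihara_supp hG hH) hK _ (by simp), act_supp hG (act_supp hH hK) _ (by simp),
      act_supp hH (act_supp hG hK) _ (by simp), sub_zero]
  · rw [act_bl (by omega) (ihara_supp hG hH) hK, act_bl hr hG (act_supp hH hK), act_bl hs hH (act_supp hG hK)]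
    have e1 : ∀ l : List ℚ, act s t H K (l ++ [q]) = bl H l q (fun l' => K (l' ++ [q])) := fun l => act_bl hs hH hK l q
    have e2 : ∀ l : List ℚ, act r t G K (l ++ [q]) = bl G l q (fun l' => K (l' ++ [q])) := fun l => act_bl hr hG hK l q
    simp only [e1, e2]
    apply rep_bl
    · intro y
      exact hG _ (by simp; omega)
    · intro y
      exact hH _ (by simp; omega)
    · intro l y
      show act r s G H (l ++ [y]) - act s r H G (l ++ [y]) = _
      rw [act_bl hr hG hH, act_bl hs hH hG]

lemma tev_supp {I : Type*} (len : I → ℕ) (hlen : ∀ i, 1 ≤ len i) (g : I → List ℚ → ℚ)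
    (hg : ∀ i, Supp (len i + 1) (g i)) (T : Tree I) : 1 ≤ tw len T ∧ Supp (tw len T + 1) (tev len g T) := by
  induction T with
  | leaf i => exact ⟨hlen i, hg i⟩
  | node a b iha ihb =>
    refine ⟨?_, ihara_supp iha.2 ihb.2⟩
    show 1 ≤ tw len a + tw len b
    omega

/-- the action of a bracket monomial of arbitrary functions -/
lemma tev_words' {I : Type*} (len : I → ℕ) (hlen : ∀ i, 1 ≤ len i) (g : I → List ℚ → ℚ)
    (hg : ∀ i, Supp (len i + 1) (g i)) (T : Tree I) : ∀ (t : ℕ) (K : List ℚ → ℚ) (_ : Supp (t + 1) K),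
    act (tw len T) t (tev len g T) K = Finsupp.linearCombination ℚ (wop len g t K) (cf T) := by
  induction T with
  | leaf i =>
    intro t K hK
    show act (len i) t (g i) K = Finsupp.linearCombination ℚ (wop len g t K) (Finsupp.single [i] 1)
    rw [Finsupp.linearCombination_single, one_smul, wop_cons, wl_nil, Nat.zero_add]
    rfl
  | node a b iha ihb =>
    intro t K hK
    obtain ⟨ha1, hsa⟩ := tev_supp len hlen g hg a
    obtain ⟨hb1, hsb⟩ := tev_supp len hlen g hg b
    have h1 := (rep_all ha1 hsa).eq hb1 hsb hK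
    have hprod : ∀ (a b : Tree I) (_ : ∀ (t : ℕ) (K : List ℚ → ℚ) (_ : Supp (t + 1) K),
        act (tw len a) t (tev len g a) K = Finsupp.linearCombination ℚ (wop len g t K) (cf a))
        (_ : ∀ (t : ℕ) (K : List ℚ → ℚ) (_ : Supp (t + 1) K),
        act (tw len b) t (tev len g b) K = Finsupp.linearCombination ℚ (wop len g t K) (cf b))
        (_ : Supp (tw len b + 1) (tev len g b)),
        act (tw len a) (tw len b + t) (tev len g a) (act (tw len b) t (tev len g b) K) =
          Finsupp.linearCombination ℚ (wop len g t K) (mulM (cf a) (cf b)) := by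
      intro a b iha ihb hsb
      rw [iha (tw len b + t) _ (act_supp hsb hK), ihb t K hK, mulM_lin, lc_sum]
      apply sum_congr rfl
      intro v hv
      rw [← wopL_apply, lc_sum, map_sum, smul_sum]
      apply sum_congr rfl
      intro w hw
      rw [map_smul, wopL_apply, smul_smul, ← cf_supp len b w hw, wop_append]
    show act (tw len a + tw len b) t (ihara (tw len a) (tw len b) (tev len g a) (tev len g b)) K =
      Finsupp.linearCombination ℚ (wop len g t K) (mulM (cf a) (cf b) - mulM (cf b) (cf a))
    rw [h1, map_sub, hprod a b iha ihb hsb, hprod b a ihb iha hsa]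

/-- free operators give a free Lie algebra -/
theorem lie_of_words' {I : Type*} (len : I → ℕ) (hlen : ∀ i, 1 ≤ len i) (g : I → List ℚ → ℚ)
    (hg : ∀ i, Supp (len i + 1) (g i)) (hw : LinearIndependent ℚ (fun w : List I => wop len g 0 one0 w))
    {J : Type*} (T : J → Tree I) (hT : LinearIndependent ℚ (fun j => cf (T j))) :
    LinearIndependent ℚ (fun j => tev len g (T j)) := by
  have h1 : (fun j => tev len g (T j)) = ⇑(Finsupp.linearCombination ℚ (wop len g 0 one0)) ∘ fun j => cf (T j) := by
    funext j
    show tev len g (T j) = Finsupp.linearCombination ℚ (wop len g 0 one0) (cf (T j))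
    rw [← tev_words' len hlen g hg (T j) 0 one0 one0_supp, act_one _ (tev_supp len hlen g hg (T j)).2]
  rw [h1]
  apply hT.map'
  rw [LinearMap.ker_eq_bot]
  exact hw

/-- the Jacobi identity for arbitrary functions -/
theorem jacobi_all {r s t : ℕ} (hr : 1 ≤ r) (hs : 1 ≤ s) (ht : 1 ≤ t) {G H K : List ℚ → ℚ} (hG : Supp (r + 1) G)
    (hH : Supp (s + 1) H) (hK : Supp (t + 1) K) :
    ihara r (s + t) G (ihara s t H K) = ihara (r + s) t (ihara r s G H) K + ihara s (r + t) H (ihara r t G K) := by
  have e1 := (rep_all hr hG).eq hs hH hK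
  have e2 := (rep_all hs hH).eq ht hK hG
  have e3 := (rep_all hr hG).eq ht hK hH
  rw [ihara_eq r (s + t), e2, ihara_eq s t H K, act_sub_right, ihara_eq (r + s) t, e1, ihara_eq r s G H, act_sub_right,
    ihara_eq s (r + t), e3, ihara_eq r t G K, act_sub_right]
  simp only [Nat.add_comm, Nat.add_left_comm]
  abel

end Pool.Agent.D0H20.DL
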