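import Pool.Agent.D0H20.DL.Dim
import Pool.Agent.D0H20.BK.Part

/-!
# Inhomogeneous elements, the Jacobi identity, explicit bounds
-/

set_option autoImplicit false

namespace Pool.Agent.D0H20.DL

open Finset Polynomial

/-! ### inhomogeneous elements -/

/-- the bracket of two families -/
def fbr (G H : ℕ → ℕ → List ℚ → ℚ) (R N : ℕ) : List ℚ → ℚ :=
  ∑ r ∈ range (R + 1), ∑ D ∈ range (N + 1), ihara r (R - r) (G r D) (H (R - r) (N - D))

lemma ihara_anti (r s : ℕ) (G H : List ℚ → ℚ) : ihara r s G H = - ihara s r H G := by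
  rw [ihara_eq, ihara_eq]
  abel

lemma fbr_self (G : ℕ → ℕ → List ℚ → ℚ) (R N : ℕ) : fbr G G R N = 0 := by
  have h1 : fbr G G R N = - fbr G G R N := by
    unfold fbr
    conv_lhs => rw [← Finset.sum_range_reflect]
    rw [← sum_neg_distrib]
    apply sum_congr rfl
    intro r hr
    rw [mem_range] at hr
    conv_lhs => rw [← Finset.sum_range_reflect]
    rw [← sum_neg_distrib]
    apply sum_congr rfl
    intro D hD
    rw [mem_range] at hD
    have e1 : R + 1 - 1 - r = R - r := by omega
    have e2 : N + 1 - 1 - D = N - D := by omega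
    have e3 : R - (R - r) = r := by omega
    have e4 : N - (N - D) = D := by omega
    rw [e1, e2, e3, e4]
    exact ihara_anti _ _ _ _
  have h2 : (2 : ℚ) • fbr G G R N = 0 := by
    rw [two_smul]
    nth_rewrite 1 [h1]
    abel
  rcases smul_eq_zero.1 h2 with h | h
  · norm_num at h
  · exact h

lemma fbr_lin (G H K : ℕ → ℕ → List ℚ → ℚ) (c : ℚ) (R N : ℕ) :
    fbr G (fun r D => H r D - c • K r D) R N = fbr G H R N - c • fbr G K R N := by
  unfold fbr
  rw [smul_sum, ← sum_sub_distrib]
  apply sum_congr rfl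
  intro r _
  rw [smul_sum, ← sum_sub_distrib]
  apply sum_congr rfl
  intro D _
  simp only [ihara_eq]
  rw [act_sub_right, act_smul_right, act_sub_left, act_smul_left, smul_sub]
  abel

/-- the highest component of a family -/
lemma top_exists (G : ℕ → ℕ → List ℚ → ℚ) (hfin : {p : ℕ × ℕ | G p.1 p.2 ≠ 0}.Finite) (h0 : ∃ r D, G r D ≠ 0) :
    ∃ r D, G r D ≠ 0 ∧ ∀ r' D', G r' D' ≠ 0 → r' < r ∨ (r' = r ∧ D' ≤ D) := by
  classical
  obtain ⟨r0, D0, h0⟩ := h0
  have hne : hfin.toFinset.Nonempty := ⟨(r0, D0), by rw [Set.Finite.mem_toFinset]; exact h0⟩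
  obtain ⟨p, hp, hmax⟩ := hfin.toFinset.exists_max_image (fun p => p.1) hne
  have hne2 : (hfin.toFinset.filter (fun q => q.1 = p.1)).Nonempty := ⟨p, by rw [mem_filter]; exact ⟨hp, rfl⟩⟩
  obtain ⟨q, hq, hmax2⟩ := (hfin.toFinset.filter (fun q => q.1 = p.1)).exists_max_image (fun q => q.2) hne2
  rw [mem_filter, Set.Finite.mem_toFinset] at hq
  refine ⟨q.1, q.2, hq.1, ?_⟩
  intro r' D' h'
  have h1 := hmax (r', D') (by rw [Set.Finite.mem_toFinset]; exact h')
  have h2 : r' ≤ p.1 := h1
  rcases lt_or_eq_of_le h2 with h3 | h3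
  · left; rw [hq.2]; exact h3
  · right
    refine ⟨by rw [hq.2]; exact h3, ?_⟩
    exact hmax2 (r', D') (by rw [mem_filter, Set.Finite.mem_toFinset]; exact ⟨h', h3⟩)

/-- an element: a finite family of homogeneous parts -/
structure Elt (G : ℕ → ℕ → List ℚ → ℚ) : Prop where
  fin : {p : ℕ × ℕ | G p.1 p.2 ≠ 0}.Finite
  dih : ∀ r D, Dih r D (G r D)
  pos : ∀ r D, G r D ≠ 0 → 1 ≤ r ∧ r < D

lemma top_comm {G H : ℕ → ℕ → List ℚ → ℚ} (hG : Elt G) (hH : Elt H) {r D s E : ℕ} (hr : G r D ≠ 0) (hs : H s E ≠ 0)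
    (hrmax : ∀ r' D', G r' D' ≠ 0 → r' < r ∨ (r' = r ∧ D' ≤ D))
    (hsmax : ∀ r' D', H r' D' ≠ 0 → r' < s ∨ (r' = s ∧ D' ≤ E)) (hc : ∀ R N, fbr G H R N = 0) :
    r = s ∧ D = E ∧ ∃ c : ℚ, H s E = c • G r D := by
  have h1 := hc (r + s) (D + E)
  unfold fbr at h1
  rw [sum_eq_single_of_mem r (by rw [mem_range]; omega), sum_eq_single_of_mem D (by rw [mem_range]; omega)] at h1
  · rw [Nat.add_sub_cancel_left, Nat.add_sub_cancel_left] at h1
    have e1 := hG.pos r D hr
    have e2 := hH.pos s E hs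
    obtain ⟨h3, h4, c, h5⟩ := centralizer e1.1 e2.1 e1.2 e2.2 (hG.dih r D) (hH.dih s E) (Function.ne_iff.1 hr)
      (Function.ne_iff.1 hs) (fun z => congrFun h1 z)
    exact ⟨h3, h4, c, funext h5⟩
  · intro D' hD' hne
    rw [mem_range] at hD'
    rw [Nat.add_sub_cancel_left]
    by_cases h2 : G r D' = 0
    · rw [h2, ihara_eq, act_zero_left, act_zero_right, sub_zero]
    · have h3 := hrmax r D' h2
      have h4 : H s (D + E - D') = 0 := by
        by_contra h5
        have h6 := hsmax s _ h5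
        omega
      rw [h4, ihara_eq, act_zero_left, act_zero_right, sub_zero]
  · intro r' hr' hne
    rw [mem_range] at hr'
    apply sum_eq_zero
    intro D' _
    by_cases h2 : G r' D' = 0
    · rw [h2, ihara_eq, act_zero_left, act_zero_right, sub_zero]
    · have h3 := hrmax r' D' h2
      have h4 : H (r + s - r') (D + E - D') = 0 := by
        by_contra h5
        have h6 := hsmax _ _ h5
        omega
      rw [h4, ihara_eq, act_zero_left, act_zero_right, sub_zero]

/-- **Commuting elements are proportional**, without homogeneity -/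
theorem commute_inh {G H : ℕ → ℕ → List ℚ → ℚ} (hG : Elt G) (hH : Elt H) (h0 : ∃ r D, G r D ≠ 0)
    (hc : ∀ R N, fbr G H R N = 0) : ∃ c : ℚ, ∀ r D, H r D = c • G r D := by
  classical
  obtain ⟨r, D, hr, hrmax⟩ := top_exists G hG.fin h0
  by_cases hH0 : ∃ s E, H s E ≠ 0
  · obtain ⟨s, E, hs, hsmax⟩ := top_exists H hH.fin hH0
    obtain ⟨rfl, rfl, c, hcc⟩ := top_comm hG hH hr hs hrmax hsmax hc
    refine ⟨c, ?_⟩
    by_contra hcon
    push Not at hcon
    obtain ⟨r1, D1, h1⟩ := hcon
    set K : ℕ → ℕ → List ℚ → ℚ := fun r D => H r D - c • G r D with hK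
    have hKe : Elt K := by
      refine ⟨?_, ?_, ?_⟩
      · apply (hG.fin.union hH.fin).subset
        intro p hp
        by_contra h2
        rw [Set.mem_union, not_or] at h2
        simp only [Set.mem_ofPred_eq, not_not] at h2
        apply hp
        show H p.1 p.2 - c • G p.1 p.2 = 0
        rw [h2.1, h2.2, smul_zero, sub_zero]
      · intro r D
        have h2 := (DihS r D).sub_mem (hH.dih r D) ((DihS r D).smul_mem c (hG.dih r D))
        exact h2
      · intro r D h2
        by_cases h3 : G r D = 0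
        · apply hH.pos
          intro h4
          apply h2
          show H r D - c • G r D = 0
          rw [h3, h4, smul_zero, sub_zero]
        · exact hG.pos r D h3
    obtain ⟨r2, D2, hk, hkmax⟩ := top_exists K hKe.fin ⟨r1, D1, by
      intro h2
      apply h1
      have h3 : H r1 D1 - c • G r1 D1 = 0 := h2
      exact sub_eq_zero.1 h3⟩
    obtain ⟨e1, e2, -⟩ := top_comm hG hKe hr hk hrmax hkmax (fun R N => by
      rw [hK, fbr_lin, hc, fbr_self, smul_zero, sub_zero])
    apply hk
    rw [← e1, ← e2]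
    show H r D - c • G r D = 0
    rw [hcc, sub_self]
  · push Not at hH0
    exact ⟨0, fun r D => by rw [hH0 r D, zero_smul]⟩

/-- the operators of two elements of different depth -/
theorem words_pair (len D : Bool → ℕ) (hlen : ∀ c, 1 ≤ len c) (hD : ∀ c, 1 ≤ D c) (f : Bool → List ℚ → ℚ)
    (hf : ∀ c, Dih (len c) (D c) (f c)) (hf0 : ∀ c, ∃ z, f c z ≠ 0) (hne : len true ≠ len false) :
    LinearIndependent ℚ (fun w : List Bool => wop len f 0 one0 w) := by
  have h1 := fun c => (hf c).lead (hD c) (hf0 c)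
  choose d P hd hP hP0 using h1
  have hNC := NC_of_alt (hlen true) (hlen false) hne (LD.supp' (hP true) _) (LD.supp' (hP false) _)
      ((hf true).alt (hP true) _) ((hf false).alt (hP false) _) (hP0 true) (hP0 false)
  exact free_words len d hlen hd f P hP (fun c => (hf c).supp)
    (fun R S lam h1 h2 => free2 _ len (fun c l => (P c l).coeff (d c)) rfl hlen hNC R S lam h1 h2)

/-- free pairs, for families of trees -/
theorem free_core_pair (len D : Bool → ℕ) (hlen : ∀ c, 1 ≤ len c) (hD : ∀ c, 1 ≤ D c) (f : Bool → List ℚ → ℚ)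
    (hf : ∀ c, Dih (len c) (D c) (f c)) (hf0 : ∀ c, ∃ z, f c z ≠ 0) (hne : len true ≠ len false)
    {J : Type*} (T : J → Tree Bool) (hT : LinearIndependent ℚ (fun j => com (T j))) :
    LinearIndependent ℚ (fun j => tev len f (T j)) := by
  have hinj : Function.Injective T := by
    intro i j hij
    exact hT.injective (by show com (T i) = com (T j); rw [hij])
  have h1 := free_of_depth len D hlen hD f hf hf0 hne (Set.range T) (by
    have h2 := hT.comp (Equiv.ofInjective T hinj).symm (Equiv.injective _)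
    have h3 : ((fun j => com (T j)) ∘ (Equiv.ofInjective T hinj).symm) = fun S : Set.range T => com S.1 := by
      funext S
      show com (T ((Equiv.ofInjective T hinj).symm S)) = com S.1
      congr 1
      exact Equiv.apply_ofInjective_symm hinj S
    rw [h3] at h2
    exact h2)
  exact h1.comp (Equiv.ofInjective T hinj) (Equiv.injective _)

/-- the operators of a linearly independent family in `L_(r,n)` -/
theorem words_L {I : Type*} [Fintype I] {r n : ℕ} (hr : 1 ≤ r) (g : I → List ℚ → ℚ) (hg : ∀ i, g i ∈ Ls r n)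
    (hind : LinearIndependent ℚ g) : LinearIndependent ℚ (fun w : List I => wop (fun _ => r) g 0 one0 w) := by
  by_cases hn : 1 ≤ n
  · exact words_component hr (by omega) g (fun i => (mem_DihS _ _ _).1 (Ls_le r n hr (hg i))) hind
  · -- only the empty word
    have hI : IsEmpty I := by
      by_contra hne
      rw [not_isEmpty_iff] at hne
      obtain ⟨i⟩ := hne
      have := Ls_le_of_ne (hg i) (hind.ne_zero i)
      omega
    have hu : ∀ w : List I, w = [] := by
      intro w
      cases w with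
      | nil => rfl
      | cons i w => exact (hI.false i).elim
    rw [linearIndependent_iff']
    intro s c hc w hw
    have hw0 := hu w
    subst hw0
    have h1 := congrFun hc [0]
    rw [Finset.sum_apply, sum_eq_single_of_mem [] hw (fun v _ hv => absurd (hu v) hv)] at h1
    simpa [wop, one0] using h1

/-! ### the Jacobi identity -/

theorem jacobi_L {r n s m t k : ℕ} (hr : 1 ≤ r) (hs : 1 ≤ s) (ht : 1 ≤ t) {G H K : List ℚ → ℚ} (hG : G ∈ Ls r n)
    (hH : H ∈ Ls s m) (hK : K ∈ Ls t k) : ihara r (s + t) G (ihara s t H K) =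
      ihara (r + s) t (ihara r s G H) K + ihara s (r + t) H (ihara r t G K) := by
  have sG := Ls_supp hr hG
  have sH := Ls_supp hs hH
  have sK := Ls_supp ht hK
  have e1 := (Ls_rep hr hG).eq hs sH sK
  have e2 := (Ls_rep hs hH).eq ht sK sG
  have e3 := (Ls_rep hr hG).eq ht sK sH
  rw [ihara_eq r (s + t), e2, ihara_eq (r + s) t, e1, ihara_eq s (r + t), e3, ihara_eq s t, act_sub_right,
    ihara_eq r s, act_sub_right, ihara_eq r t, act_sub_right]
  simp only [Nat.add_comm, Nat.add_left_comm]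
  abel

/-! ### the explicit bound -/

lemma itb_Cy (b : ℕ) (w : List ℕ) : itb (w ++ [b]) = BK.Cy b w := by
  induction w with
  | nil =>
    funext z
    match z with
    | [] => rfl
    | [x] => rfl
    | [x, y] => rfl
    | _ :: _ :: _ :: _ => rfl
  | cons a w ih =>
    funext z
    rw [List.cons_append, itb_cons a (w ++ [b]) (by simp), ihara_fa a _ (itb_Dih (w ++ [b]) (by simp)).supp, ih]
    rfl

/-- the brackets of the starting file -/
lemma bra_itb (u : List ℕ) (hu : u ≠ []) (y : ℕ → ℚ) : BK.bra u y = itb u (BK.lst u.length y ++ [0]) := by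
  rcases List.eq_nil_or_concat u with h | ⟨w, b, h⟩
  · exact absurd h hu
  · rw [h, List.concat_eq_append, BK.bra_eq, itb_Cy, BK.Br_Cy b w _ _ (by simp)]
    simp

/-- evaluation at the root `0` -/
def ev0 (r : ℕ) : (List ℚ → ℚ) →ₗ[ℚ] ((ℕ → ℚ) → ℚ) where
  toFun G := fun y => G (BK.lst r y ++ [0])
  map_add' := fun _ _ => rfl
  map_smul' := fun _ _ => rfl

lemma Lsp_le (r n : ℕ) (hr : 1 ≤ r) : Module.finrank ℚ (BK.Lsp r n) ≤ Module.finrank ℚ (Ls r n) := by
  have h1 : BK.Lsp r n = (Ls r n).map (ev0 r) := by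
    unfold BK.Lsp Ls
    rw [Submodule.map_span]
    congr 1
    ext g
    constructor
    · rintro ⟨b, h1, h2, h3, rfl⟩
      refine ⟨itb b, ⟨b, h1, h2, h3, rfl⟩, ?_⟩
      funext y
      rw [bra_itb b (by intro h; rw [h] at h1; simp at h1; omega), h1]
      rfl
    · rintro ⟨g', ⟨b, h1, h2, h3, rfl⟩, rfl⟩
      refine ⟨b, h1, h2, h3, ?_⟩
      funext y
      rw [bra_itb b (by intro h; rw [h] at h1; simp at h1; omega), h1]
      rfl
  rw [h1]
  exact Submodule.finrank_map_le _ _

/-- **The explicit bound.** -/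
theorem explicit_U (r n k : ℕ) (hr : 2 ≤ r) : ((n - 1) / 3).choose (r - 1) ^ (k + 1) ≤
    (r - 1).factorial ^ (k + 1) * Module.finrank ℚ (Us ((k + 1) * r) ((k + 1) * n)) := by
  obtain ⟨s, rfl⟩ : ∃ s, r = s + 2 := ⟨r - 2, by omega⟩
  have h1 := BK.explicit s n
  have h2 := Lsp_le (s + 2) n (by omega)
  have h3 := dim_U (s + 2) n (s + 2) n k (by omega) (by omega)
  rw [← pow_succ] at h3
  have e1 : k * (s + 2) + (s + 2) = (k + 1) * (s + 2) := by ring
  have e2 : k * n + n = (k + 1) * n := by ring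
  rw [e1, e2] at h3
  calc ((n - 1) / 3).choose (s + 2 - 1) ^ (k + 1)
      ≤ ((s + 2 - 1).factorial * Module.finrank ℚ (Ls (s + 2) n)) ^ (k + 1) :=
        Nat.pow_le_pow_left (h1.trans (Nat.mul_le_mul_left _ h2)) _
    _ = (s + 2 - 1).factorial ^ (k + 1) * Module.finrank ℚ (Ls (s + 2) n) ^ (k + 1) := mul_pow _ _ _
    _ ≤ _ := Nat.mul_le_mul_left _ h3

end Pool.Agent.D0H20.DL
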