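import Pool.Agent.D0H20.DL.Mem

/-!
# The Jacobi identity
-/

set_option autoImplicit false

namespace Pool.Agent.D0H20.DL

open Finset Pool.Agent.D0H20.BK

/-- the value if the list is empty -/
def isn : List ℚ → ℚ → ℚ
  | [], c => c
  | _ :: _, _ => 0

/-- the last point -/
def rl (l : List ℚ) (Φ : List ℚ → ℚ → ℚ) : ℚ := dec l (fun A w R => isn R (Φ A w))

@[simp] lemma isn_nil (c : ℚ) : isn [] c = c := rfl
@[simp] lemma isn_cons (x : ℚ) (l : List ℚ) (c : ℚ) : isn (x :: l) c = 0 := rfl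
@[simp] lemma rl_nil (Φ : List ℚ → ℚ → ℚ) : rl [] Φ = 0 := rfl

lemma rl_cons (x : ℚ) (l : List ℚ) (Φ : List ℚ → ℚ → ℚ) :
    rl (x :: l) Φ = isn l (Φ [] x) + rl l (fun A w => Φ (x :: A) w) := by
  unfold rl
  rw [dec_cons]

lemma rl_concat (w : ℚ) (l : List ℚ) : ∀ (Φ : List ℚ → ℚ → ℚ), rl (l ++ [w]) Φ = Φ l w := by
  induction l with
  | nil => intro Φ; rw [List.nil_append, rl_cons]; simp
  | cons x l ih =>
    intro Φ
    rw [List.cons_append, rl_cons, ih]
    cases l <;> simp

lemma dec_isn (ys : List ℚ) (Ψ : ℚ → List ℚ → ℚ) : dec ys (fun A x R => isn A (Ψ x R)) = lp ys Ψ := by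
  cases ys with
  | nil => rfl
  | cons y ys =>
    rw [dec_cons, dec_zero ys (fun l x r => isn (y :: l) (Ψ x r)) (fun _ _ _ _ => rfl), add_zero]
    rfl

lemma dec_rl_lp (ys : List ℚ) : ∀ (Ψ : List ℚ → ℚ → ℚ → List ℚ → ℚ),
    dec ys (fun A x R => rl A (fun A' w => Ψ A' w x R)) = dec ys (fun A' w R' => lp R' (fun x R => Ψ A' w x R)) := by
  induction ys with
  | nil => intro Ψ; rfl
  | cons y ys ih =>
    intro Ψ
    rw [dec_cons, dec_cons, rl_nil, zero_add]
    simp only [rl_cons]
    rw [dec_add, ih (fun A' w x R => Ψ (y :: A') w x R), dec_isn]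

lemma dec_lp (R : List ℚ) (Φ : ℚ → List ℚ → ℚ → List ℚ → ℚ) :
    dec R (fun M y C => lp M (fun x M' => Φ x M' y C)) = lp R (fun x R' => dec R' (fun M y C => Φ x M y C)) := by
  cases R with
  | nil => rfl
  | cons x R =>
    rw [dec_cons, lp_nil, zero_add]
    rfl

lemma nil_or_concat (A : List ℚ) : A = [] ∨ ∃ A' w, A = A' ++ [w] := by
  rcases List.eq_nil_or_concat A with h | ⟨L, b, h⟩
  · exact Or.inl h
  · exact Or.inr ⟨L, b, by rw [h, List.concat_eq_append]⟩

lemma dec_rl (R A : List ℚ) (Φ : List ℚ → ℚ → List ℚ → ℚ → List ℚ → ℚ) :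
    dec R (fun M y C => rl A (fun A' w => Φ A' w M y C)) = rl A (fun A' w => dec R (fun M y C => Φ A' w M y C)) := by
  rcases nil_or_concat A with rfl | ⟨A, w, rfl⟩
  · simp only [rl_nil]
    exact dec_zero _ _ (fun _ _ _ _ => rfl)
  · simp only [rl_concat]

lemma dec_sub (zs : List ℚ) (F G : List ℚ → ℚ → List ℚ → ℚ) :
    dec zs (fun l x r => F l x r - G l x r) = dec zs F - dec zs G := by
  have h := dec_add zs (fun l x r => F l x r - G l x r) G
  simp only [sub_add_cancel] at h
  have h' : dec zs (fun l x r => F l x r) = dec zs F := rfl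
  linarith

/-- a double sum -/
lemma RX (ys : List ℚ) (φ : List ℚ → ℚ → ℚ → List ℚ → ℚ → List ℚ → ℚ) :
    dec ys (fun A x R => dec R (fun M y C => rl A (fun A' w => φ A' w x M y C))) =
      dec ys (fun A x R => dec R (fun M y C => lp M (fun x' M' => φ A x x' M' y C))) := by
  simp only [dec_rl, dec_lp]
  exact dec_rl_lp ys (fun A' w x R => dec R (fun M y C => φ A' w x M y C))

lemma RY (ys : List ℚ) (φ : List ℚ → ℚ → List ℚ → ℚ → ℚ → List ℚ → ℚ) :
    dec ys (fun A x R => dec R (fun M y C => lp C (fun c C' => φ A x M y c C'))) =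
      dec ys (fun A x R => dec R (fun M y C => rl M (fun M' y' => φ A x M' y' y C))) := by
  apply dec_congr
  intro A x R _
  exact (dec_rl_lp R (fun M y c C' => φ A x M y c C')).symm

/-- the change of the root -/
lemma D_root (a : ℕ) (x y : ℚ) (A : List ℚ) : ∀ (p : Option ℚ) (F : List ℚ → ℚ),
    D a p A x F - D a p A y F = rl A (fun A' w => ((w - x) ^ (2 * a) - (w - y) ^ (2 * a)) * F A') := by
  induction A with
  | nil => intro p F; simp
  | cons w A ih =>
    intro p F
    rw [D_cons, D_cons, rl_cons, ← ih (some w)]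
    cases A with
    | nil => simp; ring
    | cons w' A => simp only [List.headD_cons, isn_cons]; ring

/-- the change of the parent -/
lemma D_parent (a : ℕ) (x y q : ℚ) (C : List ℚ) (F : List ℚ → ℚ) :
    D a (some y) C q F - D a (some x) C q F =
      - lp C (fun c C' => ((y - c) ^ (2 * a) - (x - c) ^ (2 * a)) * F C') := by
  cases C with
  | nil => simp
  | cons c C =>
    rw [D_cons, D_cons, lp_cons, ko_some, ko_some]
    ring

/-- the action in terms of marked points -/
def bl (H : List ℚ → ℚ) (ys : List ℚ) (q : ℚ) (K : List ℚ → ℚ) : ℚ :=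
  dec ys (fun A x R => dec R (fun M y C => H (x :: (M ++ [y])) * (K (A ++ y :: C) - K (A ++ x :: C))) +
    H (x :: (R ++ [q])) * K A)

/-- the remainder -/
def rho (a : ℕ) (H K : List ℚ → ℚ) (q : ℚ) (A : List ℚ) (x : ℚ) (M : List ℚ) (y : ℚ) (C : List ℚ) : ℚ :=
  rl A (fun A' w => H (x :: (M ++ [y])) * (((w - x) ^ (2 * a) - (w - y) ^ (2 * a)) * K (A' ++ y :: C)))
  + lp C (fun c C' => H (x :: (M ++ [y])) * (((y - c) ^ (2 * a) - (x - c) ^ (2 * a)) * K (A ++ x :: C')))
  + lp C (fun c C' => H (x :: (M ++ [y])) * (((x - c) ^ (2 * a) - (y - c) ^ (2 * a)) * K (A ++ c :: C')))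
  + isn C (H (x :: (M ++ [y])) * (((x - q) ^ (2 * a) - (y - q) ^ (2 * a)) * K A))
  + rl A (fun A' w => H (x :: (M ++ [y])) * (((w - y) ^ (2 * a) - (w - x) ^ (2 * a)) * K (A' ++ w :: C)))
  - lp M (fun x' M' => H (x' :: (M' ++ [y])) * (((x - x') ^ (2 * a) - (x - y) ^ (2 * a)) * K (A ++ y :: C)))
  + lp M (fun x' M' => H (x' :: (M' ++ [y])) * (((x - x') ^ (2 * a) - (x - y) ^ (2 * a)) * K (A ++ x :: C)))
  - rl M (fun M' y' => H (x :: (M' ++ [y'])) * (((x - y) ^ (2 * a) - (y' - y) ^ (2 * a)) * K (A ++ y :: C)))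
  + rl M (fun M' y' => H (x :: (M' ++ [y'])) * (((x - y) ^ (2 * a) - (y' - y) ^ (2 * a)) * K (A ++ x :: C)))

/-- the remainder at the root -/
def rho' (a : ℕ) (H K : List ℚ → ℚ) (q : ℚ) (A : List ℚ) (x : ℚ) (R : List ℚ) : ℚ :=
  rl A (fun A' w => H (x :: (R ++ [q])) * (((w - x) ^ (2 * a) - (w - q) ^ (2 * a)) * K A'))
  - lp R (fun x' R' => H (x' :: (R' ++ [q])) * (((x - x') ^ (2 * a) - (x - q) ^ (2 * a)) * K A))
  - rl R (fun R' y' => H (x :: (R' ++ [y'])) * (((x - q) ^ (2 * a) - (y' - q) ^ (2 * a)) * K A))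

lemma rho_zero (a : ℕ) (H K : List ℚ → ℚ) (q : ℚ) (ys : List ℚ) :
    dec ys (fun A x R => dec R (fun M y C => rho a H K q A x M y C) + rho' a H K q A x R) = 0 := by
  unfold rho rho'
  simp only [dec_add, dec_sub]
  have e1 := RX ys (fun A' w x M y C => H (x :: (M ++ [y])) *
    (((w - x) ^ (2 * a) - (w - y) ^ (2 * a)) * K (A' ++ y :: C)))
  have e2 := RX ys (fun A' w x M y C => H (x :: (M ++ [y])) *
    (((w - y) ^ (2 * a) - (w - x) ^ (2 * a)) * K (A' ++ w :: C)))
  have e3 := RY ys (fun A x M y c C' => H (x :: (M ++ [y])) *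
    (((y - c) ^ (2 * a) - (x - c) ^ (2 * a)) * K (A ++ x :: C')))
  have e4 := RY ys (fun A x M y c C' => H (x :: (M ++ [y])) *
    (((x - c) ^ (2 * a) - (y - c) ^ (2 * a)) * K (A ++ c :: C')))
  have e5 := dec_rl_lp ys (fun A' w x R => H (x :: (R ++ [q])) *
    (((w - x) ^ (2 * a) - (w - q) ^ (2 * a)) * K A'))
  have e6 : dec ys (fun A x R => dec R (fun M y C => isn C (H (x :: (M ++ [y])) *
      (((x - q) ^ (2 * a) - (y - q) ^ (2 * a)) * K A)))) =
      dec ys (fun A x R => rl R (fun R' y' => H (x :: (R' ++ [y'])) *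
        (((x - q) ^ (2 * a) - (y' - q) ^ (2 * a)) * K A))) := rfl
  -- opposite signs
  have e7 : dec ys (fun A x R => dec R (fun M y C => lp M (fun x' M' => H (x' :: (M' ++ [y])) *
      (((x - y) ^ (2 * a) - (x - x') ^ (2 * a)) * K (A ++ x :: C))))) =
      - dec ys (fun A x R => dec R (fun M y C => lp M (fun x' M' => H (x' :: (M' ++ [y])) *
      (((x - x') ^ (2 * a) - (x - y) ^ (2 * a)) * K (A ++ x :: C))))) := by
    rw [eq_neg_iff_add_eq_zero, ← dec_add]
    apply dec_zero
    intro A x R _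
    rw [← dec_add]
    apply dec_zero
    intro M y C _
    cases M with
    | nil => simp
    | cons m M => simp only [lp_cons]; ring
  have e8 : dec ys (fun A x R => dec R (fun M y C => rl M (fun M' y' => H (x :: (M' ++ [y'])) *
      (((y' - y) ^ (2 * a) - (x - y) ^ (2 * a)) * K (A ++ x :: C))))) =
      - dec ys (fun A x R => dec R (fun M y C => rl M (fun M' y' => H (x :: (M' ++ [y'])) *
      (((x - y) ^ (2 * a) - (y' - y) ^ (2 * a)) * K (A ++ x :: C))))) := by
    rw [eq_neg_iff_add_eq_zero, ← dec_add]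
    apply dec_zero
    intro A x R _
    rw [← dec_add]
    apply dec_zero
    intro M y C _
    rcases nil_or_concat M with rfl | ⟨M, m, rfl⟩
    · simp
    · simp only [rl_concat]; ring
  rw [e1, e2, e3, e4, e5, e6, e7, e8]
  ring

/-- the cyclic bracket of a block -/
lemma adf_block (a : ℕ) (H : List ℚ → ℚ) (x y : ℚ) (M : List ℚ) : adf a H (x :: (M ++ [y])) =
    ((x - M.headD y) ^ (2 * a) - (y - x) ^ (2 * a)) * H (M ++ [y]) +
      D a (some x) M y (fun M' => H (x :: (M' ++ [y]))) +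
      ((y - x) ^ (2 * a) - ko a (lastO (some x) M) y) * H (x :: M) := by
  rw [adf_cons, lastO_append, D_append]
  have h1 : (M ++ [y]).headD x = M.headD y := by cases M <;> rfl
  have h2 : D a (lastO (some x) M) [y] x (fun l => H (x :: (M ++ l))) =
      ((y - x) ^ (2 * a) - ko a (lastO (some x) M) y) * H (x :: M) := by
    rw [D_cons]
    simp only [List.headD_nil, D_nil, add_zero, List.append_nil]
  rw [h1, h2, ko_some, List.headD_cons]
  ring

lemma ko_last (a : ℕ) (y : ℚ) (A : List ℚ) (F : ℚ) : ko a (lastO none A) y * F =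
    rl A (fun _ w => (w - y) ^ (2 * a) * F) := by
  rcases nil_or_concat A with rfl | ⟨A, w, rfl⟩
  · simp [lastO]
  · rw [lastO_append, rl_concat, ko_some]

lemma D_mid (a : ℕ) (y q : ℚ) (A C : List ℚ) (K : List ℚ → ℚ) :
    D a none (A ++ y :: C) q K = D a none A y (fun A' => K (A' ++ y :: C)) +
      ((y - C.headD q) ^ (2 * a) - ko a (lastO none A) y) * K (A ++ C) +
      D a (some y) C q (fun C' => K (A ++ y :: C')) := by
  rw [D_append, D_cons, List.headD_cons]
  ring

/-- the identity for a block inside -/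
lemma point (a s : ℕ) (hs : 1 ≤ s) {H : List ℚ → ℚ} (hH : Supp (s + 1) H) (K : List ℚ → ℚ) (q : ℚ) (A : List ℚ)
    (x : ℚ) (M : List ℚ) (y : ℚ) (C : List ℚ) :
    H (x :: (M ++ [y])) * (D a none A x (fun A' => K (A' ++ y :: C)) - D a none A x (fun A' => K (A' ++ x :: C))) +
    (D a (some x) M y (fun M' => H (x :: (M' ++ [y]))) * (K (A ++ y :: C) - K (A ++ x :: C)) +
      H (x :: (M ++ [y])) * (D a (some y) C q (fun C' => K (A ++ y :: C')) -
        D a (some y) C q (fun C' => K (A ++ x :: C')))) =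
    H (x :: (M ++ [y])) * (D a none (A ++ y :: C) q K - D a none (A ++ x :: C) q K) +
    adf a H (x :: (M ++ [y])) * (K (A ++ y :: C) - K (A ++ x :: C)) + rho a H K q A x M y C := by
  rw [adf_block, D_mid, D_mid]
  have hHy : ∀ y, H [y] = 0 := fun y => hH _ (by simp; omega)
  -- the parts of the remainder
  have r1 : rl A (fun A' w => H (x :: (M ++ [y])) * (((w - x) ^ (2 * a) - (w - y) ^ (2 * a)) * K (A' ++ y :: C))) =
      H (x :: (M ++ [y])) * (D a none A x (fun A' => K (A' ++ y :: C)) - D a none A y (fun A' => K (A' ++ y :: C))) := by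
    rw [D_root]
    rcases nil_or_concat A with rfl | ⟨A, w, rfl⟩
    · simp
    · simp only [rl_concat]
  have r2 : lp C (fun c C' => H (x :: (M ++ [y])) * (((y - c) ^ (2 * a) - (x - c) ^ (2 * a)) * K (A ++ x :: C'))) =
      H (x :: (M ++ [y])) * (D a (some x) C q (fun C' => K (A ++ x :: C')) -
        D a (some y) C q (fun C' => K (A ++ x :: C'))) := by
    have h := D_parent a x y q C (fun C' => K (A ++ x :: C'))
    have h' : D a (some x) C q (fun C' => K (A ++ x :: C')) - D a (some y) C q (fun C' => K (A ++ x :: C')) =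
      lp C (fun c C' => ((y - c) ^ (2 * a) - (x - c) ^ (2 * a)) * K (A ++ x :: C')) := by linarith
    rw [h']
    cases C with
    | nil => simp
    | cons c C => simp only [lp_cons]
  have r3 : lp C (fun c C' => H (x :: (M ++ [y])) * (((x - c) ^ (2 * a) - (y - c) ^ (2 * a)) * K (A ++ c :: C'))) +
      isn C (H (x :: (M ++ [y])) * (((x - q) ^ (2 * a) - (y - q) ^ (2 * a)) * K A)) =
      H (x :: (M ++ [y])) * ((x - C.headD q) ^ (2 * a) - (y - C.headD q) ^ (2 * a)) * K (A ++ C) := by
    cases C with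
    | nil => simp; ring
    | cons c C => simp; ring
  have r4 : rl A (fun A' w => H (x :: (M ++ [y])) * (((w - y) ^ (2 * a) - (w - x) ^ (2 * a)) * K (A' ++ w :: C))) =
      H (x :: (M ++ [y])) * (ko a (lastO none A) y - ko a (lastO none A) x) * K (A ++ C) := by
    rcases nil_or_concat A with rfl | ⟨A, w, rfl⟩
    · simp [lastO]
    · simp only [rl_concat, lastO_append, ko_some, List.append_assoc, List.singleton_append]
      ring
  have r5 : ∀ T : ℚ, lp M (fun x' M' => H (x' :: (M' ++ [y])) * (((x - x') ^ (2 * a) - (x - y) ^ (2 * a)) * T)) =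
      ((x - M.headD y) ^ (2 * a) - (y - x) ^ (2 * a)) * H (M ++ [y]) * T := by
    intro T
    rw [ksymm a y x]
    cases M with
    | nil => simp [hHy]
    | cons m M => simp only [lp_cons, List.headD_cons, List.cons_append]; ring
  have r6 : ∀ T : ℚ, rl M (fun M' y' => H (x :: (M' ++ [y'])) * (((x - y) ^ (2 * a) - (y' - y) ^ (2 * a)) * T)) =
      ((y - x) ^ (2 * a) - ko a (lastO (some x) M) y) * H (x :: M) * T := by
    intro T
    rw [ksymm a y x]
    rcases nil_or_concat M with rfl | ⟨M, m, rfl⟩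
    · simp [hHy]
    · simp only [rl_concat, lastO_append, ko_some]; ring
  unfold rho
  rw [r1, r2, r4, r5, r5, r6, r6]
  linear_combination (-1 : ℚ) * r3

/-- the identity for a block at the root -/
lemma point' (a s : ℕ) (hs : 1 ≤ s) {H : List ℚ → ℚ} (hH : Supp (s + 1) H) (K : List ℚ → ℚ) (q : ℚ) (A : List ℚ)
    (x : ℚ) (R : List ℚ) :
    H (x :: (R ++ [q])) * D a none A x K + D a (some x) R q (fun R' => H (x :: (R' ++ [q]))) * K A =
    H (x :: (R ++ [q])) * D a none A q K + adf a H (x :: (R ++ [q])) * K A + rho' a H K q A x R := by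
  rw [adf_block]
  have hHy : ∀ y, H [y] = 0 := fun y => hH _ (by simp; omega)
  have r1 : rl A (fun A' w => H (x :: (R ++ [q])) * (((w - x) ^ (2 * a) - (w - q) ^ (2 * a)) * K A')) =
      H (x :: (R ++ [q])) * (D a none A x K - D a none A q K) := by
    rw [D_root]
    rcases nil_or_concat A with rfl | ⟨A, w, rfl⟩
    · simp
    · simp only [rl_concat]
  have r5 : ∀ T : ℚ, lp R (fun x' M' => H (x' :: (M' ++ [q])) * (((x - x') ^ (2 * a) - (x - q) ^ (2 * a)) * T)) =
      ((x - R.headD q) ^ (2 * a) - (q - x) ^ (2 * a)) * H (R ++ [q]) * T := by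
    intro T
    rw [ksymm a q x]
    cases R with
    | nil => simp [hHy]
    | cons m M => simp only [lp_cons, List.headD_cons, List.cons_append]; ring
  have r6 : ∀ T : ℚ, rl R (fun M' y' => H (x :: (M' ++ [y'])) * (((x - q) ^ (2 * a) - (y' - q) ^ (2 * a)) * T)) =
      ((q - x) ^ (2 * a) - ko a (lastO (some x) R) q) * H (x :: R) * T := by
    intro T
    rw [ksymm a q x]
    rcases nil_or_concat R with rfl | ⟨M, m, rfl⟩
    · simp [hHy]
    · simp only [rl_concat, lastO_append, ko_some]; ring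
  unfold rho'
  rw [r1, r5, r6]
  ring

/-- **The Jacobi identity with `f_a`**, for marked points -/
theorem jac_bl (a s : ℕ) (hs : 1 ≤ s) {H : List ℚ → ℚ} (hH : Supp (s + 1) H) (K : List ℚ → ℚ) (ys : List ℚ) (q : ℚ) :
    D a none ys q (fun l => bl H l q K) = bl H ys q (fun l => D a none l q K) + bl (adf a H) ys q K := by
  have h1 : D a none ys q (fun l => bl H l q K) = dec ys (fun A x R =>
      dec R (fun M y C =>
        H (x :: (M ++ [y])) * (D a none A x (fun A' => K (A' ++ y :: C)) - D a none A x (fun A' => K (A' ++ x :: C))) +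
        (D a (some x) M y (fun M' => H (x :: (M' ++ [y]))) * (K (A ++ y :: C) - K (A ++ x :: C)) +
        H (x :: (M ++ [y])) * (D a (some y) C q (fun C' => K (A ++ y :: C')) -
        D a (some y) C q (fun C' => K (A ++ x :: C'))))) +
      (H (x :: (R ++ [q])) * D a none A x K + D a (some x) R q (fun R' => H (x :: (R' ++ [q]))) * K A)) := by
    unfold bl
    rw [D_dec]
    apply dec_congr
    intro A x R _
    rw [D_add, D_add, D_dec_comm, D_dec, D_mul, D_mul_right]
    have e1 : (fun (M : List ℚ) (y : ℚ) (C : List ℚ) => D a none A x (fun A' =>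
        H (x :: (M ++ [y])) * (K (A' ++ y :: C) - K (A' ++ x :: C)))) = fun M y C =>
        H (x :: (M ++ [y])) * (D a none A x (fun A' => K (A' ++ y :: C)) - D a none A x (fun A' => K (A' ++ x :: C))) := by
      funext M y C
      rw [D_mul, D_sub]
    have e2 : (fun (M : List ℚ) (y : ℚ) (C : List ℚ) => D a (some x) M y (fun M' =>
        H (x :: (M' ++ [y])) * (K (A ++ y :: C) - K (A ++ x :: C))) + D a (some y) C q (fun C' =>
        H (x :: (M ++ [y])) * (K (A ++ y :: C') - K (A ++ x :: C')))) = fun M y C =>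
        (D a (some x) M y (fun M' => H (x :: (M' ++ [y]))) * (K (A ++ y :: C) - K (A ++ x :: C)) +
        H (x :: (M ++ [y])) * (D a (some y) C q (fun C' => K (A ++ y :: C')) -
        D a (some y) C q (fun C' => K (A ++ x :: C')))) := by
      funext M y C
      rw [D_mul_right, D_mul, D_sub]
    rw [e1, e2]
    simp only [dec_add]
    ring
  rw [h1]
  have h2 := rho_zero a H K q ys
  have h3 : bl H ys q (fun l => D a none l q K) + bl (adf a H) ys q K =
      bl H ys q (fun l => D a none l q K) + bl (adf a H) ys q K +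
      dec ys (fun A x R => dec R (fun M y C => rho a H K q A x M y C) + rho' a H K q A x R) := by
    rw [h2, add_zero]
  rw [h3]
  unfold bl
  rw [← dec_add, ← dec_add]
  apply dec_congr
  intro A x R _
  have e3 : ∀ (T1 T2 T3 t1 t2 t3 : ℚ), T1 + t1 + (T2 + t2) + (T3 + t3) = (T1 + T2 + T3) + (t1 + t2 + t3) := by
    intros; ring
  rw [e3, ← point' a s hs hH K q A x R, ← dec_add, ← dec_add]
  congr 1
  apply dec_congr
  intro M y C _
  rw [point a s hs hH K q A x M y C]

end Pool.Agent.D0H20.DL
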