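import Pool.Agent.D0H20.DL.Alt

/-!
# The leading coefficient with respect to the first point maps the Ihara bracket to a commutator
-/

set_option autoImplicit false

namespace Pool.Agent.D0H20.DL

open Finset Polynomial

/-- the action of `G` (depth `r`) on `H` (depth `s`) -/
def act (r s : ℕ) (G H : List ℚ → ℚ) (z : List ℚ) : ℚ :=
  ∑ j ∈ range (s + 1), G ((z.drop j).take (r + 1)) * H (z.take j ++ z.drop (j + r)) -
    ∑ j ∈ range s, G ((z.drop j).take (r + 1)) * H (z.take (j + 1) ++ z.drop (j + 1 + r))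

/-- the bracket -/
def ihara (r s : ℕ) (G H : List ℚ → ℚ) (z : List ℚ) : ℚ := act r s G H z - act s r H G z

lemma act_supp {r s : ℕ} {G H : List ℚ → ℚ} (hG : Supp (r + 1) G) (hH : Supp (s + 1) H) :
    Supp (r + s + 1) (act r s G H) := by
  intro z hz
  unfold act
  rw [sum_eq_zero, sum_eq_zero, sub_zero]
  · intro j hj
    rw [mem_range] at hj
    by_cases h : r + 1 ≤ z.length - j
    · rw [hH, mul_zero]
      rw [List.length_append, List.length_take, List.length_drop]
      omega
    · rw [hG, zero_mul]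
      rw [List.length_take, List.length_drop]
      omega
  · intro j hj
    rw [mem_range] at hj
    by_cases h : r + 1 ≤ z.length - j
    · rw [hH, mul_zero]
      rw [List.length_append, List.length_take, List.length_drop]
      omega
    · rw [hG, zero_mul]
      rw [List.length_take, List.length_drop]
      omega

lemma ihara_supp {r s : ℕ} {G H : List ℚ → ℚ} (hG : Supp (r + 1) G) (hH : Supp (s + 1) H) :
    Supp (r + s + 1) (ihara r s G H) := by
  intro z hz
  unfold ihara
  rw [act_supp hG hH z hz, act_supp hH hG z (by omega), sub_zero]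

/-- `G (x :: l)` is the polynomial `P l` in `x`, of degree at most `d` -/
structure LD (r d : ℕ) (G : List ℚ → ℚ) (P : List ℚ → ℚ[X]) : Prop where
  deg : ∀ l, (P l).natDegree ≤ d
  ev : ∀ x l, (P l).eval x = G (x :: l)
  supp : ∀ l, l.length ≠ r → P l = 0

lemma act_LD {r s d e : ℕ} (hr : 1 ≤ r) (hs : 1 ≤ s) {G H : List ℚ → ℚ} {P Q : List ℚ → ℚ[X]}
    (hG : LD r d G P) (hH : LD s e H Q) : ∃ W : List ℚ → ℚ[X],
      (∀ x l, (W l).eval x = act r s G H (x :: l)) ∧
      ∀ l, (W l + P (l.take r) * Q (l.drop r)).natDegree ≤ max d e := by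
  obtain ⟨r, rfl⟩ : ∃ r', r = r' + 1 := ⟨r - 1, by omega⟩
  obtain ⟨s, rfl⟩ : ∃ s', s = s' + 1 := ⟨s - 1, by omega⟩
  refine ⟨fun l => ∑ i ∈ range (s + 1), C (G ((l.drop i).take (r + 1 + 1))) * Q (l.take i ++ l.drop (i + (r + 1))) +
      C (H (l.drop r)) * P (l.take (r + 1)) -
    (∑ i ∈ range s, C (G ((l.drop i).take (r + 1 + 1))) * Q (l.take (i + 1) ++ l.drop (i + 1 + (r + 1))) +
      P (l.take (r + 1)) * Q (l.drop (r + 1))), ?_, ?_⟩
  · intro x l
    have e1 : ∀ i, (x :: l).drop (i + 1 + (r + 1)) = l.drop (i + (r + 1)) := by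
      intro i
      rw [show i + 1 + (r + 1) = (i + (r + 1)) + 1 by omega, List.drop_succ_cons]
    have e2 : ∀ i, (x :: l).drop (i + 1 + 1 + (r + 1)) = l.drop (i + 1 + (r + 1)) := by
      intro i
      rw [show i + 1 + 1 + (r + 1) = (i + 1 + (r + 1)) + 1 by omega, List.drop_succ_cons]
    have e3 : (x :: l).drop (1 + (r + 1)) = l.drop (r + 1) := by
      rw [show 1 + (r + 1) = (r + 1) + 1 by omega, List.drop_succ_cons]
    have h1 : act (r + 1) (s + 1) G H (x :: l) =
        (∑ i ∈ range (s + 1), G ((l.drop i).take (r + 1 + 1)) * H (x :: (l.take i ++ l.drop (i + (r + 1)))) +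
          G (x :: l.take (r + 1)) * H (l.drop r)) -
        (∑ i ∈ range s, G ((l.drop i).take (r + 1 + 1)) * H (x :: (l.take (i + 1) ++ l.drop (i + 1 + (r + 1)))) +
          G (x :: l.take (r + 1)) * H (x :: l.drop (r + 1))) := by
      unfold act
      rw [sum_range_succ' (fun j => G (((x :: l).drop j).take (r + 1 + 1)) *
          H ((x :: l).take j ++ (x :: l).drop (j + (r + 1)))) (s + 1),
        sum_range_succ' (fun j => G (((x :: l).drop j).take (r + 1 + 1)) *
          H ((x :: l).take (j + 1) ++ (x :: l).drop (j + 1 + (r + 1)))) s]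
      simp only [e1, e2, zero_add, e3, List.drop_zero, List.take_zero, List.nil_append, List.take_succ_cons,
        List.drop_succ_cons, List.cons_append]
    rw [h1]
    simp only [eval_sub, eval_add, eval_mul, eval_C, eval_finsetSum, hG.ev, hH.ev]
    ring
  · intro l
    have e1 : ∑ i ∈ range (s + 1), C (G ((l.drop i).take (r + 1 + 1))) * Q (l.take i ++ l.drop (i + (r + 1))) +
      C (H (l.drop r)) * P (l.take (r + 1)) -
    (∑ i ∈ range s, C (G ((l.drop i).take (r + 1 + 1))) * Q (l.take (i + 1) ++ l.drop (i + 1 + (r + 1))) +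
      P (l.take (r + 1)) * Q (l.drop (r + 1))) + P (l.take (r + 1)) * Q (l.drop (r + 1)) =
      ∑ i ∈ range (s + 1), C (G ((l.drop i).take (r + 1 + 1))) * Q (l.take i ++ l.drop (i + (r + 1))) +
      C (H (l.drop r)) * P (l.take (r + 1)) -
    ∑ i ∈ range s, C (G ((l.drop i).take (r + 1 + 1))) * Q (l.take (i + 1) ++ l.drop (i + 1 + (r + 1))) := by
      ring
    have hC : ∀ (c : ℚ) (p : ℚ[X]) (n : ℕ), p.natDegree ≤ n → (C c * p).natDegree ≤ n :=
      fun c p n h => (natDegree_C_mul_le c p).trans h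
    rw [e1]
    refine (natDegree_sub_le _ _).trans (max_le ((natDegree_add_le _ _).trans (max_le ?_ ?_)) ?_)
    · exact natDegree_sum_le_of_forall_le _ _ (fun i _ => hC _ _ _ ((hH.deg _).trans (le_max_right _ _)))
    · exact hC _ _ _ ((hG.deg _).trans (le_max_left _ _))
    · exact natDegree_sum_le_of_forall_le _ _ (fun i _ => hC _ _ _ ((hH.deg _).trans (le_max_right _ _)))

lemma ihara_LD {r s d e : ℕ} (hr : 1 ≤ r) (hs : 1 ≤ s) (hd : 1 ≤ d) (he : 1 ≤ e) {G H : List ℚ → ℚ}
    {P Q : List ℚ → ℚ[X]} (hG : LD r d G P) (hH : LD s e H Q) (sG : Supp (r + 1) G) (sH : Supp (s + 1) H) :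
    ∃ W : List ℚ → ℚ[X], LD (r + s) (d + e) (ihara r s G H) W ∧
      ∀ l, (W l + P (l.take r) * Q (l.drop r) - Q (l.take s) * P (l.drop s)).natDegree ≤ max d e := by
  obtain ⟨W1, h1, h2⟩ := act_LD hr hs hG hH
  obtain ⟨W2, h3, h4⟩ := act_LD hs hr hH hG
  have h5 : ∀ l, ((W1 l - W2 l) + P (l.take r) * Q (l.drop r) - Q (l.take s) * P (l.drop s)).natDegree ≤ max d e := by
    intro l
    have : (W1 l - W2 l) + P (l.take r) * Q (l.drop r) - Q (l.take s) * P (l.drop s) =
        (W1 l + P (l.take r) * Q (l.drop r)) - (W2 l + Q (l.take s) * P (l.drop s)) := by ring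
    rw [this]
    refine (natDegree_sub_le _ _).trans (max_le (h2 l) ?_)
    rw [max_comm]
    exact h4 l
  have hev : ∀ x l, (W1 l - W2 l).eval x = ihara r s G H (x :: l) := by
    intro x l
    rw [eval_sub, h1, h3]
    rfl
  refine ⟨fun l => W1 l - W2 l, ⟨?_, hev, ?_⟩, h5⟩
  · intro l
    have : W1 l - W2 l = ((W1 l - W2 l) + P (l.take r) * Q (l.drop r) - Q (l.take s) * P (l.drop s)) -
        (P (l.take r) * Q (l.drop r) - Q (l.take s) * P (l.drop s)) := by ring
    rw [this]
    refine (natDegree_sub_le _ _).trans (max_le ((h5 l).trans (by omega)) ((natDegree_sub_le _ _).trans (max_le ?_ ?_)))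
    · exact natDegree_mul_le.trans (add_le_add (hG.deg _) (hH.deg _))
    · exact natDegree_mul_le.trans (by rw [add_comm d e]; exact add_le_add (hH.deg _) (hG.deg _))
  · intro l hl
    apply Polynomial.funext
    intro x
    rw [hev, eval_zero]
    exact ihara_supp sG sH _ (by rw [List.length_cons]; omega)

/-- the leading coefficient of the bracket -/
lemma ihara_coeff {r s d e : ℕ} (hd : 1 ≤ d) (he : 1 ≤ e) {P Q W : List ℚ → ℚ[X]}
    (hP : ∀ l, (P l).natDegree ≤ d) (hQ : ∀ l, (Q l).natDegree ≤ e)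
    (hW : ∀ l, (W l + P (l.take r) * Q (l.drop r) - Q (l.take s) * P (l.drop s)).natDegree ≤ max d e) (l : List ℚ) :
    (W l).coeff (d + e) = (Q (l.take s)).coeff e * (P (l.drop s)).coeff d -
      (P (l.take r)).coeff d * (Q (l.drop r)).coeff e := by
  have h1 : (W l + P (l.take r) * Q (l.drop r) - Q (l.take s) * P (l.drop s)).coeff (d + e) = 0 :=
    coeff_eq_zero_of_natDegree_lt (lt_of_le_of_lt (hW l) (by omega))
  rw [coeff_sub, coeff_add, coeff_mul_add_eq_of_natDegree_le (hP _) (hQ _), add_comm d e,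
    coeff_mul_add_eq_of_natDegree_le (hQ _) (hP _), add_comm e d] at h1
  linarith

lemma coeff_mul_second {p q : ℚ[X]} {d e : ℕ} (hp : p.natDegree ≤ d + 1) (hq : q.natDegree ≤ e + 1) :
    (p * q).coeff (d + e + 1) = p.coeff (d + 1) * q.coeff e + p.coeff d * q.coeff (e + 1) := by
  rw [coeff_mul]
  have hsub : ({(d + 1, e), (d, e + 1)} : Finset (ℕ × ℕ)) ⊆ antidiagonal (d + e + 1) := by
    intro x hx
    simp only [mem_insert, mem_singleton] at hx
    rw [Finset.HasAntidiagonal.mem_antidiagonal]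
    rcases hx with rfl | rfl <;> simp <;> omega
  rw [← sum_subset hsub, sum_pair (by intro h; rw [Prod.mk.injEq] at h; omega)]
  intro x hx hx'
  rw [Finset.HasAntidiagonal.mem_antidiagonal] at hx
  simp only [mem_insert, mem_singleton, not_or, Prod.ext_iff, not_and] at hx'
  by_cases h1 : d + 1 < x.1
  · rw [coeff_eq_zero_of_natDegree_lt (lt_of_le_of_lt hp h1), zero_mul]
  · by_cases h2 : e + 1 < x.2
    · rw [coeff_eq_zero_of_natDegree_lt (lt_of_le_of_lt hq h2), mul_zero]
    · exfalso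
      by_cases h3 : x.1 = d + 1
      · exact hx'.1 h3 (by omega)
      · exact hx'.2 (by omega) (by omega)

/-- the second coefficient of the bracket -/
lemma ihara_coeff' {r s d e : ℕ} (hd : 1 ≤ d) (he : 1 ≤ e) {P Q W : List ℚ → ℚ[X]}
    (hP : ∀ l, (P l).natDegree ≤ d + 1) (hQ : ∀ l, (Q l).natDegree ≤ e + 1)
    (hW : ∀ l, (W l + P (l.take r) * Q (l.drop r) - Q (l.take s) * P (l.drop s)).natDegree ≤
      max (d + 1) (e + 1)) (l : List ℚ) :
    (W l).coeff (d + e + 1) =
      ((Q (l.take s)).coeff (e + 1) * (P (l.drop s)).coeff d + (Q (l.take s)).coeff e * (P (l.drop s)).coeff (d + 1)) -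
      ((P (l.take r)).coeff (d + 1) * (Q (l.drop r)).coeff e + (P (l.take r)).coeff d * (Q (l.drop r)).coeff (e + 1)) := by
  have h1 : (W l + P (l.take r) * Q (l.drop r) - Q (l.take s) * P (l.drop s)).coeff (d + e + 1) = 0 :=
    coeff_eq_zero_of_natDegree_lt (lt_of_le_of_lt (hW l) (by omega))
  rw [coeff_sub, coeff_add, coeff_mul_second (hP _) (hQ _), add_comm d e,
    coeff_mul_second (hQ _) (hP _), add_comm e d] at h1
  linarith

end Pool.Agent.D0H20.DL
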