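import Pool.Agent.D0H20.DL.Ad

/-!
# The bracket with `f_a` preserves the cyclic polynomials with the shuffle relations
-/

set_option autoImplicit false

namespace Pool.Agent.D0H20.DL

open Finset Pool.Agent.D0H20.BK

lemma shuf_eq_sh (n : ℕ) : ∀ (ys zs : List ℚ) (_ : ys.length + zs.length = n) (G : List ℚ → ℚ),
    shuf ys zs G = sh ys zs G := by
  induction n using Nat.strong_induction_on with
  | _ n ih =>
  intro ys zs h G
  match ys, zs, h with
  | [], zs, _ => simp
  | y :: ys, [], _ => simp
  | y :: ys, z :: zs, h =>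
    simp only [List.length_cons] at h
    rw [shuf_cons_cons, sh_cons_cons, ih (n - 1) (by omega) ys (z :: zs) (by simp; omega),
      ih (n - 1) (by omega) (y :: ys) zs (by simp; omega)]

/-- the last point of a shuffle -/
lemma shuf_snoc (n : ℕ) : ∀ (ys zs : List ℚ) (_ : ys.length + zs.length = n) (y z : ℚ) (G : List ℚ → ℚ),
    shuf (ys ++ [y]) (zs ++ [z]) G = shuf ys (zs ++ [z]) (fun l => G (l ++ [y])) +
      shuf (ys ++ [y]) zs (fun l => G (l ++ [z])) := by
  induction n using Nat.strong_induction_on with
  | _ n ih =>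
  intro ys zs h y z G
  match ys, zs, h with
  | [], [], _ =>
    simp only [List.nil_append]
    rw [shuf_cons_cons]
    simp only [shuf_nil_left, shuf_nil_right, List.singleton_append]
    ring
  | [], z0 :: zs, h =>
    simp only [List.length_cons, List.length_nil] at h
    have h1 := ih (n - 1) (by omega) [] zs (by simp; omega) y z (fun l => G (z0 :: l))
    simp only [List.nil_append, List.cons_append] at h1 ⊢
    rw [shuf_cons_cons, h1, shuf_cons_cons]
    simp only [shuf_nil_left, List.cons_append]
    ring
  | y0 :: ys, [], h =>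
    simp only [List.length_cons, List.length_nil] at h
    have h1 := ih (n - 1) (by omega) ys [] (by simp; omega) y z (fun l => G (y0 :: l))
    simp only [List.nil_append, List.cons_append] at h1 ⊢
    rw [shuf_cons_cons, h1, shuf_cons_cons]
    simp only [shuf_nil_right, List.cons_append]
    ring
  | y0 :: ys, z0 :: zs, h =>
    simp only [List.length_cons] at h
    have h1 := ih (n - 1) (by omega) ys (z0 :: zs) (by simp; omega) y z (fun l => G (y0 :: l))
    have h2 := ih (n - 1) (by omega) (y0 :: ys) zs (by simp; omega) y z (fun l => G (z0 :: l))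
    simp only [List.cons_append] at h1 h2 ⊢
    rw [shuf_cons_cons, h1, h2, shuf_cons_cons, shuf_cons_cons]
    simp only [List.cons_append]
    ring

lemma getLast_lastO (l : List ℚ) : ∀ x : ℚ, (x :: l).getLast? = lastO (some x) l := by
  induction l with
  | nil => intro x; rfl
  | cons y l ih => intro x; rw [List.getLast?_cons_cons]; exact ih y

lemma adf_cons (a : ℕ) (F : List ℚ → ℚ) (x : ℚ) (l : List ℚ) : adf a F (x :: l) =
    ((x - l.headD x) ^ (2 * a) - ko a (lastO (some x) l) x) * F l + D a (some x) l x (fun m => F (x :: m)) := by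
  unfold adf
  rw [getLast_lastO, List.headD_cons, D_cons]

lemma adf_cyc (a : ℕ) {F : List ℚ → ℚ} (hF : ∀ (x : ℚ) (l : List ℚ), F (l ++ [x]) = F (x :: l)) (x : ℚ)
    (l : List ℚ) : adf a F (l ++ [x]) = adf a F (x :: l) := by
  match l with
  | [] => rfl
  | y :: l =>
    rw [adf_cons]
    have h1 : adf a F ((y :: l) ++ [x]) = D a (some x) ((y :: l) ++ [x]) y F := by
      unfold adf
      rw [List.getLast?_append, List.getLast?_singleton]
      rfl
    have h2 : D a (lastO (some x) (y :: l)) [x] y (fun m => F (y :: l ++ m)) =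
        ((x - y) ^ (2 * a) - ko a (lastO (some x) (y :: l)) x) * F (y :: l) := by
      rw [D_cons]
      simp only [List.headD_nil, D_nil, add_zero, List.append_nil]
    rw [h1, D_append, h2]
    simp only [List.headD_cons, hF]
    ring

lemma adf_alt (a s : ℕ) {F : List ℚ → ℚ} (hcyc : ∀ (x : ℚ) (l : List ℚ), F (l ++ [x]) = F (x :: l))
    (halt : ∀ (x : ℚ) (ys zs : List ℚ), ys ≠ [] → zs ≠ [] → ys.length + zs.length = s →
      shuf ys zs (fun l => F (x :: l)) = 0) (x : ℚ) (ys zs : List ℚ) (hys : ys ≠ []) (hzs : zs ≠ [])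
    (h : ys.length + zs.length = s + 1) : shuf ys zs (fun l => adf a F (x :: l)) = 0 := by
  have hpos : 1 ≤ ys.length ∧ 1 ≤ zs.length :=
    ⟨List.length_pos_iff.2 hys, List.length_pos_iff.2 hzs⟩
  -- the action
  have hD : ∀ (ys zs : List ℚ), zs ≠ [] → ys.length + zs.length = s + 1 →
      D a (some x) ys x (fun l => shuf l zs (fun m => F (x :: m))) = 0 := by
    intro ys zs hzs h
    match ys, h with
    | [], _ => rfl
    | [y], _ =>
      rw [D_cons]
      simp only [List.headD_nil, D_nil, add_zero, ko_some]
      rw [ksymm a x y, sub_self, zero_mul]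
    | y :: y' :: ys, h =>
      simp only [List.length_cons] at h
      rw [D_congr a _ _ _ _ (fun _ => 0) (fun l hl _ => ?_), D_zero]
      simp only [List.length_cons] at hl
      apply halt x l zs _ hzs (by omega)
      intro h0
      rw [h0] at hl
      simp at hl
  have hpart2 : shuf ys zs (fun l => D a (some x) l x (fun m => F (x :: m))) = 0 := by
    rw [shuf_eq_sh _ ys zs rfl, sh_D a x _ ys zs rfl]
    have e1 : (fun l => sh l zs (fun m => F (x :: m))) = fun l => shuf l zs (fun m => F (x :: m)) := by
      funext l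
      rw [shuf_eq_sh _ l zs rfl]
    have e2 : (fun l => sh ys l (fun m => F (x :: m))) = fun l => shuf l ys (fun m => F (x :: m)) := by
      funext l
      rw [shuf_eq_sh _ l ys rfl, sh_comm _ ys l rfl]
    rw [e1, e2, hD ys zs hzs h, hD zs ys hys (by omega), add_zero]
  have key : ∀ (ys zs : List ℚ) (y y2 : ℚ) (ys' ys2 : List ℚ), ys = y :: ys' → ys = ys2 ++ [y2] → zs ≠ [] →
      ys.length + zs.length = s + 1 →
      (x - y) ^ (2 * a) * shuf ys' zs (fun l => F (y :: l)) =
        (y2 - x) ^ (2 * a) * shuf ys2 zs (fun l => F (y2 :: l)) := by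
    intro ys zs y y2 ys' ys2 h1 h2 hzs h
    match ys' with
    | [] =>
      have h3 : ys2 = [] := by
        have h4 : ys.length = 1 := by rw [h1]; rfl
        rw [h2, List.length_append] at h4
        exact List.length_eq_zero_iff.1 (by simpa using h4)
      have h4 : y2 = y := by
        rw [h1, h3] at h2
        simpa using h2.symm
      rw [h3, h4, ksymm a x y]
    | y' :: ys' =>
      have h3 : ys.length = ys'.length + 2 := by rw [h1]; simp
      have h4 : ys2.length = ys'.length + 1 := by
        rw [h2, List.length_append, List.length_singleton] at h3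
        omega
      rw [halt y (y' :: ys') zs (by simp) hzs (by rw [List.length_cons]; omega),
        halt y2 ys2 zs (by intro h0; rw [h0] at h4; simp at h4) hzs (by omega), mul_zero, mul_zero]
  -- the boundary
  have hpart1 : shuf ys zs (fun l => (x - l.headD x) ^ (2 * a) * F l) =
      shuf ys zs (fun l => (l.getLastD x - x) ^ (2 * a) * F l) := by
    obtain ⟨y, ys', hy⟩ := List.exists_cons_of_ne_nil hys
    obtain ⟨z, zs', hz⟩ := List.exists_cons_of_ne_nil hzs
    obtain ⟨ys2, y2, hy2⟩ : ∃ ys2 y2, ys = ys2 ++ [y2] := by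
      rcases List.eq_nil_or_concat ys with h0 | ⟨L, b, h0⟩
      · exact absurd h0 hys
      · exact ⟨L, b, by rw [h0, List.concat_eq_append]⟩
    obtain ⟨zs2, z2, hz2⟩ : ∃ zs2 z2, zs = zs2 ++ [z2] := by
      rcases List.eq_nil_or_concat zs with h0 | ⟨L, b, h0⟩
      · exact absurd h0 hzs
      · exact ⟨L, b, by rw [h0, List.concat_eq_append]⟩
    have h1 : shuf ys zs (fun l => (x - l.headD x) ^ (2 * a) * F l) =
        (x - y) ^ (2 * a) * shuf ys' zs (fun l => F (y :: l)) +
          (x - z) ^ (2 * a) * shuf zs' ys (fun l => F (z :: l)) := by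
      rw [shuf_eq_sh _ zs' ys rfl, sh_comm _ zs' ys rfl, ← shuf_eq_sh _ ys zs' rfl]
      rw [← shuf_mul, ← shuf_mul]
      conv_lhs => rw [hy, hz, shuf_cons_cons]
      simp only [List.headD_cons]
      rw [hz, hy]
    have h2 : shuf ys zs (fun l => (l.getLastD x - x) ^ (2 * a) * F l) =
        (y2 - x) ^ (2 * a) * shuf ys2 zs (fun l => F (y2 :: l)) +
          (z2 - x) ^ (2 * a) * shuf zs2 ys (fun l => F (z2 :: l)) := by
      rw [shuf_eq_sh _ zs2 ys rfl, sh_comm _ zs2 ys rfl, ← shuf_eq_sh _ ys zs2 rfl]
      rw [← shuf_mul, ← shuf_mul]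
      conv_lhs => rw [hy2, hz2, shuf_snoc _ ys2 zs2 rfl]
      have h3 : ∀ (l : List ℚ) (t : ℚ), (l ++ [t]).getLastD x = t := by
        intro l t
        simp
      simp only [h3, hcyc]
      rw [hz2, hy2]
    rw [h1, h2, key ys zs y y2 ys' ys2 hy hy2 hzs h, key zs ys z z2 zs' zs2 hz hz2 hys (by omega)]
  have hmain : shuf ys zs (fun l => adf a F (x :: l)) =
      shuf ys zs (fun l => ((x - l.headD x) ^ (2 * a) * F l + (-1) * ((l.getLastD x - x) ^ (2 * a) * F l)) +
        1 * D a (some x) l x (fun m => F (x :: m))) := by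
    apply shuf_congr _ ys zs rfl
    intro l hl
    rw [adf_cons]
    have h1 : ko a (lastO (some x) l) x = (l.getLastD x - x) ^ (2 * a) := by
      rw [← getLast_lastO]
      match l, hl with
      | [], hl => simp only [List.length_nil] at hl; omega
      | y :: l, _ =>
        rw [List.getLast?_cons_cons, List.getLast?_eq_getLast_of_ne_nil (by simp), List.getLast_eq_getLastD,
          List.getLastD_cons]
        rfl
    rw [h1]
    ring
  rw [hmain, shuf_lin 1 _ ys zs rfl, shuf_lin (-1) _ ys zs rfl, hpart1, hpart2]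
  ring

/-- **The bracket with `f_a`.** -/
theorem Dih.ad {s E : ℕ} {F : List ℚ → ℚ} (hF : Dih s E F) (a : ℕ) : Dih (s + 1) (E + 2 * a) (adf a F) := by
  constructor
  · intro z hz
    unfold adf
    rw [D_congr a z _ _ F (fun _ => 0) (fun l hl _ => hF.supp l (by omega)), D_zero]
  · obtain ⟨p, hp⟩ := hF.poly
    exact adf_poly a s hp
  · intro c z
    have h := adf_aff a 1 c 1 F (fun l => by
      have h1 := hF.trans c l
      rw [one_mul, ← h1]
      congr 2
      funext x
      ring) z
    rw [one_pow, one_mul, one_mul] at h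
    rw [← h]
    congr 2
    funext x
    ring
  · intro t z
    have h := adf_aff a t 0 (t ^ E) F (fun l => by
      have h1 := hF.hom t l
      rw [← h1]
      congr 2
      funext x
      ring) z
    rw [← pow_add, add_comm (2 * a) E] at h
    rw [← h]
    congr 2
    funext x
    ring
  · intro x l
    exact adf_cyc a hF.cyc x l
  · intro x ys zs h1 h2 h3
    exact adf_alt a s hF.cyc hF.shuf x ys zs h1 h2 h3

/-- the elements of depth one -/
theorem Dih.one (b : ℕ) : Dih 1 (2 * b) (fa b) := by
  constructor
  · exact fa_supp b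
  · refine ⟨(MvPolynomial.X 0 - MvPolynomial.X 1) ^ (2 * b), ?_⟩
    intro z hz
    match z, hz with
    | [x, y], _ => simp [fa]
  · intro c z
    match z with
    | [] => rfl
    | [x] => rfl
    | [x, y] =>
      show (x + c - (y + c)) ^ (2 * b) = (x - y) ^ (2 * b)
      congr 1
      ring
    | _ :: _ :: _ :: _ => rfl
  · intro t z
    match z with
    | [] => simp [fa]
    | [x] => simp [fa]
    | [x, y] =>
      show (t * x - t * y) ^ (2 * b) = t ^ (2 * b) * (x - y) ^ (2 * b)
      rw [← mul_pow]
      congr 1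
      ring
    | _ :: _ :: _ :: _ => simp [fa]
  · intro x l
    match l with
    | [] => rfl
    | [y] => exact ksymm b y x
    | _ :: _ :: l =>
      rw [fa_supp b _ (by simp), fa_supp b _ (by simp)]
  · intro x ys zs h1 h2 h3
    have := List.length_pos_iff.2 h1
    have := List.length_pos_iff.2 h2
    omega

end Pool.Agent.D0H20.DL
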