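import Pool.Agent.D0H20.DL.Jac

/-!
# The action is a representation; closure under the bracket
-/

set_option autoImplicit false

namespace Pool.Agent.D0H20.DL

open Finset Pool.Agent.D0H20.BK

lemma dec_sum (ys : List ℚ) : ∀ (G : List ℚ → ℚ → List ℚ → ℚ),
    dec ys G = ∑ j ∈ range ys.length, G (ys.take j) (ys.getD j 0) (ys.drop (j + 1)) := by
  induction ys with
  | nil => intro G; simp
  | cons y ys ih =>
    intro G
    rw [dec_cons, ih, List.length_cons, sum_range_succ']
    simp only [List.take_succ_cons, List.getD_cons_succ, List.drop_succ_cons, List.take_zero, List.getD_cons_zero,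
      List.drop_zero]
    ring

lemma drop_getD (R : List ℚ) (i : ℕ) (h : i < R.length) : R.drop i = R.getD i 0 :: R.drop (i + 1) := by
  rw [List.drop_eq_getElem_cons h, List.getD_eq_getElem _ _ h]

lemma take_getD (R : List ℚ) (i : ℕ) (h : i < R.length) : R.take (i + 1) = R.take i ++ [R.getD i 0] := by
  rw [List.take_succ_eq_append_getElem h, List.getD_eq_getElem _ _ h]

/-- the action and marked points -/
lemma act_bl {r s : ℕ} (hr : 1 ≤ r) {H K : List ℚ → ℚ} (hH : Supp (r + 1) H) (hK : Supp (s + 1) K) (ys : List ℚ)
    (q : ℚ) : act r s H K (ys ++ [q]) = bl H ys q (fun l => K (l ++ [q])) := by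
  by_cases hys : ys.length = r + s
  · obtain ⟨r, rfl⟩ : ∃ r', r = r' + 1 := ⟨r - 1, by omega⟩
    unfold bl
    rw [dec_sum, hys]
    -- the terms
    have hT : ∀ j ∈ range (r + 1 + s), dec (ys.drop (j + 1)) (fun M y C =>
        H (ys.getD j 0 :: (M ++ [y])) * (K (ys.take j ++ y :: C ++ [q]) - K (ys.take j ++ ys.getD j 0 :: C ++ [q]))) +
        H (ys.getD j 0 :: (ys.drop (j + 1) ++ [q])) * K (ys.take j ++ [q]) =
        (if j < s + 1 then H (((ys ++ [q]).drop j).take (r + 1 + 1)) *
          K ((ys ++ [q]).take j ++ (ys ++ [q]).drop (j + (r + 1))) else 0) -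
        (if j < s then H (((ys ++ [q]).drop j).take (r + 1 + 1)) *
          K ((ys ++ [q]).take (j + 1) ++ (ys ++ [q]).drop (j + 1 + (r + 1))) else 0) := by
      intro j hj
      rw [mem_range] at hj
      have hjl : j < ys.length := by omega
      have e0 : (ys ++ [q]).take j = ys.take j := List.take_append_of_le_length (by omega)
      have e1 : (ys ++ [q]).drop j = ys.getD j 0 :: (ys.drop (j + 1) ++ [q]) := by
        rw [List.drop_append_of_le_length (by omega), drop_getD ys j hjl, List.cons_append]
      by_cases h1 : j < s
      · rw [if_pos (by omega), if_pos h1]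
        set R := ys.drop (j + 1) with hR
        have hRl : R.length = ys.length - (j + 1) := by rw [hR, List.length_drop]
        have hrR : r < R.length := by omega
        have e2 : (R ++ [q]).take (r + 1) = R.take r ++ [R.getD r 0] := by
          rw [List.take_append_of_le_length (by omega), take_getD R r hrR]
        have e3 : (ys ++ [q]).drop (j + (r + 1)) = R.getD r 0 :: R.drop (r + 1) ++ [q] := by
          rw [← drop_getD R r hrR, hR, List.drop_drop, show j + 1 + r = j + (r + 1) by omega,
            List.drop_append_of_le_length (by omega)]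
        have e4 : (ys ++ [q]).take (j + 1) = ys.take j ++ [ys.getD j 0] := by
          rw [List.take_append_of_le_length (by omega), take_getD ys j hjl]
        have e5 : (ys ++ [q]).drop (j + 1 + (r + 1)) = R.drop (r + 1) ++ [q] := by
          rw [hR, List.drop_drop, List.drop_append_of_le_length (by omega)]
        have h2 : dec R (fun M y C => H (ys.getD j 0 :: (M ++ [y])) * (K (ys.take j ++ y :: C ++ [q]) -
            K (ys.take j ++ ys.getD j 0 :: C ++ [q]))) =
            H (ys.getD j 0 :: (R.take r ++ [R.getD r 0])) * (K (ys.take j ++ R.getD r 0 :: R.drop (r + 1) ++ [q]) -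
            K (ys.take j ++ ys.getD j 0 :: R.drop (r + 1) ++ [q])) := by
          rw [dec_sum, sum_eq_single_of_mem r (mem_range.2 hrR)]
          intro i hi hir
          rw [mem_range] at hi
          rw [hH, zero_mul]
          simp only [List.length_cons, List.length_append, List.length_take, List.length_nil]
          omega
        have h3 : H (ys.getD j 0 :: (R ++ [q])) = 0 := by
          apply hH
          simp only [List.length_cons, List.length_append, List.length_nil]
          omega
        rw [h2, h3, e0, e1, List.take_succ_cons, e2, e3, e4, e5]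
        simp only [List.append_assoc, List.cons_append, List.nil_append]
        ring
      · rw [if_neg h1, sub_zero]
        have h2 : dec (ys.drop (j + 1)) (fun M y C => H (ys.getD j 0 :: (M ++ [y])) *
            (K (ys.take j ++ y :: C ++ [q]) - K (ys.take j ++ ys.getD j 0 :: C ++ [q]))) = 0 := by
          apply dec_zero
          intro M y C hM
          have h3 := congrArg List.length hM
          rw [List.length_drop, List.length_append, List.length_cons] at h3
          rw [hH, zero_mul]
          simp only [List.length_cons, List.length_append, List.length_nil]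
          omega
        rw [h2, zero_add]
        by_cases h3 : j = s
        · rw [if_pos (by omega)]
          have e2 : (ys.drop (j + 1) ++ [q]).take (r + 1) = ys.drop (j + 1) ++ [q] := by
            apply List.take_of_length_le
            rw [List.length_append, List.length_drop, List.length_singleton]
            omega
          have e3 : (ys ++ [q]).drop (j + (r + 1)) = [q] := by
            apply List.drop_left'
            omega
          rw [e0, e1, List.take_succ_cons, e2, e3]
        · rw [if_neg (by omega), hH, zero_mul]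
          simp only [List.length_cons, List.length_append, List.length_drop, List.length_nil]
          omega
    rw [sum_congr rfl hT, sum_sub_distrib, ← sum_filter, ← sum_filter]
    have f1 : (range (r + 1 + s)).filter (fun j => j < s + 1) = range (s + 1) := by
      ext j; simp only [mem_filter, mem_range]; omega
    have f2 : (range (r + 1 + s)).filter (fun j => j < s) = range s := by
      ext j; simp only [mem_filter, mem_range]; omega
    rw [f1, f2]
    rfl
  · rw [act_supp hH hK _ (by rw [List.length_append, List.length_singleton]; omega)]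
    symm
    unfold bl
    apply dec_zero
    intro A x R hA
    have h1 := congrArg List.length hA
    rw [List.length_append, List.length_cons] at h1
    have h2 : dec R (fun M y C => H (x :: (M ++ [y])) * (K (A ++ y :: C ++ [q]) - K (A ++ x :: C ++ [q]))) = 0 := by
      apply dec_zero
      intro M y C hM
      have h3 := congrArg List.length hM
      rw [List.length_append, List.length_cons] at h3
      by_cases h4 : M.length + 1 = r
      · rw [hK, hK, sub_self, mul_zero]
        · simp only [List.length_cons, List.length_append, List.length_nil]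
          omega
        · simp only [List.length_cons, List.length_append, List.length_nil]
          omega
      · rw [hH, zero_mul]
        simp only [List.length_cons, List.length_append, List.length_nil]
        omega
    rw [h2, zero_add]
    by_cases h4 : R.length + 1 = r
    · show _ * K (A ++ [q]) = 0
      rw [hK, mul_zero]
      simp only [List.length_append, List.length_singleton]
      omega
    · rw [hH, zero_mul]
      simp only [List.length_cons, List.length_append, List.length_nil]
      omega

/-- the action of `f_a` -/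
lemma act_fa (a s : ℕ) {K : List ℚ → ℚ} (hK : Supp (s + 1) K) (ys : List ℚ) (q : ℚ) :
    act 1 s (fa a) K (ys ++ [q]) = D a none ys q (fun l => K (l ++ [q])) := by
  by_cases hys : ys.length = s + 1
  · obtain ⟨y, hy⟩ : ∃ y : ℕ → ℚ, lst (s + 2) y = ys ++ [q] :=
      ⟨fun i => (ys ++ [q]).getD i 0, by
        have h := lst_getD (ys ++ [q])
        rwa [List.length_append, hys, List.length_singleton] at h⟩
    have hyq : ys = lst (s + 1) y ∧ q = y (s + 1) := by
      rw [lst_snoc (s + 1) y] at hy
      have h := List.append_inj' hy rfl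
      exact ⟨h.1.symm, by simpa using h.2.symm⟩
    obtain ⟨rfl, rfl⟩ := hyq
    have hk : ∀ j ≤ s, fa a (((lst (s + 2) y).drop j).take 2) = (y j - y (j + 1)) ^ (2 * a) := by
      intro j hj
      obtain ⟨k, hk⟩ : ∃ k, s + 2 = j + (k + 2) := ⟨s - j, by omega⟩
      rw [hk, lst_drop, lst_succ, lst_succ]
      show (y (0 + j) - y (0 + 1 + j)) ^ (2 * a) = _
      rw [Nat.zero_add, show 0 + 1 + j = j + 1 by omega]
    have he : ∀ j, (lst (s + 2) y).take j ++ (lst (s + 2) y).drop (j + 1) = (lst (s + 2) y).eraseIdx j := by
      intro j
      rw [List.eraseIdx_eq_take_drop_succ]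
    have he2 : ∀ j < s + 1, (lst (s + 2) y).eraseIdx j = (lst (s + 1) y).eraseIdx j ++ [y (s + 1)] := by
      intro j hj
      rw [lst_snoc (s + 1) y, List.eraseIdx_append_of_lt_length (by simpa using hj)]
    rw [← lst_snoc (s + 1) y, D_ci, ko_none, zero_mul, sub_zero]
    unfold act
    have h1 : ∑ j ∈ range (s + 1), fa a (((lst (s + 1 + 1) y).drop j).take (1 + 1)) *
        K ((lst (s + 1 + 1) y).take j ++ (lst (s + 1 + 1) y).drop (j + 1)) =
        ∑ j ∈ range (s + 1), (y j - y (j + 1)) ^ (2 * a) * K ((lst (s + 1) y).eraseIdx j ++ [y (s + 1)]) := by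
      apply sum_congr rfl
      intro j hj
      rw [mem_range] at hj
      rw [hk j (by omega), he, he2 j hj]
    have h2 : ∑ j ∈ range s, fa a (((lst (s + 1 + 1) y).drop j).take (1 + 1)) *
        K ((lst (s + 1 + 1) y).take (j + 1) ++ (lst (s + 1 + 1) y).drop (j + 1 + 1)) =
        ∑ j ∈ range s, (y j - y (j + 1)) ^ (2 * a) * K ((lst (s + 1) y).eraseIdx (j + 1) ++ [y (s + 1)]) := by
      apply sum_congr rfl
      intro j hj
      rw [mem_range] at hj
      rw [hk j (by omega), he, he2 (j + 1) (by omega)]
    have h3 : (lst (s + 1) y).eraseIdx s = lst s y := by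
      rw [List.eraseIdx_eq_take_drop_succ, lst_take 1 s y, List.drop_of_length_le (by simp), List.append_nil]
    rw [h1, h2, sum_range_succ, h3]
    simp only [mul_sub, sum_sub_distrib]
    ring
  · rw [act_supp (fa_supp a) hK _ (by rw [List.length_append, List.length_singleton]; omega)]
    symm
    rw [D_congr a ys q none _ (fun _ => 0) (fun l hl _ => hK _ (by
      rw [List.length_append, List.length_singleton]; omega)), D_zero]

/-- the action of `G` (depth `r`) respects the bracket with everything -/
def RepAt (r : ℕ) (G : List ℚ → ℚ) : Prop :=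
  ∀ (s t : ℕ) (H K : List ℚ → ℚ), 1 ≤ s → Supp (s + 1) H → Supp (t + 1) K → ∀ z : List ℚ,
    act (r + s) t (ihara r s G H) K z = act r (s + t) G (act s t H K) z - act s (r + t) H (act r t G K) z

/-- **The Jacobi identity for `f_a`.** -/
theorem rep_fa (a : ℕ) : RepAt 1 (fa a) := by
  intro s t H K hs hH hK z
  rcases nil_or_concat z with rfl | ⟨ys, q, rfl⟩
  · rw [act_supp (ihara_supp (fa_supp a) hH) hK _ (by simp),
      act_supp (fa_supp a) (act_supp hH hK) _ (by simp), act_supp hH (act_supp (fa_supp a) hK) _ (by simp), sub_zero]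
  · have h1 : ihara 1 s (fa a) H = adf a H := funext fun z => ihara_fa a s hH z
    have hA : Supp (1 + s + 1) (adf a H) := by rw [← h1]; exact ihara_supp (fa_supp a) hH
    rw [h1, act_bl (by omega) hA hK, act_fa a (s + t) (act_supp hH hK), act_bl hs hH (act_supp (fa_supp a) hK)]
    simp only [act_bl hs hH hK, act_fa a t hK]
    rw [jac_bl a s hs hH]
    ring

lemma act_sub_right (r s : ℕ) (G H K : List ℚ → ℚ) : act r s G (H - K) = act r s G H - act r s G K := by
  funext z
  have h := act_lin r s G H K (-1) z
  have h1 : (fun z => H z + (-1) * K z) = H - K := by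
    funext z
    simp [sub_eq_add_neg]
  rw [h1] at h
  rw [h, Pi.sub_apply]
  ring

lemma act_sub_left (r s : ℕ) (G H K : List ℚ → ℚ) : act r s (G - H) K = act r s G K - act r s H K := by
  funext z
  have h := act_lin' s r K G H (-1) z
  have h1 : (fun z => G z + (-1) * H z) = G - H := by
    funext z
    simp [sub_eq_add_neg]
  rw [h1] at h
  rw [h, Pi.sub_apply]
  ring

lemma ihara_eq (r s : ℕ) (G H : List ℚ → ℚ) : ihara r s G H = act r s G H - act s r H G := rfl

lemma RepAt.eq {r : ℕ} {G : List ℚ → ℚ} (h : RepAt r G) {s t : ℕ} {H K : List ℚ → ℚ} (hs : 1 ≤ s)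
    (hH : Supp (s + 1) H) (hK : Supp (t + 1) K) :
    act (r + s) t (ihara r s G H) K = act r (s + t) G (act s t H K) - act s (r + t) H (act r t G K) :=
  funext fun z => h s t H K hs hH hK z

lemma act_supp' {r s n : ℕ} {G H : List ℚ → ℚ} (hG : Supp (r + 1) G) (hH : Supp (s + 1) H) (hn : n = r + s) :
    Supp (n + 1) (act r s G H) := by
  rw [hn]
  exact act_supp hG hH

lemma ihara_supp' {r s n : ℕ} {G H : List ℚ → ℚ} (hG : Supp (r + 1) G) (hH : Supp (s + 1) H) (hn : n = r + s) :
    Supp (n + 1) (ihara r s G H) := by
  rw [hn]
  exact ihara_supp hG hH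

/-- the Jacobi identity -/
lemma jacobi (a : ℕ) {r s : ℕ} (hr : 1 ≤ r) (hs : 1 ≤ s) {g H : List ℚ → ℚ} (hg : Supp (r + 1) g) (hrep : RepAt r g)
    (hH : Supp (s + 1) H) : ihara (1 + r) s (ihara 1 r (fa a) g) H =
      ihara 1 (r + s) (fa a) (ihara r s g H) - ihara r (1 + s) g (ihara 1 s (fa a) H) := by
  have hfa := fa_supp a
  have e1 := (rep_fa a).eq hr hg hH
  have e2 := hrep.eq hs hH (K := fa a) (t := 1) hfa
  have e3 := (rep_fa a).eq hs hH hg
  rw [ihara_eq (1 + r) s, e1, ihara_eq 1 (r + s), ihara_eq r s g H, act_sub_right, ← ihara_eq r s g H, e2,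
    ihara_eq r (1 + s), e3, ihara_eq 1 s (fa a) H, act_sub_right, ihara_eq 1 r (fa a) g, act_sub_right]
  simp only [Nat.add_comm, Nat.add_left_comm]
  abel

/-- the action of an iterated bracket is a representation -/
theorem RepAt.step (a : ℕ) {r : ℕ} (hr : 1 ≤ r) {g : List ℚ → ℚ} (hg : Supp (r + 1) g) (hrep : RepAt r g) :
    RepAt (1 + r) (ihara 1 r (fa a) g) := by
  intro s t H K hs hH hK z
  have hfa := fa_supp a
  have hgH : Supp (r + s + 1) (ihara r s g H) := ihara_supp hg hH
  have haH : Supp (1 + s + 1) (ihara 1 s (fa a) H) := ihara_supp hfa hH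
  have e0 := jacobi a hr hs hg hrep hH
  have e1 := (rep_fa a).eq (s := r + s) (t := t) (by omega) hgH hK
  have e2 := hrep.eq (s := 1 + s) (t := t) (by omega) haH hK
  have e3 := hrep.eq hs hH hK
  have e4 := hrep.eq (t := 1 + t) hs hH (act_supp hfa hK)
  have e5 := (rep_fa a).eq hs hH hK
  have e6 := (rep_fa a).eq (t := r + t) hs hH (act_supp hg hK)
  have e7 := (rep_fa a).eq (t := s + t) hr hg (act_supp hH hK)
  have e8 := (rep_fa a).eq (t := t) hr hg hK
  have key : act (1 + r + s) t (ihara (1 + r) s (ihara 1 r (fa a) g) H) K =
      act (1 + r) (s + t) (ihara 1 r (fa a) g) (act s t H K) -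
        act s (1 + r + t) H (act (1 + r) t (ihara 1 r (fa a) g) K) := by
    rw [e0, act_sub_left]
    have h1 : act (1 + r + s) t (ihara 1 (r + s) (fa a) (ihara r s g H)) K =
        act 1 (r + s + t) (fa a) (act (r + s) t (ihara r s g H) K) -
          act (r + s) (1 + t) (ihara r s g H) (act 1 t (fa a) K) := by
      rw [← e1, Nat.add_assoc]
    have h2 : act (1 + r + s) t (ihara r (1 + s) g (ihara 1 s (fa a) H)) K =
        act r (1 + s + t) g (act (1 + s) t (ihara 1 s (fa a) H) K) -
          act (1 + s) (r + t) (ihara 1 s (fa a) H) (act r t g K) := by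
      rw [← e2]
      congr 1
      omega
    rw [h1, h2, e3, e4, e5, e6, e7, e8]
    simp only [act_sub_right]
    simp only [Nat.add_comm, Nat.add_left_comm]
    abel
  exact congrFun key z

end Pool.Agent.D0H20.DL
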