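import Pool.Agent.D0H20.DL.Cen

/-!
# The elements of a fixed depth and weight generate a free Lie algebra
-/

set_option autoImplicit false

namespace Pool.Agent.D0H20.DL

open Finset Polynomial

/-- linearly independent functions of the same length generate a free algebra -/
lemma free_same_aux {I : Type*} {r : ℕ} (u : I → List ℚ → ℚ) (hs : ∀ i, Supp r (u i))
    (hind : LinearIndependent ℚ u) (k : ℕ) : ∀ (S : Finset (List I)) (lam : List I → ℚ)
    (_ : ∀ w ∈ S, w.length = k)
    (_ : ∀ l : List ℚ, l.length = k * r → ∑ w ∈ S, lam w * ew (fun _ => r) u w l = 0), ∀ w ∈ S, lam w = 0 := by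
  classical
  induction k with
  | zero =>
    intro S lam hS h w hw
    have h1 : ∀ v ∈ S, v = [] := fun v hv => List.length_eq_zero_iff.1 (hS v hv)
    obtain rfl := h1 w hw
    have h2 := h [] (by simp)
    rw [sum_eq_single_of_mem [] hw (fun v hv hv' => absurd (h1 v hv) hv')] at h2
    simpa [ew] using h2
  | succ k ih =>
    intro S lam hS h
    set F : List ℚ → List I → (I →₀ ℚ) := fun m w => match w with
      | [] => 0
      | i :: w' => Finsupp.single i (lam (i :: w') * ew (fun _ => r) u w' m) with hF
    have h1 : ∀ m : List ℚ, m.length = k * r → ∑ w ∈ S, F m w = 0 := by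
      intro m hm
      apply linearIndependent_iff.1 hind
      rw [map_sum]
      funext l
      rw [Finset.sum_apply]
      by_cases hl : l.length = r
      · refine Eq.trans ?_ (h (l ++ m) (by rw [List.length_append, hl, hm]; ring))
        apply sum_congr rfl
        intro w hw
        match w, hS w hw with
        | i :: w', _ =>
          show Finsupp.linearCombination ℚ u (Finsupp.single i (lam (i :: w') * ew (fun _ => r) u w' m)) l = _
          rw [Finsupp.linearCombination_single, Pi.smul_apply, smul_eq_mul, ew_cons, List.take_left' hl,
            List.drop_left' hl]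
          ring
      · apply sum_eq_zero
        intro w hw
        match w, hS w hw with
        | i :: w', _ =>
          show Finsupp.linearCombination ℚ u (Finsupp.single i (lam (i :: w') * ew (fun _ => r) u w' m)) l = _
          rw [Finsupp.linearCombination_single, Pi.smul_apply, hs i l hl, smul_zero]
    have hinj : ∀ (i : I), Set.InjOn List.tail (S.filter (fun w => w.head? = some i) : Set (List I)) := by
      intro i v hv w hw hvw
      simp only [coe_filter, Set.mem_ofPred_eq] at hv hw
      match v, w, hv.2, hw.2 with
      | _ :: v, _ :: w, h3, h4 =>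
        simp only [List.head?_cons, Option.some.injEq] at h3 h4
        rw [h3, h4]
        congr 1
    intro w hw
    match w, hw, hS w hw with
    | i :: w', hw, _ =>
      have h2 := ih ((S.filter (fun w => w.head? = some i)).image List.tail) (fun v => lam (i :: v)) (by
        intro v hv
        rw [mem_image] at hv
        obtain ⟨v', hv', rfl⟩ := hv
        rw [mem_filter] at hv'
        rw [List.length_tail, hS v' hv'.1]
        rfl) (by
        intro m hm
        rw [sum_image (hinj i)]
        have h3 := DFunLike.congr_fun (h1 m hm) i
        rw [Finsupp.finsetSum_apply, Finsupp.zero_apply] at h3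
        refine Eq.trans ?_ h3
        rw [sum_filter]
        apply sum_congr rfl
        intro v hv
        match v, hS v hv with
        | j :: v', _ =>
          show _ = Finsupp.single j (lam (j :: v') * ew (fun _ => r) u v' m) i
          rw [Finsupp.single_apply]
          simp only [List.head?_cons, Option.some.injEq, List.tail_cons]
          by_cases hji : j = i
          · rw [if_pos hji, if_pos hji, hji]
          · rw [if_neg hji, if_neg hji])
      apply h2
      rw [mem_image]
      exact ⟨i :: w', by rw [mem_filter]; exact ⟨hw, rfl⟩, rfl⟩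

lemma free_same {I : Type*} {r : ℕ} (hr : 1 ≤ r) (u : I → List ℚ → ℚ) (hs : ∀ i, Supp r (u i))
    (hind : LinearIndependent ℚ u) : FreeFam (fun _ => r) u := by
  intro R S lam hS h w hw
  have hwl : ∀ w : List I, wl (fun _ => r) w = w.length * r := by
    intro w
    induction w with
    | nil => simp
    | cons i w ih => rw [wl_cons, ih, List.length_cons]; ring
  have hR : R = w.length * r := by rw [← hwl, hS w hw]
  refine free_same_aux u hs hind w.length S lam (fun v hv => ?_) (fun l hl => h l (by rw [hl, hR])) w hw
  have h1 := hS v hv
  rw [hwl, hR] at h1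
  exact Nat.eq_of_mul_eq_mul_right (by omega) h1

/-- the homogeneous components -/
lemma hsep {J : Type*} (s : Finset J) (D e : ℕ) (d : J → ℕ) (u : J → List ℚ → ℚ) (v : List ℚ → ℚ) (c : J → ℚ)
    (hu : ∀ j (t : ℚ) (l : List ℚ), u j (l.map (fun x => t * x)) * t ^ d j = t ^ D * u j l)
    (hv : ∀ (t : ℚ) (l : List ℚ), v (l.map (fun x => t * x)) * t ^ e = t ^ D * v l)
    (h : ∀ l, v l = ∑ j ∈ s, c j * u j l) (l : List ℚ) : v l = ∑ j ∈ s with d j = e, c j * u j l := by
  obtain ⟨N, hN1, hN2⟩ : ∃ N, e ≤ N ∧ ∀ j ∈ s, d j ≤ N :=
    ⟨e + s.sup d, by omega, fun j hj => (Finset.le_sup hj).trans (by omega)⟩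
  have h1 : C (v l) * X ^ (N - e + D) = ∑ j ∈ s, C (c j * u j l) * X ^ (N - d j + D) := by
    apply Polynomial.funext
    intro t
    rw [eval_finsetSum]
    simp only [eval_mul, eval_C, eval_pow, eval_X]
    have h2 := h (l.map (fun x => t * x))
    have h3 : v l * t ^ (N - e + D) = t ^ N * v (l.map (fun x => t * x)) := by
      have h4 : t ^ N = t ^ (N - e) * t ^ e := by rw [← pow_add]; congr 1; omega
      rw [pow_add, h4]
      linear_combination (-t ^ (N - e)) * hv t l
    rw [h3, h2, mul_sum]
    apply sum_congr rfl
    intro j hj
    have h4 : t ^ N = t ^ (N - d j) * t ^ d j := by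
      rw [← pow_add]
      congr 1
      have := hN2 j hj
      omega
    rw [pow_add, h4]
    linear_combination (c j * t ^ (N - d j)) * hu j t l
  have h2 := congrArg (fun p : ℚ[X] => p.coeff (N - e + D)) h1
  simp only [coeff_C_mul, finsetSum_coeff, coeff_X_pow, if_true, mul_one] at h2
  rw [h2, sum_filter]
  apply sum_congr rfl
  intro j hj
  by_cases hje : d j = e
  · rw [if_pos hje, if_pos (by rw [hje]), mul_one]
  · rw [if_neg hje, if_neg (by have := hN2 j hj; omega), mul_zero]

/-- **Adapted bases.** Let `W` be a space of elements of a fixed depth and degree. It has a basis whose leading coefficients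
are linearly independent. -/
theorem adapted {r D : ℕ} (hD : 1 ≤ D) (W : Submodule ℚ (List ℚ → ℚ)) (hW : ∀ G ∈ W, Dih r D G) :
    ∃ (b : Set (List ℚ → ℚ)) (g : b → List ℚ → ℚ) (d : b → ℕ) (P : b → List ℚ → ℚ[X]),
      (∀ i, g i ∈ W) ∧ (∀ i, 1 ≤ d i) ∧ (∀ i, DL.LD r (d i) (g i) (P i)) ∧
      (∀ i l, (P i l).coeff (d i) = i.1 l) ∧ LinearIndependent ℚ (fun i : b => i.1) ∧
      LinearIndependent ℚ g ∧ Submodule.span ℚ (Set.range g) = W := by
  classical
  set Le : Set (List ℚ → ℚ) := {u | ∃ G ∈ W, ∃ d P, 1 ≤ d ∧ DL.LD r d G P ∧ (∀ l, (P l).coeff d = u l) ∧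
    ∃ l, u l ≠ 0} with hLe
  obtain ⟨b, hb1, hb2, hb3⟩ := exists_linearIndependent ℚ Le
  have hch : ∀ i : b, ∃ (G : List ℚ → ℚ) (d : ℕ) (P : List ℚ → ℚ[X]), G ∈ W ∧ 1 ≤ d ∧ DL.LD r d G P ∧
      ∀ l, (P l).coeff d = i.1 l := by
    intro i
    obtain ⟨G, hG, d, P, h1, h2, h3, -⟩ := hb1 i.2
    exact ⟨G, d, P, hG, h1, h2, h3⟩
  choose g d P hg hd hP hPu using hch
  have hhom : ∀ (i : b) (t : ℚ) (l : List ℚ), i.1 (l.map (fun x => t * x)) * t ^ d i = t ^ D * i.1 l := by
    intro i t l
    rw [← hPu, ← hPu]
    exact (hW _ (hg i)).coeff_hom (hP i) t l (d i)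
  refine ⟨b, g, d, P, hg, hd, hP, hPu, hb3, ?_, ?_⟩
  · -- independence
    rw [linearIndependent_iff'] at hb3 ⊢
    intro s c hc
    by_contra hcon
    push Not at hcon
    obtain ⟨i0, hi0, hci0⟩ := hcon
    have hne : (s.filter (fun i => c i ≠ 0)).Nonempty := ⟨i0, by rw [mem_filter]; exact ⟨hi0, hci0⟩⟩
    obtain ⟨i1, hi1, hmax⟩ := (s.filter (fun i => c i ≠ 0)).exists_max_image d hne
    rw [mem_filter] at hi1
    have hpoly : ∀ l : List ℚ, ∑ i ∈ s, C (c i) * P i l = 0 := by
      intro l
      apply Polynomial.funext
      intro x
      rw [eval_finsetSum, eval_zero]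
      have h1 := congrFun hc (x :: l)
      rw [Finset.sum_apply] at h1
      refine Eq.trans ?_ h1
      apply sum_congr rfl
      intro i _
      rw [eval_mul, eval_C, (hP i).ev, Pi.smul_apply, smul_eq_mul]
    have h2 : ∑ i ∈ s with c i ≠ 0 ∧ d i = d i1, c i • i.1 = 0 := by
      funext l
      rw [Finset.sum_apply]
      have h3 := congrArg (fun p : ℚ[X] => p.coeff (d i1)) (hpoly l)
      simp only [finsetSum_coeff, coeff_C_mul, coeff_zero] at h3
      refine Eq.trans ?_ h3
      rw [sum_filter]
      apply sum_congr rfl
      intro i hi
      by_cases h4 : c i ≠ 0 ∧ d i = d i1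
      · rw [if_pos h4, Pi.smul_apply, smul_eq_mul, ← hPu, h4.2]
      · rw [if_neg h4]
        by_cases h5 : c i = 0
        · rw [h5, zero_mul]
        · have h6 := hmax i (by rw [mem_filter]; exact ⟨hi, h5⟩)
          have h7 : d i < d i1 := by
            rcases lt_or_eq_of_le h6 with h | h
            · exact h
            · exact absurd ⟨h5, h⟩ h4
          rw [coeff_eq_zero_of_natDegree_lt (lt_of_le_of_lt ((hP i).deg l) h7), mul_zero]
    exact hi1.2 (hb3 _ c h2 i1 (by rw [mem_filter]; exact ⟨hi1.1, hi1.2, rfl⟩))
  · -- spanning
    apply le_antisymm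
    · rw [Submodule.span_le]
      rintro _ ⟨i, rfl⟩
      exact hg i
    · have key : ∀ (n : ℕ) (G : List ℚ → ℚ) (_ : G ∈ W) (e : ℕ) (Q : List ℚ → ℚ[X]) (_ : e ≤ n)
          (_ : DL.LD r e G Q), G ∈ Submodule.span ℚ (Set.range g) := by
        intro n
        induction n with
        | zero =>
          intro G hG e Q he hQ
          by_cases h0 : ∃ z, G z ≠ 0
          · exfalso
            obtain ⟨z, hz⟩ := h0
            apply hz
            apply (hW G hG).const hD
            intro x l
            have h1 := eq_C_of_natDegree_le_zero ((hQ.deg l).trans he)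
            rw [← hQ.ev, ← hQ.ev, h1, eval_C, eval_C]
          · push Not at h0
            rw [show G = 0 from funext h0]
            exact Submodule.zero_mem _
        | succ n ih =>
          intro G hG e Q he hQ
          by_cases hlt : e ≤ n
          · exact ih G hG e Q hlt hQ
          · by_cases hz : ∀ l, (Q l).coeff e = 0
            · apply ih G hG n Q le_rfl
              refine ⟨fun l => ?_, hQ.ev, hQ.supp⟩
              by_contra h1
              have h2 : (Q l).natDegree = e := by
                have := hQ.deg l
                omega
              have h3 : Q l = 0 := by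
                apply leadingCoeff_eq_zero.1
                rw [leadingCoeff, h2]
                exact hz l
              rw [h3, natDegree_zero] at h1
              omega
            · push Not at hz
              have hmem : (fun l => (Q l).coeff e) ∈ Submodule.span ℚ b := by
                rw [hb2]
                exact Submodule.subset_span ⟨G, hG, e, Q, by omega, hQ, fun l => rfl, hz⟩
              rw [← Subtype.range_coe (s := b), Finsupp.mem_span_range_iff_exists_finsupp] at hmem
              obtain ⟨c, hc⟩ := hmem
              have hc' : ∀ l, (Q l).coeff e = ∑ i ∈ c.support, c i * i.1 l := by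
                intro l
                have h1 := congrFun hc l
                rw [Finsupp.sum, Finset.sum_apply] at h1
                rw [← h1]
                rfl
              have h2 := hsep c.support D e d (fun i => i.1) (fun l => (Q l).coeff e) c hhom
                (fun t l => (hW G hG).coeff_hom hQ t l e) hc'
              set G' : List ℚ → ℚ := G - ∑ i ∈ c.support with d i = e, c i • g i with hG'
              have hG'W : G' ∈ W := W.sub_mem hG (W.sum_mem fun i _ => W.smul_mem _ (hg i))
              have hG'span : G' ∈ Submodule.span ℚ (Set.range g) := by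
                apply ih G' hG'W n (fun l => Q l - ∑ i ∈ c.support with d i = e, C (c i) * P i l) le_rfl
                refine ⟨fun l => ?_, fun x l => ?_, fun l hl => ?_⟩
                · have hdeg : (Q l - ∑ i ∈ c.support with d i = e, C (c i) * P i l).natDegree ≤ e := by
                    refine (natDegree_sub_le _ _).trans (max_le (hQ.deg l) ?_)
                    apply natDegree_sum_le_of_forall_le
                    intro i hi
                    rw [mem_filter] at hi
                    refine (natDegree_C_mul_le _ _).trans ?_
                    rw [← hi.2]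
                    exact (hP i).deg l
                  have hco : (Q l - ∑ i ∈ c.support with d i = e, C (c i) * P i l).coeff e = 0 := by
                    rw [coeff_sub, finsetSum_coeff, sub_eq_zero]
                    have h3 : (Q l).coeff e = ∑ i ∈ c.support with d i = e, c i * i.1 l := h2 l
                    rw [h3]
                    apply sum_congr rfl
                    intro i hi
                    rw [mem_filter] at hi
                    rw [coeff_C_mul, ← hPu, hi.2]
                  by_contra h1
                  have h3 : (Q l - ∑ i ∈ c.support with d i = e, C (c i) * P i l).natDegree = e := by omega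
                  have h4 : Q l - ∑ i ∈ c.support with d i = e, C (c i) * P i l = 0 := by
                    apply leadingCoeff_eq_zero.1
                    rw [leadingCoeff, h3]
                    exact hco
                  rw [h4, natDegree_zero] at h1
                  omega
                · rw [eval_sub, eval_finsetSum, hQ.ev, hG', Pi.sub_apply, Finset.sum_apply]
                  congr 1
                  apply sum_congr rfl
                  intro i _
                  rw [eval_mul, eval_C, (hP i).ev, Pi.smul_apply, smul_eq_mul]
                · rw [hQ.supp l hl, sum_eq_zero, sub_zero]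
                  intro i _
                  rw [(hP i).supp l hl, mul_zero]
              have hsum : G = G' + ∑ i ∈ c.support with d i = e, c i • g i := by rw [hG']; abel
              rw [hsum]
              exact Submodule.add_mem _ hG'span (Submodule.sum_mem _ fun i _ =>
                Submodule.smul_mem _ _ (Submodule.subset_span ⟨i, rfl⟩))
      intro G hG
      obtain ⟨N, Q, hQ⟩ := (hW G hG).LD
      exact key N G hG N Q le_rfl hQ

end Pool.Agent.D0H20.DL
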