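import Pool.Agent.D0H20.DL.Lead

/-!
# Free pairs
-/

set_option autoImplicit false

namespace Pool.Agent.D0H20.DL

open Finset Polynomial

/-- bracket monomials -/
inductive Tree (I : Type*)
  | leaf : I → Tree I
  | node : Tree I → Tree I → Tree I

variable {I : Type*}

/-- a weight of a tree: sum over the leaves -/
def tw (len : I → ℕ) : Tree I → ℕ
  | .leaf c => len c
  | .node a b => tw len a + tw len b

/-- the bracket monomial -/
def tev (len : I → ℕ) (f : I → List ℚ → ℚ) : Tree I → List ℚ → ℚ
  | .leaf c => f c
  | .node a b => ihara (tw len a) (tw len b) (tev len f a) (tev len f b)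

/-- the commutator monomial in the free associative algebra -/
noncomputable def com : Tree I → FreeAlgebra ℚ I
  | .leaf c => FreeAlgebra.ι ℚ c
  | .node a b => com a * com b - com b * com a

/-- the commutator monomial in functions -/
def V (len : I → ℕ) (u : I → List ℚ → ℚ) : Tree I → List ℚ → ℚ
  | .leaf c, l => u c l
  | .node a b, l => V len u a (l.take (tw len a)) * V len u b (l.drop (tw len a)) -
      V len u b (l.take (tw len b)) * V len u a (l.drop (tw len b))

/-- the sign -/
def sg : Tree I → ℚ
  | .leaf _ => 1
  | .node a b => - (sg a * sg b)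

lemma sg_ne (T : Tree I) : sg T ≠ 0 := by
  induction T with
  | leaf c => exact one_ne_zero
  | node a b ha hb => exact neg_ne_zero.2 (mul_ne_zero ha hb)

/-- the word as an element of the free algebra -/
noncomputable def mon (w : List I) : FreeAlgebra ℚ I := (w.map (FreeAlgebra.ι ℚ)).prod

lemma mon_append (v w : List I) : mon (v ++ w) = mon v * mon w := by
  unfold mon
  rw [List.map_append, List.prod_append]

/-- the product of word combinations -/
noncomputable def mulM (p q : List I →₀ ℚ) : List I →₀ ℚ :=
  p.sum fun v c => q.sum fun w d => Finsupp.single (v ++ w) (c * d)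

lemma mulM_lin {M : Type*} [AddCommGroup M] [Module ℚ M] (F : List I → M) (p q : List I →₀ ℚ) :
    Finsupp.linearCombination ℚ F (mulM p q) = ∑ v ∈ p.support, ∑ w ∈ q.support, (p v * q w) • F (v ++ w) := by
  unfold mulM Finsupp.sum
  rw [map_sum]
  apply sum_congr rfl
  intro v _
  rw [map_sum]
  apply sum_congr rfl
  intro w _
  rw [Finsupp.linearCombination_single]

lemma mulM_supp (p q : List I →₀ ℚ) (x : List I) (hx : x ∈ (mulM p q).support) :
    ∃ v ∈ p.support, ∃ w ∈ q.support, x = v ++ w := by
  classical
  by_contra hcon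
  push Not at hcon
  rw [Finsupp.mem_support_iff] at hx
  apply hx
  unfold mulM Finsupp.sum
  rw [Finsupp.finsetSum_apply]
  apply sum_eq_zero
  intro v hv
  rw [Finsupp.finsetSum_apply]
  apply sum_eq_zero
  intro w hw
  rw [Finsupp.single_apply, if_neg]
  exact fun h => hcon v hv w hw h.symm

lemma lc_sum {M : Type*} [AddCommGroup M] [Module ℚ M] (F : List I → M) (p : List I →₀ ℚ) :
    Finsupp.linearCombination ℚ F p = ∑ w ∈ p.support, p w • F w := rfl

/-- the words of a commutator monomial -/
lemma tq (len : I → ℕ) (u : I → List ℚ → ℚ) (T : Tree I) : ∃ p : List I →₀ ℚ,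
    (∀ w ∈ p.support, wl len w = tw len T) ∧ Finsupp.linearCombination ℚ mon p = com T ∧
    ∀ l : List ℚ, l.length = tw len T →
      Finsupp.linearCombination ℚ (fun w => ew len u w l) p = V len u T l := by
  classical
  induction T with
  | leaf c =>
    refine ⟨Finsupp.single [c] 1, ?_, ?_, ?_⟩
    · intro w hw
      have := Finsupp.support_single_subset hw
      rw [mem_singleton] at this
      rw [this, wl_cons, wl_nil, add_zero]
      rfl
    · rw [Finsupp.linearCombination_single, one_smul]
      unfold mon com
      simp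
    · intro l hl
      rw [Finsupp.linearCombination_single, one_smul]
      have h1 : l.length = len c := hl
      rw [ew_cons, List.take_of_length_le (by omega)]
      show u c l * 1 = u c l
      rw [mul_one]
  | node a b iha ihb =>
    obtain ⟨p, hp1, hp2, hp3⟩ := iha
    obtain ⟨q, hq1, hq2, hq3⟩ := ihb
    have hmon : ∀ p q : List I →₀ ℚ, Finsupp.linearCombination ℚ mon (mulM p q) =
        Finsupp.linearCombination ℚ mon p * Finsupp.linearCombination ℚ mon q := by
      intro p q
      rw [mulM_lin, lc_sum, lc_sum, sum_mul_sum]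
      apply sum_congr rfl
      intro v _
      apply sum_congr rfl
      intro w _
      rw [mon_append, smul_mul_smul_comm]
    have hev : ∀ (p q : List I →₀ ℚ) (m n : ℕ) (_ : ∀ w ∈ p.support, wl len w = m)
        (_ : ∀ w ∈ q.support, wl len w = n) (l : List ℚ), l.length = m + n →
        Finsupp.linearCombination ℚ (fun w => ew len u w l) (mulM p q) =
        Finsupp.linearCombination ℚ (fun w => ew len u w (l.take m)) p *
          Finsupp.linearCombination ℚ (fun w => ew len u w (l.drop m)) q := by
      intro p q m n hp hq l hl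
      rw [mulM_lin, lc_sum, lc_sum, sum_mul_sum]
      apply sum_congr rfl
      intro v hv
      apply sum_congr rfl
      intro w hw
      rw [ew_append len u v w l (by rw [hp v hv, hq w hw, hl]), hp v hv]
      simp only [smul_eq_mul]
      ring
    refine ⟨mulM p q - mulM q p, ?_, ?_, ?_⟩
    · intro w hw
      have hw' := Finsupp.support_sub hw
      rw [mem_union] at hw'
      show wl len w = tw len a + tw len b
      rcases hw' with h | h
      · obtain ⟨v, hv, v', hv', rfl⟩ := mulM_supp p q w h
        rw [wl_append, hp1 v hv, hq1 v' hv']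
      · obtain ⟨v, hv, v', hv', rfl⟩ := mulM_supp q p w h
        rw [wl_append, hq1 v hv, hp1 v' hv', add_comm]
    · rw [map_sub, hmon, hmon, hp2, hq2]
      rfl
    · intro l hl
      have hl' : l.length = tw len a + tw len b := hl
      rw [map_sub, hev p q _ _ hp1 hq1 l hl', hev q p _ _ hq1 hp1 l (by rw [hl', add_comm]),
        hp3 _ (by rw [List.length_take]; omega), hq3 _ (by rw [List.length_drop]; omega),
        hq3 _ (by rw [List.length_take]; omega), hp3 _ (by rw [List.length_drop]; omega)]
      rfl

/-- the leading coefficients of the bracket monomials -/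
lemma tlead (len d : I → ℕ) (hlen : ∀ c, 1 ≤ len c) (hd : ∀ c, 1 ≤ d c) (f : I → List ℚ → ℚ)
    (P : I → List ℚ → ℚ[X]) (hP : ∀ c, LD (len c) (d c) (f c) (P c)) (hf : ∀ c, Supp (len c + 1) (f c))
    (T : Tree I) : 1 ≤ tw len T ∧ 1 ≤ tw d T ∧ Supp (tw len T + 1) (tev len f T) ∧
      ∃ W : List ℚ → ℚ[X], LD (tw len T) (tw d T) (tev len f T) W ∧
      ∀ l : List ℚ, l.length = tw len T →
        (W l).coeff (tw d T) = sg T * V len (fun c l => (P c l).coeff (d c)) T l := by
  induction T with
  | leaf c =>
    refine ⟨hlen c, hd c, hf c, P c, hP c, ?_⟩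
    intro l _
    show (P c l).coeff (d c) = 1 * (P c l).coeff (d c)
    rw [one_mul]
  | node a b iha ihb =>
    obtain ⟨ha1, ha2, ha3, Wa, ha4, ha5⟩ := iha
    obtain ⟨hb1, hb2, hb3, Wb, hb4, hb5⟩ := ihb
    obtain ⟨W, hW1, hW2⟩ := ihara_LD ha1 hb1 ha2 hb2 ha4 hb4 ha3 hb3
    refine ⟨?_, ?_, ?_, W, hW1, ?_⟩
    · show 1 ≤ tw len a + tw len b
      omega
    · show 1 ≤ tw d a + tw d b
      omega
    · exact ihara_supp ha3 hb3
    · intro l hl
      have hl' : l.length = tw len a + tw len b := hl
      show (W l).coeff (tw d a + tw d b) = _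
      rw [ihara_coeff ha2 hb2 ha4.deg hb4.deg hW2 l,
        ha5 (l.take (tw len a)) (by rw [List.length_take]; omega),
        hb5 (l.drop (tw len a)) (by rw [List.length_drop]; omega),
        hb5 (l.take (tw len b)) (by rw [List.length_take]; omega),
        ha5 (l.drop (tw len b)) (by rw [List.length_drop]; omega)]
      show _ = - (sg a * sg b) * (_ - _)
      ring

/-- **Free families.** If the leading coefficients generate a free algebra then the bracket monomials are linearly
independent whenever the commutator monomials are. -/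
theorem free_core (len d : I → ℕ) (hlen : ∀ c, 1 ≤ len c) (hd : ∀ c, 1 ≤ d c) (f : I → List ℚ → ℚ)
    (P : I → List ℚ → ℚ[X]) (hP : ∀ c, LD (len c) (d c) (f c) (P c)) (hf : ∀ c, Supp (len c + 1) (f c))
    (hfree : FreeFam len (fun c l => (P c l).coeff (d c)))
    (S : Set (Tree I)) (hS : LinearIndependent ℚ (fun T : S => com T.1)) :
    LinearIndependent ℚ (fun T : S => tev len f T.1) := by
  classical
  rw [linearIndependent_iff'] at hS ⊢
  intro s g hg
  by_contra hcon
  push Not at hcon
  obtain ⟨T0, hT0, hgT0⟩ := hcon
  set F : Finset S := s.filter (fun T => g T ≠ 0 ∧ tw len T.1 = tw len T0.1) with hF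
  have hFne : F.Nonempty := ⟨T0, by rw [hF, mem_filter]; exact ⟨hT0, hgT0, rfl⟩⟩
  obtain ⟨T1, hT1, hmax⟩ := F.exists_max_image (fun T => tw d T.1) hFne
  have hlead := fun T : Tree I => tlead len d hlen hd f P hP hf T
  choose h1 h2 h3 W h4 h5 using hlead
  set u : I → List ℚ → ℚ := fun c l => (P c l).coeff (d c) with hu
  -- the polynomial relation
  have hpoly : ∀ l : List ℚ, ∑ T ∈ s, C (g T) * W T l = 0 := by
    intro l
    apply Polynomial.funext
    intro x
    rw [eval_finsetSum, eval_zero]
    have h6 := congrFun hg (x :: l)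
    rw [Finset.sum_apply] at h6
    refine Eq.trans ?_ h6
    apply sum_congr rfl
    intro T _
    rw [eval_mul, eval_C, (h4 T).ev]
    rfl
  set G : Finset S := F.filter (fun T => tw d T.1 = tw d T1.1) with hG
  have hlen1 : tw len T1 = tw len T0 := by
    rw [hF, mem_filter] at hT1
    exact hT1.2.2
  have hrel : ∀ l : List ℚ, l.length = tw len T0 → ∑ T ∈ G, (g T * sg T.1) * V len u T.1 l = 0 := by
    intro l hl
    have h6 := congrArg (fun p : ℚ[X] => p.coeff (tw d T1)) (hpoly l)
    simp only [finsetSum_coeff, coeff_C_mul, coeff_zero] at h6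
    rw [← h6]
    have hGs : G ⊆ s := (filter_subset _ _).trans (filter_subset _ _)
    symm
    rw [← sum_subset hGs]
    · apply sum_congr rfl
      intro T hT
      rw [hG, mem_filter, hF, mem_filter] at hT
      rw [← hT.2, h5 T l (by rw [hT.1.2.2, hl])]
      ring
    · intro T hT hT'
      rw [hG, mem_filter, hF, mem_filter] at hT'
      by_cases hgT : g T = 0
      · rw [hgT, zero_mul]
      · by_cases hlT : tw len T = tw len T0
        · have hlt : tw d T < tw d T1 := by
            have hTF : T ∈ F := by rw [hF, mem_filter]; exact ⟨hT, hgT, hlT⟩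
            rcases lt_or_eq_of_le (hmax T hTF) with h | h
            · exact h
            · exact absurd ⟨⟨hT, hgT, hlT⟩, h⟩ hT'
          rw [coeff_eq_zero_of_natDegree_lt (lt_of_le_of_lt ((h4 T).deg l) hlt), mul_zero]
        · rw [(h4 T).supp l (by rw [hl]; exact fun h => hlT h.symm), coeff_zero, mul_zero]
  have hq := fun T : Tree I => tq len u T
  choose p hp1 hp2 hp3 using hq
  set q : List I →₀ ℚ := ∑ T ∈ G, (g T * sg T.1) • p T.1 with hqdef
  have hq0 : q = 0 := by
    have hsupp : ∀ w ∈ q.support, wl len w = tw len T0 := by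
      intro w hw
      by_contra hne
      rw [Finsupp.mem_support_iff] at hw
      apply hw
      rw [hqdef, Finsupp.finsetSum_apply]
      apply sum_eq_zero
      intro T hT
      rw [Finsupp.smul_apply]
      have h7 : p T w = 0 := by
        by_contra h8
        apply hne
        rw [hp1 T w (by rw [Finsupp.mem_support_iff]; exact h8)]
        rw [hG, mem_filter, hF, mem_filter] at hT
        exact hT.1.2.2
      rw [h7, smul_zero]
    have hfree' := hfree (tw len T0) q.support q hsupp (by
      intro l hl
      have h8 : Finsupp.linearCombination ℚ (fun w => ew len u w l) q = 0 := by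
        rw [hqdef, map_sum, ← hrel l hl]
        apply sum_congr rfl
        intro T hT
        rw [map_smul, hp3 T l (by
          rw [hG, mem_filter, hF, mem_filter] at hT
          rw [hT.1.2.2, hl]), smul_eq_mul]
      rw [lc_sum] at h8
      simpa only [smul_eq_mul] using h8)
    ext w
    by_contra h9
    exact h9 (hfree' w (by rw [Finsupp.mem_support_iff]; exact h9))
  have hcom : ∑ T ∈ G, (g T * sg T.1) • com T.1 = 0 := by
    have h8 : Finsupp.linearCombination ℚ mon q = 0 := by rw [hq0, map_zero]
    rw [hqdef, map_sum] at h8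
    rw [← h8]
    apply sum_congr rfl
    intro T _
    rw [map_smul, hp2]
  have hfin := hS G (fun T => g T * sg T.1) hcom T1 (by rw [hG, mem_filter]; exact ⟨hT1, rfl⟩)
  have hg1 : g T1 ≠ 0 := by
    rw [hF, mem_filter] at hT1
    exact hT1.2.1
  exact (mul_ne_zero hg1 (sg_ne _)) hfin

end Pool.Agent.D0H20.DL
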