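import Mathlib

/-!
# Functions on lists with the concatenation product: two homogeneous elements which do not commute
generate a free algebra
-/

set_option autoImplicit false

namespace Pool.Agent.D0H20.DL

/-- total length of a word -/
def wl {I : Type*} (len : I → ℕ) : List I → ℕ
  | [] => 0
  | c :: w => len c + wl len w

/-- the product of the functions of the letters -/
def ew {I : Type*} (len : I → ℕ) (f : I → List ℚ → ℚ) : List I → List ℚ → ℚ
  | [], _ => 1
  | c :: w, l => f c (l.take (len c)) * ew len f w (l.drop (len c))

@[simp] lemma wl_nil {I : Type*} (len : I → ℕ) : wl len [] = 0 := rfl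
lemma wl_cons {I : Type*} (len : I → ℕ) (c : I) (w : List I) : wl len (c :: w) = len c + wl len w := rfl
lemma ew_cons {I : Type*} (len : I → ℕ) (f : I → List ℚ → ℚ) (c : I) (w : List I) (l : List ℚ) :
    ew len f (c :: w) l = f c (l.take (len c)) * ew len f w (l.drop (len c)) := rfl

lemma wl_append {I : Type*} (len : I → ℕ) (v w : List I) : wl len (v ++ w) = wl len v + wl len w := by
  induction v with
  | nil => simp
  | cons c v ih => rw [List.cons_append, wl_cons, wl_cons, ih, add_assoc]

lemma ew_append {I : Type*} (len : I → ℕ) (f : I → List ℚ → ℚ) (v w : List I) : ∀ (l : List ℚ)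
    (_ : l.length = wl len v + wl len w),
    ew len f (v ++ w) l = ew len f v (l.take (wl len v)) * ew len f w (l.drop (wl len v)) := by
  induction v with
  | nil => intro l _; simp [ew]
  | cons c v ih =>
    intro l hl
    rw [wl_cons] at hl
    rw [List.cons_append, ew_cons, ew_cons, wl_cons, ih _ (by rw [List.length_drop]; omega),
      List.take_take, min_eq_left (by omega), List.drop_drop, List.take_drop, List.drop_take]
    have h1 : (l.take (len c + wl len v)).drop (len c) = (l.drop (len c)).take (wl len v) := by
      rw [List.drop_take, Nat.add_sub_cancel_left]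
    rw [List.take_drop] at h1
    have h2 : List.take (len c + wl len v - len c) (List.drop (len c) l) =
        List.drop (len c) (List.take (len c + wl len v) l) := by
      rw [List.drop_take]
    rw [h2]
    ring

/-- the functions of the letters generate a free algebra -/
def FreeFam {I : Type*} (len : I → ℕ) (u : I → List ℚ → ℚ) : Prop :=
  ∀ (R : ℕ) (S : Finset (List I)) (lam : List I → ℚ), (∀ w ∈ S, wl len w = R) →
    (∀ l : List ℚ, l.length = R → ∑ w ∈ S, lam w * ew len u w l = 0) → ∀ w ∈ S, lam w = 0

/-- the substitution of the long letter -/
def subs (a : Bool) : List Bool → List Bool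
  | [] => []
  | c :: w => if c = a then a :: subs a w else a :: (!a) :: subs a w

lemma subs_inj (a : Bool) : ∀ v w : List Bool, subs a v = subs a w → v = w := by
  intro v
  induction v with
  | nil =>
    intro w h
    cases w with
    | nil => rfl
    | cons c w =>
      unfold subs at h
      split_ifs at h
  | cons b v ih =>
    intro w h
    cases w with
    | nil =>
      unfold subs at h
      split_ifs at h
    | cons c w =>
      have hhead : ∀ w : List Bool, (subs a w).head? ≠ some (!a) := by
        intro w
        cases w with
        | nil => simp [subs]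
        | cons c w => unfold subs; split_ifs <;> cases a <;> simp
      by_cases hb : b = a <;> by_cases hc : c = a
      · rw [subs, subs, if_pos hb, if_pos hc] at h
        rw [hb, hc, ih w (by simpa using h)]
      · rw [subs, subs, if_pos hb, if_neg hc] at h
        exfalso
        have h1 : subs a v = (!a) :: subs a w := by simpa using h
        exact hhead v (by rw [h1]; rfl)
      · rw [subs, subs, if_neg hb, if_pos hc] at h
        exfalso
        have h1 : (!a) :: subs a v = subs a w := by simpa using h
        exact hhead w (by rw [← h1]; rfl)
      · rw [subs, subs, if_neg hb, if_neg hc] at h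
        have h1 : subs a v = subs a w := by simpa using h
        rw [ih w h1]
        congr 1
        cases a <;> cases b <;> cases c <;> simp_all

lemma bb {a c : Bool} (h : c ≠ a) : c = !a := by
  cases c <;> cases a <;> simp_all

lemma na (a : Bool) : (!a) ≠ a := by cases a <;> simp

/-- the tails of the words with first letter `c` -/
def tl (c : Bool) (S : Finset (List Bool)) : Finset (List Bool) :=
  (S.filter (fun w => w.head? = some c)).image List.tail

lemma mem_tl (c : Bool) (S : Finset (List Bool)) (w : List Bool) : w ∈ tl c S ↔ c :: w ∈ S := by
  unfold tl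
  simp only [Finset.mem_image, Finset.mem_filter]
  constructor
  · rintro ⟨v, ⟨hv, hv2⟩, rfl⟩
    cases v with
    | nil => simp at hv2
    | cons d v =>
      simp at hv2
      subst hv2
      exact hv
  · intro hw
    exact ⟨c :: w, ⟨hw, rfl⟩, rfl⟩

lemma sum_tl (S : Finset (List Bool)) (h : [] ∉ S) (F : List Bool → ℚ) : ∑ w ∈ S, F w =
    ∑ w ∈ tl true S, F (true :: w) + ∑ w ∈ tl false S, F (false :: w) := by
  have hi : ∀ c : Bool, Function.Injective (fun w : List Bool => c :: w) := by
    intro c v w hvw
    simpa using hvw
  have hdis : Disjoint ((tl true S).image (fun w => true :: w)) ((tl false S).image (fun w => false :: w)) := by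
    rw [Finset.disjoint_left]
    intro w hw hw'
    rw [Finset.mem_image] at hw hw'
    obtain ⟨v, _, rfl⟩ := hw
    obtain ⟨v', _, h'⟩ := hw'
    simp at h'
  have hun : S = (tl true S).image (fun w => true :: w) ∪ (tl false S).image (fun w => false :: w) := by
    ext w
    rw [Finset.mem_union, Finset.mem_image, Finset.mem_image]
    constructor
    · intro hw
      cases w with
      | nil => exact absurd hw h
      | cons c v =>
        cases c with
        | true => left; exact ⟨v, (mem_tl _ _ _).2 hw, rfl⟩
        | false => right; exact ⟨v, (mem_tl _ _ _).2 hw, rfl⟩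
    · rintro (⟨v, hv, rfl⟩ | ⟨v, hv, rfl⟩)
      · exact (mem_tl _ _ _).1 hv
      · exact (mem_tl _ _ _).1 hv
  conv_lhs => rw [hun]
  rw [Finset.sum_union hdis, Finset.sum_image (fun a _ b _ h => hi _ h),
    Finset.sum_image (fun a _ b _ h => hi _ h)]

/-- the new lengths -/
def nlen (a : Bool) (len : Bool → ℕ) : Bool → ℕ := fun c => if c = a then len a else len (!a) - len a
/-- the new functions -/
def nf (a : Bool) (f : Bool → List ℚ → ℚ) (v' : List ℚ → ℚ) : Bool → List ℚ → ℚ :=
  fun c => if c = a then f a else v'

lemma nlen_a (a : Bool) (len : Bool → ℕ) : nlen a len a = len a := by unfold nlen; simp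
lemma nlen_b (a : Bool) (len : Bool → ℕ) : nlen a len (!a) = len (!a) - len a := by
  unfold nlen; rw [if_neg (na a)]
lemma nf_a (a : Bool) (f : Bool → List ℚ → ℚ) (v' : List ℚ → ℚ) : nf a f v' a = f a := by
  unfold nf; simp
lemma nf_b (a : Bool) (f : Bool → List ℚ → ℚ) (v' : List ℚ → ℚ) : nf a f v' (!a) = v' := by
  unfold nf; rw [if_neg (na a)]

lemma wl_subs (a : Bool) (len : Bool → ℕ) (ha : len a ≤ len (!a)) (w : List Bool) :
    wl (nlen a len) (subs a w) = wl len w := by
  induction w with
  | nil => rfl
  | cons c w ih =>
    unfold subs
    split_ifs with hc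
    · rw [wl_cons, wl_cons, ih, nlen_a, hc]
    · rw [wl_cons, wl_cons, wl_cons, ih, nlen_a, nlen_b, bb hc]
      omega

lemma ew_subs (a : Bool) (len : Bool → ℕ) (f : Bool → List ℚ → ℚ) (v' : List ℚ → ℚ)
    (ha : len a ≤ len (!a))
    (hdiv : ∀ l : List ℚ, l.length = len (!a) → f (!a) l = f a (l.take (len a)) * v' (l.drop (len a)))
    (w : List Bool) : ∀ l : List ℚ, l.length = wl len w →
      ew (nlen a len) (nf a f v') (subs a w) l = ew len f w l := by
  induction w with
  | nil => intro l _; rfl
  | cons c w ih =>
    intro l hl
    rw [wl_cons] at hl
    unfold subs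
    split_ifs with hc
    · rw [ew_cons, ew_cons, nlen_a, nf_a, hc, ih _ (by rw [List.length_drop]; rw [hc] at hl; omega)]
    · have hc' := bb hc
      rw [hc'] at hl
      rw [ew_cons, ew_cons, ew_cons, nlen_a, nf_a, nlen_b, nf_b, hc', List.drop_drop,
        show len a + (len (!a) - len a) = len (!a) by omega,
        ih _ (by rw [List.length_drop]; omega),
        hdiv (l.take (len (!a))) (by rw [List.length_take]; omega), List.take_take,
        min_eq_left ha, List.drop_take]
      ring

/-- non-commutation of two functions -/
def NC (m n : ℕ) (u v : List ℚ → ℚ) : Prop :=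
  ∃ l : List ℚ, l.length = m + n ∧ u (l.take m) * v (l.drop m) ≠ v (l.take n) * u (l.drop n)

lemma NC.symm {m n : ℕ} {u v : List ℚ → ℚ} (h : NC m n u v) : NC n m v u := by
  obtain ⟨l, hl, h⟩ := h
  exact ⟨l, by omega, fun h' => h h'.symm⟩

lemma NC.left {m n : ℕ} {u v : List ℚ → ℚ} (h : NC m n u v) : ∃ l : List ℚ, l.length = m ∧ u l ≠ 0 := by
  obtain ⟨l, hl, h⟩ := h
  by_contra hcon
  push Not at hcon
  apply h
  rw [hcon (l.take m) (by rw [List.length_take]; omega),
    hcon (l.drop n) (by rw [List.length_drop]; omega)]
  ring

/-- division preserves non-commutation -/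
lemma NC.div {m n : ℕ} {u v v' : List ℚ → ℚ} (h : NC m n u v) (hmn : m ≤ n)
    (hdiv : ∀ l : List ℚ, l.length = n → v l = u (l.take m) * v' (l.drop m)) :
    m < n ∧ NC m (n - m) u v' := by
  obtain ⟨l, hl, h⟩ := h
  constructor
  · rcases lt_or_eq_of_le hmn with h' | h'
    · exact h'
    · exfalso
      apply h
      have h1 : ∀ l : List ℚ, l.length = n → v l = u l * v' [] := by
        intro l hl
        have := hdiv l hl
        rwa [List.take_of_length_le (by omega), List.drop_of_length_le (by omega)] at this
      rw [h1 (l.drop m) (by rw [List.length_drop]; omega),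
        h1 (l.take n) (by rw [List.length_take]; omega), h']
      ring
  · by_contra hcom
    unfold NC at hcom
    push Not at hcom
    apply h
    rw [hdiv (l.drop m) (by rw [List.length_drop]; omega),
      hdiv (l.take n) (by rw [List.length_take]; omega),
      hcom (l.drop m) (by rw [List.length_drop]; omega), List.take_take, min_eq_left hmn,
      List.drop_drop, show m + (n - m) = n by omega, List.drop_take]
    ring

/-- **Two elements which do not commute generate a free algebra.** -/
theorem free2 (k : ℕ) : ∀ (len : Bool → ℕ) (f : Bool → List ℚ → ℚ) (_ : len true + len false = k)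
    (_ : ∀ c, 1 ≤ len c) (_ : NC (len true) (len false) (f true) (f false))
    (R : ℕ) (S : Finset (List Bool)) (lam : List Bool → ℚ) (_ : ∀ w ∈ S, wl len w = R)
    (_ : ∀ l : List ℚ, l.length = R → ∑ w ∈ S, lam w * ew len f w l = 0), ∀ w ∈ S, lam w = 0 := by
  induction k using Nat.strong_induction_on with
  | _ k ihk =>
  intro len f hk hlen hne R
  have hNC : ∀ a, NC (len a) (len (!a)) (f a) (f (!a)) := by
    intro a
    cases a with
    | true => exact hne
    | false => exact hne.symm
  induction R using Nat.strong_induction_on with
  | _ R ihR =>
  intro S lam hS h0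
  rcases Nat.eq_zero_or_pos R with hR | hR
  · -- only the empty word
    intro w hw
    have hw0 : ∀ v ∈ S, v = [] := by
      intro v hv
      have := hS v hv
      cases v with
      | nil => rfl
      | cons c v =>
        rw [wl_cons] at this
        have := hlen c
        omega
    have h1 := h0 [] (by rw [hR]; rfl)
    obtain rfl := hw0 w hw
    rw [Finset.sum_eq_single_of_mem [] hw (fun v hv hv' => absurd (hw0 v hv) hv')] at h1
    simpa [ew] using h1
  · have hnil : [] ∉ S := by
      intro hw
      have := hS _ hw
      rw [wl_nil] at this
      omega
    set P : Bool → List ℚ → ℚ := fun c l => ∑ w ∈ tl c S, lam (c :: w) * ew len f w l with hP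
    have hTlen : ∀ c, ∀ w ∈ tl c S, len c + wl len w = R := by
      intro c w hw
      rw [mem_tl] at hw
      have := hS _ hw
      rw [wl_cons] at this
      exact this
    -- the relation
    have hrel : ∀ l : List ℚ, l.length = R →
        f true (l.take (len true)) * P true (l.drop (len true)) +
          f false (l.take (len false)) * P false (l.drop (len false)) = 0 := by
      intro l hl
      rw [← h0 l hl, sum_tl S hnil, hP]
      simp only [Finset.mul_sum, ew_cons]
      congr 1 <;>
      · apply Finset.sum_congr rfl
        intro w _
        ring
    -- if both parts vanish we are done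
    have hdone : (∀ c, ∀ l : List ℚ, l.length + len c = R → P c l = 0) → ∀ w ∈ S, lam w = 0 := by
      intro hz w hw
      cases w with
      | nil => exact absurd hw hnil
      | cons c v =>
        have hv := (mem_tl c S v).2 hw
        have hRc := hTlen c v hv
        have := hlen c
        exact ihR (R - len c) (by omega) (tl c S) (fun v => lam (c :: v))
          (fun u hu => by have := hTlen c u hu; omega)
          (fun l hl => hz c l (by omega)) v hv
    by_contra hcon
    push Not at hcon
    obtain ⟨w0, hw0, hw0'⟩ := hcon
    have hex : ∃ c, ∃ l : List ℚ, l.length + len c = R ∧ P c l ≠ 0 := by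
      by_contra hc
      push Not at hc
      exact hw0' (hdone hc w0 hw0)
    -- then both parts are nonzero
    have hgen : ∀ c, ∀ l : List ℚ, l.length = R →
        f c (l.take (len c)) * P c (l.drop (len c)) =
          - (f (!c) (l.take (len (!c))) * P (!c) (l.drop (len (!c)))) := by
      intro c l hl
      have := hrel l hl
      cases c with
      | true => simp only [Bool.not_true]; linarith
      | false => simp only [Bool.not_false]; linarith
    have hboth : ∀ c, ∃ l : List ℚ, l.length + len c = R ∧ P c l ≠ 0 := by
      obtain ⟨c, l, hl, hPl⟩ := hex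
      have hother : ∃ l : List ℚ, l.length + len (!c) = R ∧ P (!c) l ≠ 0 := by
        obtain ⟨l1, hl1, hl1'⟩ := (hNC c).left
        have h1 := hgen c (l1 ++ l) (by rw [List.length_append, hl1]; omega)
        rw [List.take_append_of_le_length (by omega), List.take_of_length_le (by omega),
          List.drop_append_of_le_length (by omega), List.drop_of_length_le (by omega),
          List.nil_append] at h1
        have h2 : f (!c) ((l1 ++ l).take (len (!c))) * P (!c) ((l1 ++ l).drop (len (!c))) ≠ 0 := by
          intro h3
          rw [h3, neg_zero] at h1
          exact mul_ne_zero hl1' hPl h1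
        have h3 : len (!c) ≤ R := by
          by_contra hlt
          have h4 : tl (!c) S = ∅ := by
            rw [Finset.eq_empty_iff_forall_notMem]
            intro v hv
            have := hTlen _ v hv
            omega
          apply h2
          rw [hP]
          simp only [h4, Finset.sum_empty, mul_zero]
        exact ⟨(l1 ++ l).drop (len (!c)), by rw [List.length_drop, List.length_append, hl1]; omega,
          right_ne_zero_of_mul h2⟩
      intro d
      by_cases hd : d = c
      · rw [hd]; exact ⟨l, hl, hPl⟩
      · rw [bb hd]; exact hother
    -- the short letter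
    obtain ⟨a, ha⟩ : ∃ a : Bool, len a ≤ len (!a) := by
      rcases le_total (len true) (len false) with h | h
      · exact ⟨true, h⟩
      · exact ⟨false, h⟩
    obtain ⟨l0, hl0, hl0'⟩ := hboth (!a)
    set v' : List ℚ → ℚ := fun l => - P a (l ++ l0) / P (!a) l0 with hv'
    have hdiv : ∀ l : List ℚ, l.length = len (!a) → f (!a) l = f a (l.take (len a)) * v' (l.drop (len a)) := by
      intro l hl
      have h1 := hgen (!a) (l ++ l0) (by rw [List.length_append, hl]; omega)
      rw [Bool.not_not, List.take_append_of_le_length (by omega), List.take_of_length_le (by omega),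
        List.drop_append_of_le_length (by omega), List.drop_of_length_le (by omega), List.nil_append,
        List.take_append_of_le_length (by omega), List.drop_append_of_le_length (by omega)] at h1
      rw [hv']
      simp only
      field_simp
      linarith
    obtain ⟨hm, hNC'⟩ := (hNC a).div ha hdiv
    have hla := hlen a
    have hlt : len (!a) < k := by
      rw [← hk]
      cases a
      · simp only [Bool.not_false] at *; omega
      · simp only [Bool.not_true] at *; omega
    have hsum' : nlen a len true + nlen a len false = len (!a) := by
      cases a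
      · have h1 := nlen_a false len
        have h2 := nlen_b false len
        simp only [Bool.not_false] at h2 hm ⊢
        omega
      · have h1 := nlen_a true len
        have h2 := nlen_b true len
        simp only [Bool.not_true] at h2 hm ⊢
        omega
    have hlen' : ∀ c, 1 ≤ nlen a len c := by
      intro c
      by_cases hc : c = a
      · rw [hc, nlen_a]; exact hla
      · rw [bb hc, nlen_b]; omega
    have hnew : NC (nlen a len true) (nlen a len false) (nf a f v' true) (nf a f v' false) := by
      have h1 : NC (nlen a len a) (nlen a len (!a)) (nf a f v' a) (nf a f v' (!a)) := by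
        rw [nlen_a, nlen_b, nf_a, nf_b]
        exact hNC'
      cases a
      · exact h1.symm
      · exact h1
    have hkey := ihk (len (!a)) hlt (nlen a len) (nf a f v') hsum' hlen' hnew
      R (S.image (subs a)) (fun w => ∑ v ∈ S with subs a v = w, lam v) (by
        intro w hw
        rw [Finset.mem_image] at hw
        obtain ⟨v, hv, rfl⟩ := hw
        rw [wl_subs a len ha, hS v hv]) (by
        intro l hl
        rw [Finset.sum_image (fun v _ w _ h => subs_inj a v w h)]
        refine Eq.trans ?_ (h0 l hl)
        apply Finset.sum_congr rfl
        intro w hw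
        rw [ew_subs a len f v' ha hdiv w l (by rw [hl, hS w hw])]
        congr 1
        rw [Finset.sum_filter, Finset.sum_eq_single_of_mem w hw]
        · rw [if_pos rfl]
        · intro v _ hvw
          exact if_neg (fun h => hvw (subs_inj a v w h)))
    have h2 := hkey (subs a w0) (Finset.mem_image_of_mem _ hw0)
    rw [Finset.sum_filter, Finset.sum_eq_single_of_mem w0 hw0] at h2
    · rw [if_pos rfl] at h2
      exact hw0' h2
    · intro v _ hvw
      exact if_neg (fun h => hvw (subs_inj a v w0 h))

end Pool.Agent.D0H20.DL
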